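import Mathlib

/-!
# The kernels of random matrices over `𝔽₂`
-/

set_option autoImplicit false

open scoped Classical

namespace Run7.h268.U.Mom

open Finset

variable {I J : Type} [Fintype I] [Fintype J]

/-- the dimension of the kernel -/
noncomputable def dk (M : Matrix I J (ZMod 2)) : ℕ := Module.finrank (ZMod 2) (LinearMap.ker M.mulVecLin)

theorem dk_rank (M : Matrix I J (ZMod 2)) : M.rank + dk M = Fintype.card J := by
  have h := LinearMap.finrank_range_add_finrank_ker M.mulVecLin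
  rw [Module.finrank_fintype_fun_eq_card] at h
  exact h

/-- the matrices which kill given independent vectors -/
theorem card_kill {k : ℕ} {v : Fin k → J → ZMod 2} (hv : LinearIndependent (ZMod 2) v) :
    Nat.card {M : Matrix I J (ZMod 2) // ∀ i, M.mulVec (v i) = 0} * 2 ^ (k * Fintype.card I) =
      2 ^ (Fintype.card I * Fintype.card J) := by
  let T : Matrix I J (ZMod 2) →ₗ[ZMod 2] (Fin k → I → ZMod 2) :=
    { toFun := fun M i => M.mulVec (v i)
      map_add' := fun M N => by
        funext i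
        exact Matrix.add_mulVec M N (v i)
      map_smul' := fun c M => by
        funext i
        exact Matrix.smul_mulVec c M (v i) }
  have hsurj : Function.Surjective T := by
    intro w
    obtain ⟨g, hg⟩ := LinearMap.exists_extend
      ((Finsupp.linearCombination (ZMod 2) w).comp hv.repr)
    refine ⟨LinearMap.toMatrix' g, ?_⟩
    funext i
    show (LinearMap.toMatrix' g).mulVec (v i) = w i
    rw [← Matrix.toLin'_apply, Matrix.toLin'_toMatrix']
    have hmem : v i ∈ Submodule.span (ZMod 2) (Set.range v) := Submodule.subset_span ⟨i, rfl⟩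
    have h1 : g (v i) = (g.comp (Submodule.span (ZMod 2) (Set.range v)).subtype) ⟨v i, hmem⟩ := rfl
    rw [h1, hg]
    show Finsupp.linearCombination (ZMod 2) w (hv.repr ⟨v i, hmem⟩) = w i
    rw [hv.repr_eq_single i ⟨v i, hmem⟩ rfl]
    simp
  have hker : Nat.card {M : Matrix I J (ZMod 2) // ∀ i, M.mulVec (v i) = 0} =
      Nat.card (LinearMap.ker T) := by
    refine Nat.card_congr (Equiv.subtypeEquivRight fun M => ?_)
    rw [LinearMap.mem_ker]
    exact ⟨fun h => funext h, fun h i => congrFun h i⟩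
  have h1 := LinearMap.finrank_range_add_finrank_ker T
  rw [LinearMap.range_eq_top.2 hsurj, finrank_top] at h1
  have h2 : Nat.card (LinearMap.ker T) = 2 ^ Module.finrank (ZMod 2) (LinearMap.ker T) := by
    rw [Module.natCard_eq_pow_finrank (K := ZMod 2), Nat.card_zmod]
  have h3 : Module.finrank (ZMod 2) (Fin k → I → ZMod 2) = k * Fintype.card I := by
    rw [Module.finrank_pi_fintype]
    simp
  have h4 : Module.finrank (ZMod 2) (Matrix I J (ZMod 2)) = Fintype.card I * Fintype.card J := by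
    rw [Module.finrank_matrix]
    simp
  rw [hker, h2, ← pow_add, ← h4, ← h1, h3]
  congr 1
  omega

/-- the number of the independent `k`-tuples in the kernel -/
noncomputable def nt (k : ℕ) (M : Matrix I J (ZMod 2)) : ℕ :=
  (univ.filter fun v : Fin k → J → ZMod 2 =>
    LinearIndependent (ZMod 2) v ∧ ∀ i, M.mulVec (v i) = 0).card

theorem nt_eq {k : ℕ} (M : Matrix I J (ZMod 2)) (hk : k ≤ dk M) :
    nt k M = ∏ i : Fin k, (2 ^ dk M - 2 ^ (i : ℕ)) := by
  have h1 := card_linearIndependent (K := ZMod 2) (V := LinearMap.ker M.mulVecLin) hk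
  rw [ZMod.card] at h1
  show _ = ∏ i : Fin k, (2 ^ Module.finrank (ZMod 2) (LinearMap.ker M.mulVecLin) - 2 ^ (i : ℕ))
  rw [← h1]
  unfold nt
  rw [← Fintype.card_subtype, ← Nat.card_eq_fintype_card]
  refine Nat.card_congr
    { toFun := fun v => ⟨fun i => ⟨v.1 i, v.2.2 i⟩, ?_⟩
      invFun := fun v => ⟨fun i => (v.1 i : J → ZMod 2), ?_, fun i => (v.1 i).2⟩
      left_inv := fun v => rfl
      right_inv := fun v => rfl }
  · exact LinearIndependent.of_comp (LinearMap.ker M.mulVecLin).subtype v.2.1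
  · exact v.2.map' (LinearMap.ker M.mulVecLin).subtype (Submodule.ker_subtype _)

theorem nt_zero {k : ℕ} (M : Matrix I J (ZMod 2)) (hk : dk M < k) : nt k M = 0 := by
  unfold nt
  rw [card_eq_zero, filter_eq_empty_iff]
  rintro v - ⟨h1, h2⟩
  have h3 : LinearIndependent (ZMod 2) fun i => (⟨v i, h2 i⟩ : LinearMap.ker M.mulVecLin) :=
    LinearIndependent.of_comp (LinearMap.ker M.mulVecLin).subtype h1
  have h4 := h3.fintype_card_le_finrank
  rw [Fintype.card_fin] at h4
  unfold dk at hk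
  omega

/-- the sum over all matrices -/
theorem sum_nt (k : ℕ) : (∑ M : Matrix I J (ZMod 2), nt k M) * 2 ^ (k * Fintype.card I) ≤
    2 ^ (k * Fintype.card J) * 2 ^ (Fintype.card I * Fintype.card J) := by
  have h1 : ∑ M : Matrix I J (ZMod 2), nt k M =
      ∑ v ∈ univ.filter fun v : Fin k → J → ZMod 2 => LinearIndependent (ZMod 2) v,
        Nat.card {M : Matrix I J (ZMod 2) // ∀ i, M.mulVec (v i) = 0} := by
    have e1 : ∀ M : Matrix I J (ZMod 2), nt k M =
        ∑ v : Fin k → J → ZMod 2, if LinearIndependent (ZMod 2) v ∧ ∀ i, M.mulVec (v i) = 0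
          then 1 else 0 := fun M => by
      unfold nt
      rw [card_filter]
    rw [sum_congr rfl fun M _ => e1 M, sum_comm, sum_filter]
    refine sum_congr rfl fun v _ => ?_
    by_cases hv : LinearIndependent (ZMod 2) v
    · rw [if_pos hv, Nat.card_eq_fintype_card, Fintype.card_subtype, card_filter]
      refine sum_congr rfl fun M _ => ?_
      by_cases h : ∀ i, M.mulVec (v i) = 0
      · rw [if_pos h, if_pos ⟨hv, h⟩]
      · rw [if_neg h, if_neg fun h' => h h'.2]
    · rw [if_neg hv]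
      refine sum_eq_zero fun M _ => if_neg fun h => hv h.1
  rw [h1, sum_mul]
  have h2 : ∀ v ∈ univ.filter fun v : Fin k → J → ZMod 2 => LinearIndependent (ZMod 2) v,
      Nat.card {M : Matrix I J (ZMod 2) // ∀ i, M.mulVec (v i) = 0} * 2 ^ (k * Fintype.card I) =
        2 ^ (Fintype.card I * Fintype.card J) := fun v hv => card_kill (mem_filter.1 hv).2
  rw [sum_congr rfl h2, sum_const, smul_eq_mul]
  refine Nat.mul_le_mul_right _ ((card_filter_le _ _).trans (le_of_eq ?_))
  rw [card_univ, Fintype.card_fun, Fintype.card_fun, ZMod.card, Fintype.card_fin, ← pow_mul,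
    mul_comm]

/-- the sum for square matrices -/
theorem sum_nt_sq {m : ℕ} (hI : Fintype.card I = m) (hJ : Fintype.card J = m) (k : ℕ) :
    ∑ M : Matrix I J (ZMod 2), nt k M ≤ 2 ^ (m * m) := by
  have h := sum_nt (I := I) (J := J) k
  rw [hI, hJ, mul_comm (2 ^ (k * m))] at h
  exact Nat.le_of_mul_le_mul_right h (by positivity)

/-- **The tail of the dimension of the kernel.** -/
theorem tail {m : ℕ} (hI : Fintype.card I = m) (hJ : Fintype.card J = m) (j : ℕ) :
    (univ.filter fun M : Matrix I J (ZMod 2) => j ≤ dk M).card *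
      ∏ i : Fin j, (2 ^ j - 2 ^ (i : ℕ)) ≤ 2 ^ (m * m) := by
  refine le_trans ?_ (sum_nt_sq hI hJ j)
  rw [← smul_eq_mul, ← sum_const]
  refine (sum_le_sum fun M hM => ?_).trans (sum_le_sum_of_subset_of_nonneg (filter_subset _ _)
    fun _ _ _ => Nat.zero_le _)
  have h1 := (mem_filter.1 hM).2
  rw [nt_eq M h1]
  exact prod_le_prod' fun i _ => Nat.sub_le_sub_right (Nat.pow_le_pow_right (by norm_num) h1) _

theorem prod_ge (j : ℕ) : ((∏ i : Fin j, (2 ^ j - 2 ^ (i : ℕ)) : ℕ) : ℝ) =
    2 ^ (j ^ 2) * ∏ i ∈ range j, (1 - (1 / 2 : ℝ) ^ (i + 1)) := by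
  push_cast
  have h3 : ∀ i : Fin j, ((2 ^ j - 2 ^ (i : ℕ) : ℕ) : ℝ) = 2 ^ j * (1 - (1 / 2 : ℝ) ^ (j - i)) := by
    intro i
    rw [Nat.cast_sub (Nat.pow_le_pow_right (by norm_num) i.2.le)]
    push_cast
    have h4 : (2 : ℝ) ^ j = 2 ^ (i : ℕ) * 2 ^ (j - (i : ℕ)) := by
      rw [← pow_add, Nat.add_sub_cancel' i.2.le]
    rw [mul_sub, mul_one, div_pow, one_pow, h4, mul_assoc, mul_one_div,
      div_self (by positivity : (2 : ℝ) ^ (j - (i : ℕ)) ≠ 0), mul_one]
  rw [Finset.prod_congr rfl fun i _ => h3 i, Finset.prod_mul_distrib, Finset.prod_const,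
    Finset.card_univ, Fintype.card_fin, ← pow_mul, Fin.prod_univ_eq_prod_range
    (fun i => 1 - (1 / 2 : ℝ) ^ (j - i)) j, ← Finset.prod_range_reflect, ← pow_two]
  congr 1
  refine Finset.prod_congr rfl fun i hi => ?_
  rw [mem_range] at hi
  congr 2
  omega

/-- **The second moment.** -/
theorem moment {m : ℕ} (hI : Fintype.card I = m) (hJ : Fintype.card J = m) :
    ∑ M : Matrix I J (ZMod 2), 4 ^ dk M ≤ 5 * 2 ^ (m * m) := by
  have h1 : ∀ M : Matrix I J (ZMod 2), 4 ^ dk M = 1 + 3 * nt 1 M + nt 2 M := by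
    intro M
    rcases Nat.lt_or_ge (dk M) 2 with h | h
    · rw [nt_zero M h]
      rcases Nat.lt_or_ge (dk M) 1 with h' | h'
      · rw [nt_zero M h']
        have : dk M = 0 := by omega
        rw [this]
        norm_num
      · have h2 : dk M = 1 := by omega
        rw [nt_eq M h', h2]
        norm_num
    · rw [nt_eq M h, nt_eq M (by omega), Fin.prod_univ_two, Fin.prod_univ_one]
      have h3 : 4 ≤ 2 ^ dk M := by
        calc 4 = 2 ^ 2 := by norm_num
          _ ≤ _ := Nat.pow_le_pow_right (by norm_num) h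
      have h4 : 4 ^ dk M = 2 ^ dk M * 2 ^ dk M := by
        rw [← mul_pow]
        norm_num
      obtain ⟨t, ht⟩ := Nat.exists_eq_add_of_le h3
      rw [h4, ht]
      simp only [Fin.val_zero, Fin.val_one, pow_zero, pow_one]
      have e1 : 4 + t - 1 = 3 + t := by omega
      have e2 : 4 + t - 2 = 2 + t := by omega
      rw [e1, e2]
      ring
  rw [sum_congr rfl fun M _ => h1 M, sum_add_distrib, sum_add_distrib, sum_const, ← mul_sum]
  have h2 := sum_nt_sq (I := I) (J := J) hI hJ 1
  have h3 := sum_nt_sq (I := I) (J := J) hI hJ 2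
  have h4 : (univ : Finset (Matrix I J (ZMod 2))).card = 2 ^ (m * m) := by
    have h5 := card_kill (I := I) (J := J) (k := 0) (v := fun i => i.elim0) (by
      exact linearIndependent_empty_type)
    rw [Nat.zero_mul, pow_zero, mul_one, hI, hJ, Nat.card_eq_fintype_card, Fintype.card_subtype]
      at h5
    rw [← h5]
    congr 1
    ext M
    simp
  rw [h4, smul_eq_mul, mul_one]
  omega

theorem tail' {m : ℕ} (hI : Fintype.card I = m) (hJ : Fintype.card J = m) (j : ℕ) :
    (Nat.card {M : Matrix I J (ZMod 2) // j ≤ dk M} : ℝ) *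
      (2 ^ (j ^ 2) * ∏ i ∈ range j, (1 - (1 / 2 : ℝ) ^ (i + 1))) ≤ 2 ^ (m * m) := by
  have h := tail hI hJ j
  rw [← Fintype.card_subtype, ← Nat.card_eq_fintype_card] at h
  rw [← prod_ge, ← Nat.cast_mul]
  calc ((Nat.card {M : Matrix I J (ZMod 2) // j ≤ dk M} *
        ∏ i : Fin j, (2 ^ j - 2 ^ (i : ℕ)) : ℕ) : ℝ) ≤ ((2 ^ (m * m) : ℕ) : ℝ) := Nat.cast_le.2 h
    _ = 2 ^ (m * m) := by push_cast; rfl

theorem moment' {m : ℕ} (hI : Fintype.card I = m) (hJ : Fintype.card J = m) :
    ∑ k ∈ range (m + 1), (4 : ℝ) ^ k * (Nat.card {M : Matrix I J (ZMod 2) // dk M = k} : ℝ) ≤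
      5 * 2 ^ (m * m) := by
  have h1 := moment (I := I) (J := J) hI hJ
  have h3 : ∑ k ∈ range (m + 1), 4 ^ k * Nat.card {M : Matrix I J (ZMod 2) // dk M = k} =
      ∑ M : Matrix I J (ZMod 2), 4 ^ dk M := by
    rw [← sum_fiberwise_of_maps_to (s := univ) (t := range (m + 1))
      (g := fun M : Matrix I J (ZMod 2) => dk M) (fun M _ => by
        rw [mem_range]
        have := dk_rank M
        omega)]
    refine sum_congr rfl fun k _ => ?_
    rw [sum_congr rfl fun M hM => by rw [(mem_filter.1 hM).2], sum_const,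
      smul_eq_mul, mul_comm, Nat.card_eq_fintype_card, Fintype.card_subtype]
  rw [← h3] at h1
  calc ∑ k ∈ range (m + 1), (4 : ℝ) ^ k * (Nat.card {M : Matrix I J (ZMod 2) // dk M = k} : ℝ)
      = ((∑ k ∈ range (m + 1), 4 ^ k * Nat.card {M : Matrix I J (ZMod 2) // dk M = k} : ℕ) : ℝ) := by
        push_cast
        rfl
    _ ≤ ((5 * 2 ^ (m * m) : ℕ) : ℝ) := Nat.cast_le.2 h1
    _ = 5 * 2 ^ (m * m) := by push_cast; rfl

end Run7.h268.U.Mom
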