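import Pool.Agent.Run7.h268.U.Tor

/-!
# The torsion of the twists `y² = x³ + a D x² + b D² x`
-/

set_option autoImplicit false

namespace Run7.h268.U.Tor

open WeierstrassCurve WeierstrassCurve.Affine

variable {a b : ℤ}

/-- finite orbits of the duplication map have bounded height -/
theorem orbit (hb : b ≠ 0) (hD : a ^ 2 - 4 * b ≠ 0) : ∃ K : ℕ, ∀ x : ℕ → ℚ,
    (∀ j, 4 * x j * (x j ^ 2 + a * x j + b) ≠ 0 ∧
      x (j + 1) * (4 * x j * (x j ^ 2 + a * x j + b)) = (x j ^ 2 - b) ^ 2) →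
    (∃ i j, i < j ∧ x i = x j) → ht (x 0) ≤ K := by
  obtain ⟨K, hK, h⟩ := ht_dup hb hD
  refine ⟨K, fun x hx ⟨i, j, hij, hxij⟩ => ?_⟩
  by_contra hcon
  push Not at hcon
  have step : ∀ j, K < ht (x j) → ht (x j) < ht (x (j + 1)) := by
    intro j hj
    have h1 := h (x j) (x (j + 1)) (hx j).1 (hx j).2
    by_contra h2
    push Not at h2
    have h3 : ht (x j) ^ 4 ≤ ht (x j) * ht (x j) :=
      h1.trans (Nat.mul_le_mul hj.le h2)
    have h4 : 2 ≤ ht (x j) := by omega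
    have h5 : ht (x j) * ht (x j) < ht (x j) ^ 4 := by
      calc ht (x j) * ht (x j) = ht (x j) ^ 2 := by ring
        _ < ht (x j) ^ 4 := Nat.pow_lt_pow_right (by omega) (by norm_num)
    omega
  have all : ∀ j, K < ht (x j) := by
    intro j
    induction j with
    | zero => exact hcon
    | succ j ih => exact ih.trans (step j ih)
  have mono : StrictMono fun j => ht (x j) := strictMono_nat_of_lt_succ fun j => step j (all j)
  have h6 := mono hij
  simp only [hxij] at h6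
  exact absurd h6 (lt_irrefl _)

/-- the curve `y² = x³ + A x² + B x` -/
def cv (A B : ℚ) : WeierstrassCurve ℚ := { a₁ := 0, a₂ := A, a₃ := 0, a₄ := B, a₆ := 0 }

variable {A B : ℚ}

/-- the first coordinate -/
def xc : (cv A B).toAffine.Point → ℚ
  | .zero => 0
  | .some x _ _ => x

theorem eqn {x y : ℚ} (h : (cv A B).toAffine.Nonsingular x y) : y ^ 2 = x ^ 3 + A * x ^ 2 + B * x := by
  have h1 := (equation_iff (W := (cv A B).toAffine) x y).1 h.1
  simp only [cv] at h1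
  linear_combination h1

theorem dbl {x y : ℚ} (h : (cv A B).toAffine.Nonsingular x y)
    (h2 : (Point.some x y h : (cv A B).toAffine.Point) + Point.some x y h ≠ 0) :
    y ≠ 0 ∧ ∃ x' y' h', (Point.some x y h : (cv A B).toAffine.Point) + Point.some x y h =
      Point.some x' y' h' ∧ x' * (4 * (x ^ 3 + A * x ^ 2 + B * x)) = (x ^ 2 - B) ^ 2 := by
  have hneg : (cv A B).toAffine.negY x y = -y := by
    unfold negY
    simp only [cv]
    ring
  have hy : y ≠ (cv A B).toAffine.negY x y := fun h3 => h2 (Point.add_self_of_Y_eq h3)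
  have hy0 : y ≠ 0 := by
    rintro rfl
    rw [hneg] at hy
    exact hy (by ring)
  refine ⟨hy0, _, _, _, Point.add_self_of_Y_ne hy, ?_⟩
  rw [slope_of_Y_ne rfl hy, hneg]
  unfold addX
  simp only [cv]
  have he := eqn h
  have h2y : y - -y ≠ 0 := by
    intro h3
    apply hy0
    linarith
  field_simp
  linear_combination (-(4 * (x ^ 2 - B) ^ 2 + 16 * (A + 2 * x) * (x ^ 3 + A * x ^ 2 + B * x))) * he

/-- **Torsion points with all multiples by powers of two nonzero have bounded height.** -/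
theorem tors_ht (hb : b ≠ 0) (hD : a ^ 2 - 4 * b ≠ 0) : ∃ K : ℕ, ∀ D : ℤ, D ≠ 0 →
    ∀ P : (cv (a * D) (b * D ^ 2)).toAffine.Point, IsOfFinAddOrder P →
      (∀ j : ℕ, (2 ^ j) • P ≠ 0) → ht (xc P / D) ≤ K := by
  obtain ⟨K, hK⟩ := orbit hb hD
  refine ⟨K, fun D hD0 P hfin hP => ?_⟩
  have hDQ : (D : ℚ) ≠ 0 := by exact_mod_cast hD0
  have hdbl : ∀ j : ℕ, (2 ^ (j + 1)) • P = (2 ^ j) • P + (2 ^ j) • P := fun j => by
    have e : 2 ^ (j + 1) = 2 ^ j + 2 ^ j := by ring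
    rw [e, add_nsmul]
  have h0 := hK (fun j => xc ((2 ^ j) • P) / D) (fun j => ?_) ?_
  · simpa using h0
  · have hP1 := hP j
    have hP2 := hP (j + 1)
    rw [hdbl] at hP2 ⊢
    generalize (2 ^ j) • P = Q at hP1 hP2 ⊢
    match Q, hP1, hP2 with
    | .zero, h1, _ => exact absurd rfl h1
    | .some x y h, _, h2 =>
      obtain ⟨hy, x', y', h', e, hx'⟩ := dbl h h2
      have he := eqn h
      rw [e]
      simp only [xc]
      have e1 : 4 * (x / D) * ((x / D) ^ 2 + a * (x / D) + b) = 4 * y ^ 2 / (D : ℚ) ^ 3 := by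
        rw [he]
        field_simp
      constructor
      · rw [e1]
        exact div_ne_zero (mul_ne_zero (by norm_num) (pow_ne_zero 2 hy)) (pow_ne_zero 3 hDQ)
      · field_simp
        field_simp at hx'
        linear_combination hx'
  · have hf : Finite (AddSubgroup.zmultiples P) := finite_zmultiples.2 hfin
    obtain ⟨i, j, hij, h⟩ := Finite.exists_ne_map_eq_of_infinite fun j : ℕ =>
      (⟨(2 ^ j) • P, AddSubgroup.nsmul_mem _ (AddSubgroup.mem_zmultiples P) _⟩ :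
        AddSubgroup.zmultiples P)
    have h1 : (2 ^ i) • P = (2 ^ j) • P := congrArg Subtype.val h
    rcases lt_or_gt_of_ne hij with h2 | h2
    · exact ⟨i, j, h2, by simp only [h1]⟩
    · exact ⟨j, i, h2, by simp only [h1]⟩

theorem sqf_eq {m n : ℕ} (hm : Squarefree m) (hn : Squarefree n) (h : IsSquare (m * n)) : m = n := by
  obtain ⟨s, hs⟩ := h
  have hm0 : 0 < m := Nat.pos_of_ne_zero hm.ne_zero
  have h1 : m ∣ s := by
    rw [← hm.dvd_pow_iff_dvd two_ne_zero, pow_two, ← hs]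
    exact dvd_mul_right _ _
  obtain ⟨t, rfl⟩ := h1
  have h2 : n = m * (t * t) := by
    have h3 : m * n = m * (m * (t * t)) := by
      rw [hs]
      ring
    exact Nat.eq_of_mul_eq_mul_left hm0 h3
  have h3 : IsUnit t := hn t (by rw [h2]; exact dvd_mul_left _ _)
  rw [Nat.isUnit_iff] at h3
  rw [h2, h3]
  ring

/-- the twist has a torsion point all whose multiples by powers of two are nonzero -/
def Exc (a b : ℤ) (D : ℕ) : Prop :=
  ∃ P : (cv ((a * D : ℤ) : ℚ) ((b * D ^ 2 : ℤ) : ℚ)).toAffine.Point,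
    IsOfFinAddOrder P ∧ ∀ j : ℕ, (2 ^ j) • P ≠ 0

theorem finite_exc (hb : b ≠ 0) (hD : a ^ 2 - 4 * b ≠ 0) : {D : ℕ | Squarefree D ∧ Exc a b D}.Finite := by
  obtain ⟨K, hK⟩ := tors_ht hb hD
  have hK' : ∀ D : ℕ, D ≠ 0 → ∀ A B : ℚ, A = a * (D : ℤ) → B = b * (D : ℤ) ^ 2 →
      ∀ P : (cv A B).toAffine.Point, IsOfFinAddOrder P → (∀ j : ℕ, (2 ^ j) • P ≠ 0) →
        ht (xc P / (D : ℤ)) ≤ K := by
    rintro D hD0 A B rfl rfl P h1 h2
    exact hK D (by exact_mod_cast hD0) P h1 h2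
  have key : ∀ D : ℕ, Squarefree D ∧ Exc a b D → ∃ q : ℚ, ht q ≤ K ∧ ∃ y : ℚ, y ≠ 0 ∧
      y ^ 2 = (D : ℚ) ^ 3 * (q ^ 3 + a * q ^ 2 + b * q) := by
    rintro D ⟨hsq, P, hP1, hP2⟩
    have hD0 : D ≠ 0 := hsq.ne_zero
    have hDQ : (D : ℚ) ≠ 0 := by exact_mod_cast hD0
    refine ⟨xc P / (D : ℤ), hK' D hD0 _ _ (by push_cast; rfl) (by push_cast; rfl) P hP1 hP2, ?_⟩
    have h0 := hP2 0
    have h1 := hP2 1
    rw [pow_zero, one_nsmul] at h0
    rw [pow_one, two_nsmul] at h1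
    clear hP1 hP2
    match P, h0, h1 with
    | .zero, h0, _ => exact absurd rfl h0
    | .some x y h, _, h1 =>
      obtain ⟨hy, -⟩ := dbl h h1
      refine ⟨y, hy, ?_⟩
      rw [eqn h]
      simp only [xc]
      push_cast
      field_simp
  choose! ξ hξ using key
  refine Set.Finite.of_injOn (f := ξ) (t := {q : ℚ | ht q ≤ K}) (fun D hDD => (hξ D hDD).1) ?_
    (finite_ht K)
  intro D₁ h₁ D₂ h₂ heq
  obtain ⟨-, y₁, hy₁, e₁⟩ := hξ D₁ h₁
  obtain ⟨-, y₂, hy₂, e₂⟩ := hξ D₂ h₂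
  have heq' : ξ D₁ = ξ D₂ := heq
  rw [heq'] at e₁
  set ρ : ℚ := ξ D₂ ^ 3 + a * ξ D₂ ^ 2 + b * ξ D₂ with hρ
  have hd₁ : (D₁ : ℚ) ≠ 0 := by exact_mod_cast h₁.1.ne_zero
  have hd₂ : (D₂ : ℚ) ≠ 0 := by exact_mod_cast h₂.1.ne_zero
  have hρ0 : ρ ≠ 0 := by
    intro h
    rw [h, mul_zero] at e₁
    exact hy₁ (pow_eq_zero_iff two_ne_zero |>.1 e₁)
  refine sqf_eq h₁.1 h₂.1 ?_
  rw [← Rat.isSquare_natCast_iff]
  refine ⟨y₁ * y₂ / (D₁ * D₂ * ρ), ?_⟩
  push_cast
  field_simp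
  have : y₁ ^ 2 * y₂ ^ 2 = (D₁ : ℚ) ^ 3 * ρ * ((D₂ : ℚ) ^ 3 * ρ) := by rw [e₁, e₂]
  linear_combination -this

/-- **The torsion.** -/
theorem tors {D : ℕ} (hD0 : D ≠ 0) (hb : ¬ IsSquare b) (hD : ¬ IsSquare (a ^ 2 - 4 * b))
    (he : ¬ Exc a b D) {P : (cv ((a * D : ℤ) : ℚ) ((b * D ^ 2 : ℤ) : ℚ)).toAffine.Point}
    (hP : IsOfFinAddOrder P) : P = 0 ∨ ∃ h, P = Point.some 0 0 h := by
  have hDQ : (D : ℚ) ≠ 0 := by exact_mod_cast hD0
  by_cases hP0 : P = 0
  · exact Or.inl hP0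
  right
  -- the smallest power of two that kills `P`
  have hex : ∃ j : ℕ, (2 ^ j) • P = 0 := by
    by_contra h
    push Not at h
    exact he ⟨P, hP, h⟩
  have h1 : ∀ Q : (cv ((a * D : ℤ) : ℚ) ((b * D ^ 2 : ℤ) : ℚ)).toAffine.Point, Q ≠ 0 → Q + Q = 0 →
      ∃ h, Q = Point.some 0 0 h := by
    intro Q h0 h2
    match Q, h0, h2 with
    | .zero, h0, _ => exact absurd rfl h0
    | .some x y h, _, h2 =>
      have hneg : (cv ((a * D : ℤ) : ℚ) ((b * D ^ 2 : ℤ) : ℚ)).toAffine.negY x y = -y := by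
        unfold negY
        simp only [cv]
        ring
      have hy : y = -y := by
        by_contra hy
        rw [← hneg] at hy
        rw [Point.add_self_of_Y_ne hy] at h2
        exact Point.some_ne_zero _ h2
      have hy0 : y = 0 := by linarith
      subst hy0
      have h3 := eqn h
      have hx : x = 0 := by
        by_contra hx
        have h4 : x ^ 2 + ((a * D : ℤ) : ℚ) * x + ((b * D ^ 2 : ℤ) : ℚ) = 0 := by
          have h5 : x * (x ^ 2 + ((a * D : ℤ) : ℚ) * x + ((b * D ^ 2 : ℤ) : ℚ)) = 0 := by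
            linear_combination -h3
          exact (mul_eq_zero.1 h5).resolve_left hx
        push_cast at h4
        apply hD
        rw [← Rat.isSquare_intCast_iff]
        refine ⟨(2 * x + a * D) / D, ?_⟩
        push_cast
        field_simp
        linear_combination (-4 : ℚ) * h4
      subst hx
      exact ⟨h, rfl⟩
  classical
  obtain ⟨j, hj, hmin⟩ : ∃ j : ℕ, (2 ^ j) • P = 0 ∧ ∀ i < j, (2 ^ i) • P ≠ 0 :=
    ⟨Nat.find hex, Nat.find_spec hex, fun i hi => Nat.find_min hex hi⟩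
  have hj0 : j ≠ 0 := by
    rintro rfl
    rw [pow_zero, one_nsmul] at hj
    exact hP0 hj
  obtain ⟨i, rfl⟩ := Nat.exists_eq_succ_of_ne_zero hj0
  have hdbl : ∀ j : ℕ, (2 ^ (j + 1)) • P = (2 ^ j) • P + (2 ^ j) • P := fun j => by
    have e : 2 ^ (j + 1) = 2 ^ j + 2 ^ j := by ring
    rw [e, add_nsmul]
  have hi := hmin i (Nat.lt_succ_self i)
  have hj' : (2 ^ i) • P + (2 ^ i) • P = 0 := by rw [← hdbl]; exact hj
  obtain ⟨h0, h2⟩ := h1 _ hi hj'
  rcases Nat.eq_zero_or_pos i with hi0 | hi0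
  · subst hi0
    rw [pow_zero, one_nsmul] at h2
    exact ⟨h0, h2⟩
  · exfalso
    obtain ⟨k, rfl⟩ := Nat.exists_eq_succ_of_ne_zero hi0.ne'
    have hk : (2 ^ k) • P + (2 ^ k) • P ≠ 0 := by
      rw [← hdbl]
      exact hi
    have h2' : (2 ^ k) • P + (2 ^ k) • P = Point.some 0 0 h0 := by
      rw [← hdbl]
      exact h2
    have hk0 := hmin k (by omega)
    generalize (2 ^ k) • P = Q at hk h2' hk0
    match Q, hk, h2', hk0 with
    | .zero, _, _, h4 => exact absurd rfl h4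
    | .some x y h, hk, h2', _ =>
      obtain ⟨-, x', y', h', e, hx'⟩ := dbl h hk
      rw [e] at h2'
      have hx0 : x' = 0 := by
        injection h2'
      rw [hx0, zero_mul] at hx'
      have h5 : x ^ 2 = ((b * D ^ 2 : ℤ) : ℚ) := by
        have := pow_eq_zero_iff two_ne_zero |>.1 hx'.symm
        linear_combination this
      apply hb
      rw [← Rat.isSquare_intCast_iff]
      refine ⟨x / D, ?_⟩
      push_cast at h5
      field_simp
      linear_combination -h5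

end Run7.h268.U.Tor
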