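import Pool.Agent.Run7.h268.FN.Glw

/-!
# The law of the symbols of products of primes with prescribed types
-/

set_option autoImplicit false

open scoped Classical

namespace Run7.h268.U

open Finset Filter Topology
open Pool.Agent.Y703.CQ (nr prs)
open Pool.Agent.V11291.FK (Dn PG QG qg_of exists_tupleG)
open Run7.h268.FN

/-- `D` is the product of `n` different primes `p i` in `S`, related to the `r i` -/
def PrdE (S : Set ℕ) (E : ℕ → ℕ → Prop) {n : ℕ} (r : Fin n → ℕ) (D : ℕ) : Prop :=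
  ∃ p : Fin n → ℕ, Function.Injective p ∧ (∀ i, (p i).Prime ∧ p i ∈ S ∧ E (p i) (r i)) ∧
    D = ∏ i, p i

/-- a representative of the kind -/
noncomputable def kd (E : ℕ → ℕ → Prop) (x : ℕ) : ℕ := sInf {y | E x y}

theorem kd_eq {E : ℕ → ℕ → Prop} (hE : Equivalence E) {x y : ℕ} : kd E x = kd E y ↔ E x y := by
  have key : ∀ z, E z (kd E z) := fun z => Nat.sInf_mem (s := {y | E z y}) ⟨z, hE.refl z⟩
  constructor
  · intro h
    have h1 := key x
    rw [h] at h1
    exact hE.trans h1 (hE.symm (key y))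
  · intro h
    unfold kd
    congr 1
    ext z
    exact ⟨fun h1 => hE.trans (hE.symm h) h1, fun h1 => hE.trans h h1⟩

theorem prdE_iff {S : Set ℕ} {E : ℕ → ℕ → Prop} (hE : Equivalence E) {n : ℕ} {r : Fin n → ℕ}
    (h2 : ∀ i x, x.Prime → E x (r i) → x ≠ 2) {D : ℕ} :
    PrdE S E r D ↔ FamN (PrS S) (kd E) (fun i => kd E (r i)) D := by
  constructor
  · rintro ⟨p, hp, h, rfl⟩
    have hprod : ∏ i, p i = ∏ x ∈ univ.image p, x := by
      rw [Finset.prod_image fun a _ b _ h => hp h]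
    have hpf : (∏ i, p i).primeFactors = univ.image p := by
      rw [hprod]
      refine Nat.primeFactors_prod fun x hx => ?_
      rw [mem_image] at hx
      obtain ⟨i, -, rfl⟩ := hx
      exact (h i).1
    refine ⟨?_, ?_, ?_⟩
    · rw [hprod]
      refine Finset.squarefree_prod_of_pairwise_isCoprime (fun x hx y hy hxy => ?_)
        fun x hx => ?_
      · rw [mem_coe, mem_image] at hx hy
        obtain ⟨i, -, rfl⟩ := hx
        obtain ⟨j, -, rfl⟩ := hy
        exact Nat.coprime_iff_isRelPrime.1 ((Nat.coprime_primes (h i).1 (h j).1).2 hxy)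
      · rw [mem_image] at hx
        obtain ⟨i, -, rfl⟩ := hx
        exact (h i).1.squarefree
    · intro x hx
      rw [hpf, mem_image] at hx
      obtain ⟨i, -, rfl⟩ := hx
      exact ⟨(h i).1, h2 i _ (h i).1 (h i).2.2, (h i).2.1⟩
    · rw [hpf]
      exact qg_of (B := fun _ => True) (cl := kd E)
        (fun i => ⟨trivial, (kd_eq hE).2 (h i).2.2⟩) hp
  · rintro ⟨h1, h2, h3⟩
    obtain ⟨p, hp, hinj, himg⟩ := exists_tupleG h2 h3
    refine ⟨p, hinj, fun i => ⟨(hp i).1.1, (hp i).1.2.2, (kd_eq hE).1 (hp i).2⟩, ?_⟩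
    rw [← Nat.prod_primeFactors_of_squarefree h1, ← himg,
      Finset.prod_image fun a _ b _ h => hinj h]

/-- **The law of the symbols of the products of primes of given types.** -/
theorem law_prdE {S : Set ℕ} {E : ℕ → ℕ → Prop} (hE : Equivalence E) {n : ℕ} {r : Fin n → ℕ}
    {e : Fin n → ZMod 2} {W : Finset ℕ → Prop} {Φ : (Fin n → Fin n → ZMod 2) → Prop}
    (h2 : ∀ i x, x.Prime → E x (r i) → x ≠ 2 ∧ e4 x = e i) (hn : 1 ≤ n)
    (hD : ∀ i, Dn fun p => p.Prime ∧ p ∈ S ∧ E p (r i))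
    (hW : ∀ p : Fin n → ℕ, Function.Injective p →
      (∀ i, (p i).Prime ∧ p i ∈ S ∧ E (p i) (r i)) →
      (W (univ.image p) ↔ Φ fun k l => nr (p k) (p l))) :
    (∃ (a C : ℝ) (X₀ : ℕ), 0 < a ∧ 0 < C ∧ ∀ X : ℕ, X₀ ≤ X →
      a * (X * Real.log (Real.log X) ^ (n - 1) / Real.log X) ≤ (cnt (PrdE S E r) X : ℝ) ∧
      (cnt (PrdE S E r) X : ℝ) ≤ C * (X * Real.log (Real.log X) ^ (n - 1) / Real.log X)) ∧
    Tendsto (fun X : ℕ => (cnt (fun D => PrdE S E r D ∧ W D.primeFactors) X : ℝ) /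
      (cnt (PrdE S E r) X : ℝ)) atTop (𝓝 (frc fun α => Φ (ex e α))) := by
  have eF : PrdE S E r = FamN (PrS S) (kd E) fun i => kd E (r i) :=
    funext fun D => propext (prdE_iff hE fun i x hx h => (h2 i x hx h).1)
  have hA : AdmG (PrS S) (kd E) (fun i => kd E (r i)) e :=
    ⟨fun p h => h.1, fun p h => h.2.1, fun i p hp h => (h2 i p hp.1 ((kd_eq hE).1 h)).2⟩
  have hD' : ∀ i, Dn (PG (PrS S) (kd E) (fun i => kd E (r i)) i) := by
    intro i
    obtain ⟨δ, Y₀, hδ, h⟩ := hD i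
    refine ⟨δ, Y₀, hδ, fun Y hY => (h Y hY).trans ?_⟩
    refine Nat.cast_le.2 (Finset.card_le_card fun p hp => ?_)
    simp only [mem_filter] at hp ⊢
    exact ⟨hp.1, ⟨hp.2.1, (h2 i p hp.2.1 hp.2.2.2).1, hp.2.2.1⟩, (kd_eq hE).2 hp.2.2.2⟩
  have hS : Sym (PrS S) (kd E) (fun i => kd E (r i)) W Φ := fun p hp h =>
    hW p hp fun i => ⟨(h i).1.1, (h i).1.2.2, (kd_eq hE).1 (h i).2⟩
  rw [eF]
  unfold cnt
  constructor
  · obtain ⟨a, C, X₀, ha, hC, hs⟩ := num_size_sym hA ⟨0, hn⟩ hD'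
    refine ⟨a, C, X₀, ha, hC, fun X hX => ?_⟩
    have h2 := hs X hX
    rw [Fintype.card_fin] at h2
    rw [card_Icc]
    exact h2
  · refine (num_law_sym hA ⟨0, hn⟩ hS hD').congr fun X => ?_
    rw [card_Icc, card_Icc]
    congr!

/-- the number of pairs -/
theorem card_prs (n : ℕ) : (prs (univ : Finset (Fin n))).card = n * (n - 1) / 2 := by
  have h1 : prs (univ : Finset (Fin n)) = univ.filter fun x : Fin n × Fin n => x.1 < x.2 := by
    unfold prs
    refine Finset.filter_congr fun x _ => ?_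
    exact ⟨fun h => h.2.2 (mem_univ _), fun h => ⟨mem_univ _, h.ne', fun _ => h⟩⟩
  rw [h1, Finset.card_filter, Fintype.sum_prod_type_right]
  have h2 : ∀ y : Fin n, (∑ x : Fin n, if (x, y).1 < (x, y).2 then 1 else 0) = (y : ℕ) := by
    intro y
    rw [← Finset.card_filter]
    have h3 : (univ.filter fun x : Fin n => x < y) = Finset.Iio y := by
      ext x
      simp
    simp only
    rw [h3, Fin.card_Iio]
  rw [Finset.sum_congr rfl fun y _ => h2 y, Fin.sum_univ_eq_sum_range (fun i => i) n,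
    Finset.sum_range_id]

/-- **The law, in terms of a number of systems of symbols.** -/
theorem law_cnt {E : ℕ → ℕ → Prop} (hE : Equivalence E) {n : ℕ} {r : Fin n → ℕ}
    {e : Fin n → ZMod 2} (h2 : ∀ i x, x.Prime → E x (r i) → x ≠ 2 ∧ e4 x = e i) (hn : 1 ≤ n)
    (hr : Function.Injective r) (hrp : ∀ i, (r i).Prime) {V : Type} {w : ℕ → V}
    (hw : ∀ p p' : Fin n → ℕ, Function.Injective p → Function.Injective p' →
      (∀ i, (p i).Prime ∧ E (p i) (r i)) → (∀ i, (p' i).Prime ∧ E (p' i) (r i)) →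
      (∀ k l, nr (p k) (p l) = nr (p' k) (p' l)) → w (∏ i, p i) = w (∏ i, p' i)) :
    ∃ N : (V → Prop) → ℕ, (∀ P, P (w (∏ i, r i)) → 1 ≤ N P) ∧
      (∀ P, N P ≤ 2 ^ (n * (n - 1) / 2)) ∧
      ∀ S : Set ℕ, (∀ i, Dn fun p => p.Prime ∧ p ∈ S ∧ E p (r i)) →
        (∃ (a C : ℝ) (X₀ : ℕ), 0 < a ∧ 0 < C ∧ ∀ X : ℕ, X₀ ≤ X →
          a * (X * Real.log (Real.log X) ^ (n - 1) / Real.log X) ≤ (cnt (PrdE S E r) X : ℝ) ∧
          (cnt (PrdE S E r) X : ℝ) ≤ C * (X * Real.log (Real.log X) ^ (n - 1) / Real.log X)) ∧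
        ∀ P : V → Prop, Tendsto (fun X : ℕ => (cnt (fun D => PrdE S E r D ∧ P (w D)) X : ℝ) /
          (cnt (PrdE S E r) X : ℝ)) atTop (𝓝 ((N P : ℝ) / 2 ^ (n * (n - 1) / 2))) := by
  obtain ⟨Φ, hΦ⟩ : ∃ Φ : (V → Prop) → (Fin n → Fin n → ZMod 2) → Prop, Φ = fun P R =>
    ∃ p : Fin n → ℕ, Function.Injective p ∧ (∀ i, (p i).Prime ∧ E (p i) (r i)) ∧
      (∀ k l, nr (p k) (p l) = R k l) ∧ P (w (∏ i, p i)) := ⟨_, rfl⟩
  have hfrc : ∀ P, frc (fun α => Φ P (ex e α)) =
      ((univ.filter fun α : prs (univ : Finset (Fin n)) → ZMod 2 => Φ P (ex e α)).card : ℝ) /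
        2 ^ (n * (n - 1) / 2) := by
    intro P
    unfold frc
    rw [card_prs]
  refine ⟨fun P => (univ.filter fun α : prs (univ : Finset (Fin n)) → ZMod 2 =>
    Φ P (ex e α)).card, fun P hP => ?_, fun P => ?_, fun S hD => ⟨?_, fun P => ?_⟩⟩
  · refine Finset.card_pos.2 ⟨fun x => nr (r x.1.1) (r x.1.2), ?_⟩
    rw [mem_filter]
    refine ⟨mem_univ _, ?_⟩
    rw [hΦ]
    refine ⟨r, hr, fun i => ⟨hrp i, hE.refl _⟩, fun k l => ?_, hP⟩
    exact (nr_ex hr (fun i => ⟨hrp i, (h2 i _ (hrp i) (hE.refl _)).1⟩)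
      (fun i => (h2 i _ (hrp i) (hE.refl _)).2) k l).symm
  · have h := Finset.card_le_univ
      (univ.filter fun α : prs (univ : Finset (Fin n)) → ZMod 2 => Φ P (ex e α))
    rw [Fintype.card_fun, ZMod.card, Fintype.card_coe, card_prs] at h
    exact h
  · exact (law_prdE (S := S) (W := fun _ => True) (Φ := fun _ => True) hE h2 hn hD
      fun _ _ _ => Iff.rfl).1
  · rw [← hfrc P]
    have h1 := (law_prdE (S := S) (W := fun Q => P (w (∏ x ∈ Q, x))) (Φ := Φ P) hE h2 hn hD ?_).2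
    · refine h1.congr fun X => ?_
      have h3 : cnt (fun D => PrdE S E r D ∧ P (w (∏ x ∈ D.primeFactors, x))) =
          cnt (fun D => PrdE S E r D ∧ P (w D)) := by
        congr 1
        funext D
        refine propext (and_congr_right fun hDD => ?_)
        obtain ⟨p, hp, h, rfl⟩ := hDD
        have hprod : ∏ i, p i = ∏ x ∈ univ.image p, x := by
          rw [Finset.prod_image fun a _ b _ h => hp h]
        have hpf : (∏ i, p i).primeFactors = univ.image p := by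
          rw [hprod]
          refine Nat.primeFactors_prod fun x hx => ?_
          rw [mem_image] at hx
          obtain ⟨i, -, rfl⟩ := hx
          exact (h i).1
        rw [hpf, ← hprod]
      rw [h3]
    · intro p hp h
      rw [Finset.prod_image fun a _ b _ h => hp h, hΦ]
      constructor
      · intro h3
        exact ⟨p, hp, fun i => ⟨(h i).1, (h i).2.2⟩, fun _ _ => rfl, h3⟩
      · rintro ⟨p', hp', h4, h5, h6⟩
        rw [hw p p' hp hp' (fun i => ⟨(h i).1, (h i).2.2⟩) h4 fun k l => (h5 k l).symm]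
        exact h6

end Run7.h268.U
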