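import Pool.Agent.Run7.h268.U.Tr

/-!
# When the type of a prime is determined by its residue class
-/

set_option autoImplicit false

namespace Run7.h268.U

variable {A B : ℤ} {q p p' : ℕ}

/-- the roots are units -/
theorem root_nd (hB : ¬ (p : ℤ) ∣ B) {a : ℤ} (ha : (p : ℤ) ∣ a ^ 2 + A * a + B) : ¬ (p : ℤ) ∣ a := by
  intro h3
  refine hB ?_
  have e : B = (a ^ 2 + A * a + B) - a * (a + A) := by ring
  rw [e]
  exact dvd_sub ha (h3.mul_right _)

theorem isSq_dvd {x : ℤ} : IsSquare (x : ZMod p) ↔ ∃ s : ℤ, (p : ℤ) ∣ s ^ 2 - x := by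
  constructor
  · rintro ⟨s, hs⟩
    obtain ⟨s', rfl⟩ := ZMod.intCast_surjective s
    refine ⟨s', ?_⟩
    rw [← ZMod.intCast_zmod_eq_zero_iff_dvd]
    push_cast
    rw [hs]
    ring
  · rintro ⟨s, hs⟩
    rw [← ZMod.intCast_zmod_eq_zero_iff_dvd] at hs
    push_cast at hs
    exact ⟨s, by linear_combination -hs⟩

/-- there is a root if and only if the discriminant is a square -/
theorem root_iff (hp : p.Prime) (h2 : p ≠ 2) :
    (∃ a : ℤ, (p : ℤ) ∣ a ^ 2 + A * a + B) ↔ IsSquare ((A ^ 2 - 4 * B : ℤ) : ZMod p) := by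
  rw [isSq_dvd]
  constructor
  · rintro ⟨a, ha⟩
    refine ⟨2 * a + A, ?_⟩
    have e : (2 * a + A) ^ 2 - (A ^ 2 - 4 * B) = 4 * (a ^ 2 + A * a + B) := by ring
    rw [e]
    exact ha.mul_left _
  · rintro ⟨s, hs⟩
    have hodd : p % 2 = 1 := hp.eq_two_or_odd.resolve_left h2
    -- choose `t` with the parity of `A`
    obtain ⟨t, ht, htA⟩ : ∃ t : ℤ, (p : ℤ) ∣ t ^ 2 - (A ^ 2 - 4 * B) ∧ (t - A) % 2 = 0 := by
      by_cases h : (s - A) % 2 = 0
      · exact ⟨s, hs, h⟩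
      · refine ⟨s + p, ?_, by omega⟩
        have e : (s + p) ^ 2 - (A ^ 2 - 4 * B) = (s ^ 2 - (A ^ 2 - 4 * B)) + p * (2 * s + p) := by ring
        rw [e]
        exact dvd_add hs (dvd_mul_right _ _)
    obtain ⟨a, ha⟩ : ∃ a : ℤ, t = 2 * a + A := ⟨(t - A) / 2, by omega⟩
    refine ⟨a, ?_⟩
    have e : t ^ 2 - (A ^ 2 - 4 * B) = 4 * (a ^ 2 + A * a + B) := by rw [ha]; ring
    rw [e] at ht
    rcases Int.Prime.dvd_mul' hp ht with h | h
    · exfalso
      have h3 : (p : ℤ) ∣ 2 := by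
        have h4 : (p : ℤ) ∣ 2 ^ 2 := by
          have e2 : (2 : ℤ) ^ 2 = 4 := by norm_num
          rw [e2]
          exact h
        exact Int.Prime.dvd_pow' hp h4
      have h4 : p ∣ 2 := by exact_mod_cast h3
      exact h2 ((Nat.prime_dvd_prime_iff_eq hp Nat.prime_two).1 h4)
    · exact h

/-- no roots -/
theorem no_root (hp : p.Prime) (h2 : p ≠ 2) (h : ¬ IsSquare ((A ^ 2 - 4 * B : ℤ) : ZMod p)) :
    ¬ SqRoot A B p ∧ ¬ NsRoot A B p := by
  rw [← root_iff hp h2] at h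
  exact ⟨fun ⟨a, h1, _⟩ => h ⟨a, h1⟩, fun ⟨a, h1, _⟩ => h ⟨a, h1⟩⟩

/-- a square root and a nonsquare one -/
theorem both_roots (hp : p.Prime) (h2 : p ≠ 2) (hB : ¬ (p : ℤ) ∣ B)
    (h : IsSquare ((A ^ 2 - 4 * B : ℤ) : ZMod p)) (hn : ¬ IsSquare (B : ZMod p)) :
    SqRoot A B p ∧ NsRoot A B p := by
  rw [← root_iff hp h2] at h
  obtain ⟨a, ha⟩ := h
  -- the other root
  have hb : (p : ℤ) ∣ (-A - a) ^ 2 + A * (-A - a) + B := by
    have e : (-A - a) ^ 2 + A * (-A - a) + B = a ^ 2 + A * a + B := by ring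
    rw [e]
    exact ha
  have hna := root_nd hB ha
  have hnb := root_nd hB hb
  have hprod : ((a * (-A - a) : ℤ) : ZMod p) = (B : ZMod p) := by
    rw [← sub_eq_zero, ← Int.cast_sub, ZMod.intCast_zmod_eq_zero_iff_dvd]
    have e : a * (-A - a) - B = -(a ^ 2 + A * a + B) := by ring
    rw [e]
    exact ha.neg_right
  have hjs : jacobiSym a p * jacobiSym (-A - a) p = -1 := by
    rw [← jacobiSym.mul_left, ← js_ns hp, hprod]
    exact hn
  rcases js_pm hp hna with h1 | h1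
  · rw [h1, one_mul] at hjs
    exact ⟨⟨a, ha, (js_sq hp hna).2 h1⟩, ⟨_, hb, (js_ns hp).2 hjs⟩⟩
  · rw [h1, neg_one_mul, neg_inj] at hjs
    exact ⟨⟨_, hb, (js_sq hp hnb).2 hjs⟩, ⟨a, ha, (js_ns hp).2 h1⟩⟩

/-- the conditions of the modulus for both curves -/
structure Good (A B : ℤ) (q : ℕ) (p p' : ℕ) : Prop where
  ne : B ≠ 0
  ne' : A ^ 2 - 4 * B ≠ 0
  dq : 8 * B * (A ^ 2 - 4 * B) ∣ (q : ℤ)
  prime : p.Prime
  prime' : p'.Prime
  nd : ¬ p ∣ q
  nd' : ¬ p' ∣ q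
  mod : p % q = p' % q

theorem Good.symm (h : Good A B q p p') : Good A B q p' p :=
  ⟨h.ne, h.ne', h.dq, h.prime', h.prime, h.nd', h.nd, h.mod.symm⟩

theorem Good.two (h : Good A B q p p') : p ≠ 2 := fun h1 => h.nd (by
  rw [h1]
  have h3 : (2 : ℤ) ∣ 8 * B * (A ^ 2 - 4 * B) := ⟨4 * B * (A ^ 2 - 4 * B), by ring⟩
  exact_mod_cast h3.trans h.dq)

theorem Good.odd (h : Good A B q p p') : p % 2 = 1 := h.prime.eq_two_or_odd.resolve_left h.two

theorem Good.ndB (h : Good A B q p p') : ¬ (p : ℤ) ∣ B := fun h1 => h.nd (by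
  have h3 : (p : ℤ) ∣ q := ((h1.mul_left 8).mul_right _).trans h.dq
  exact_mod_cast h3)

theorem Good.ndD (h : Good A B q p p') : ¬ (p : ℤ) ∣ A ^ 2 - 4 * B := fun h1 => h.nd (by
  have h3 : (p : ℤ) ∣ q := (h1.mul_left _).trans h.dq
  exact_mod_cast h3)

theorem Good.js (h : Good A B q p p') {c : ℤ} (hc : c ∣ B ∨ c ∣ A ^ 2 - 4 * B) :
    jacobiSym c p = jacobiSym c p' := by
  refine js_class ?_ h.mod h.odd h.symm.odd
  refine dvd_trans ?_ h.dq
  rcases hc with ⟨k, hk⟩ | ⟨k, hk⟩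
  · exact ⟨2 * k * (A ^ 2 - 4 * B), by rw [hk]; ring⟩
  · exact ⟨2 * B * k, by
      calc 8 * B * (A ^ 2 - 4 * B) = 8 * B * (c * k) := by rw [hk]
        _ = _ := by ring⟩

theorem Good.sqB (h : Good A B q p p') : IsSquare (B : ZMod p) ↔ IsSquare (B : ZMod p') := by
  rw [js_sq h.prime h.ndB, js_sq h.prime' h.symm.ndB, h.js (Or.inl dvd_rfl)]

theorem Good.sqD (h : Good A B q p p') : IsSquare ((A ^ 2 - 4 * B : ℤ) : ZMod p) ↔
    IsSquare ((A ^ 2 - 4 * B : ℤ) : ZMod p') := by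
  rw [js_sq h.prime h.ndD, js_sq h.prime' h.symm.ndD, h.js (Or.inr dvd_rfl)]

theorem isSq_four (hp : p.Prime) (h2 : p ≠ 2) {x : ℤ} :
    IsSquare ((2 ^ 4 * x : ℤ) : ZMod p) ↔ IsSquare (x : ZMod p) := by
  have : Fact p.Prime := ⟨hp⟩
  have h4 : ((4 : ℤ) : ZMod p) ≠ 0 := by
    intro h
    rw [ZMod.intCast_zmod_eq_zero_iff_dvd] at h
    have h4 : (p : ℤ) ∣ 2 ^ 2 := by
      have e2 : (2 : ℤ) ^ 2 = 4 := by norm_num
      rw [e2]
      exact h
    have h3 : p ∣ 2 := by exact_mod_cast (Int.Prime.dvd_pow' hp h4)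
    exact h2 ((Nat.prime_dvd_prime_iff_eq hp Nat.prime_two).1 h3)
  have e : ((2 ^ 4 * x : ℤ) : ZMod p) = (x : ZMod p) * ((4 : ℤ) : ZMod p) ^ 2 := by
    push_cast
    ring
  rw [e, isSquare_mul_sq h4]

theorem dual_disc : (-2 * A) ^ 2 - 4 * (A ^ 2 - 4 * B) = 2 ^ 4 * B := by ring

/-- all four properties of the types -/
structure TyEq (A B : ℤ) (p p' : ℕ) : Prop where
  s1 : SqRoot A B p ↔ SqRoot A B p'
  n1 : NsRoot A B p ↔ NsRoot A B p'
  s2 : SqRoot (-2 * A) (A ^ 2 - 4 * B) p ↔ SqRoot (-2 * A) (A ^ 2 - 4 * B) p'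
  n2 : NsRoot (-2 * A) (A ^ 2 - 4 * B) p ↔ NsRoot (-2 * A) (A ^ 2 - 4 * B) p'

theorem iff_of_both {P Q : Prop} (h : P) (h' : Q) : P ↔ Q := ⟨fun _ => h', fun _ => h⟩

theorem iff_of_neither {P Q : Prop} (h : ¬ P) (h' : ¬ Q) : P ↔ Q :=
  ⟨fun x => absurd x h, fun x => absurd x h'⟩

/-- the discriminant is not a square -/
theorem ty_D (h : Good A B q p p') (hn : ¬ IsSquare ((A ^ 2 - 4 * B : ℤ) : ZMod p)) :
    TyEq A B p p' := by
  have hn' : ¬ IsSquare ((A ^ 2 - 4 * B : ℤ) : ZMod p') := fun h1 => hn (h.sqD.2 h1)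
  have a1 := no_root h.prime h.two hn
  have a2 := no_root h.prime' h.symm.two hn'
  by_cases hb : IsSquare (B : ZMod p)
  · have hb' := h.sqB.1 hb
    have b1 := both_roots (A := -2 * A) (B := A ^ 2 - 4 * B) h.prime h.two h.ndD (by
      rw [dual_disc, isSq_four h.prime h.two]; exact hb) hn
    have b2 := both_roots (A := -2 * A) (B := A ^ 2 - 4 * B) h.prime' h.symm.two h.symm.ndD (by
      rw [dual_disc, isSq_four h.prime' h.symm.two]; exact hb') hn'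
    exact ⟨iff_of_neither a1.1 a2.1, iff_of_neither a1.2 a2.2, iff_of_both b1.1 b2.1,
      iff_of_both b1.2 b2.2⟩
  · have hb' : ¬ IsSquare (B : ZMod p') := fun h1 => hb (h.sqB.2 h1)
    have b1 := no_root (A := -2 * A) (B := A ^ 2 - 4 * B) h.prime h.two (by
      rw [dual_disc, isSq_four h.prime h.two]; exact hb)
    have b2 := no_root (A := -2 * A) (B := A ^ 2 - 4 * B) h.prime' h.symm.two (by
      rw [dual_disc, isSq_four h.prime' h.symm.two]; exact hb')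
    exact ⟨iff_of_neither a1.1 a2.1, iff_of_neither a1.2 a2.2, iff_of_neither b1.1 b2.1,
      iff_of_neither b1.2 b2.2⟩

/-- the second coefficient is not a square -/
theorem ty_B (h : Good A B q p p') (hn : ¬ IsSquare (B : ZMod p)) : TyEq A B p p' := by
  by_cases hD : IsSquare ((A ^ 2 - 4 * B : ℤ) : ZMod p)
  · have hn' : ¬ IsSquare (B : ZMod p') := fun h1 => hn (h.sqB.2 h1)
    have hD' := h.sqD.1 hD
    have a1 := both_roots h.prime h.two h.ndB hD hn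
    have a2 := both_roots h.prime' h.symm.two h.symm.ndB hD' hn'
    have b1 := no_root (A := -2 * A) (B := A ^ 2 - 4 * B) h.prime h.two (by
      rw [dual_disc, isSq_four h.prime h.two]; exact hn)
    have b2 := no_root (A := -2 * A) (B := A ^ 2 - 4 * B) h.prime' h.symm.two (by
      rw [dual_disc, isSq_four h.prime' h.symm.two]; exact hn')
    exact ⟨iff_of_both a1.1 a2.1, iff_of_both a1.2 a2.2, iff_of_neither b1.1 b2.1,
      iff_of_neither b1.2 b2.2⟩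
  · exact ty_D h hD

/-- the roots in the case of a factorization -/
theorem roots_fac (hp : p.Prime) {u v : ℤ} (hA : A = -(u + v)) (hB : B = u * v) {a : ℤ}
    (ha : (p : ℤ) ∣ a ^ 2 + A * a + B) : (a : ZMod p) = (u : ZMod p) ∨ (a : ZMod p) = (v : ZMod p) := by
  have e : a ^ 2 + A * a + B = (a - u) * (a - v) := by rw [hA, hB]; ring
  rw [e] at ha
  rcases Int.Prime.dvd_mul' hp ha with h | h
  · left
    rw [← sub_eq_zero, ← Int.cast_sub, ZMod.intCast_zmod_eq_zero_iff_dvd]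
    exact h
  · right
    rw [← sub_eq_zero, ← Int.cast_sub, ZMod.intCast_zmod_eq_zero_iff_dvd]
    exact h

theorem sqRoot_fac (hp : p.Prime) {u v : ℤ} (hA : A = -(u + v)) (hB : B = u * v) :
    SqRoot A B p ↔ IsSquare (u : ZMod p) ∨ IsSquare (v : ZMod p) := by
  constructor
  · rintro ⟨a, ha, hs⟩
    rcases roots_fac hp hA hB ha with h | h
    · rw [h] at hs
      exact Or.inl hs
    · rw [h] at hs
      exact Or.inr hs
  · rintro (h | h)
    · exact ⟨u, by rw [hA, hB]; exact ⟨0, by ring⟩, h⟩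
    · exact ⟨v, by rw [hA, hB]; exact ⟨0, by ring⟩, h⟩

theorem nsRoot_fac (hp : p.Prime) {u v : ℤ} (hA : A = -(u + v)) (hB : B = u * v) :
    NsRoot A B p ↔ ¬ IsSquare (u : ZMod p) ∨ ¬ IsSquare (v : ZMod p) := by
  constructor
  · rintro ⟨a, ha, hs⟩
    rcases roots_fac hp hA hB ha with h | h
    · rw [h] at hs
      exact Or.inl hs
    · rw [h] at hs
      exact Or.inr hs
  · rintro (h | h)
    · exact ⟨u, by rw [hA, hB]; exact ⟨0, by ring⟩, h⟩
    · exact ⟨v, by rw [hA, hB]; exact ⟨0, by ring⟩, h⟩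

/-- the characters of the roots when the second coefficient is a square and the other curve
has all its points of order two: `x (-v)` is a square for every root `x` -/
theorem root_char (hp : p.Prime) {g a : ℤ} (hg : (p : ℤ) ∣ g ^ 2 - B)
    (hBp : ¬ (p : ℤ) ∣ B) (hD : ¬ (p : ℤ) ∣ A ^ 2 - 4 * B) (ha : (p : ℤ) ∣ a ^ 2 + A * a + B) :
    IsSquare (a : ZMod p) ↔ IsSquare ((-(A - 2 * g) : ℤ) : ZMod p) := by
  have : Fact p.Prime := ⟨hp⟩
  have hna := root_nd hBp ha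
  -- `a (2 g - A) = (a + g)²`
  have key : ((a * (-(A - 2 * g)) : ℤ) : ZMod p) = ((a + g : ℤ) : ZMod p) ^ 2 := by
    rw [← Int.cast_pow, ← sub_eq_zero, ← Int.cast_sub, ZMod.intCast_zmod_eq_zero_iff_dvd]
    have e : a * (-(A - 2 * g)) - (a + g) ^ 2 = -(a ^ 2 + A * a + B) - (g ^ 2 - B) := by ring
    rw [e]
    exact dvd_sub ha.neg_right hg
  have hv : ¬ (p : ℤ) ∣ -(A - 2 * g) := by
    intro h
    refine hD ?_
    have e : A ^ 2 - 4 * B = -(A - 2 * g) * (-(A + 2 * g)) + 4 * (g ^ 2 - B) := by ring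
    rw [e]
    exact dvd_add (h.mul_right _) (hg.mul_left _)
  have h1 : jacobiSym a p * jacobiSym (-(A - 2 * g)) p = 1 := by
    rw [← jacobiSym.mul_left, ← js_sq hp (nd_mul hp hna hv), key]
    exact ⟨_, pow_two _⟩
  rw [js_sq hp hna, js_sq hp hv]
  constructor
  · intro h
    rw [h, one_mul] at h1
    exact h1
  · intro h
    rw [h, mul_one] at h1
    exact h1

theorem sq_char (hp : p.Prime) (h2 : p ≠ 2) {g : ℤ} (hg : (p : ℤ) ∣ g ^ 2 - B)
    (hBp : ¬ (p : ℤ) ∣ B) (hD : ¬ (p : ℤ) ∣ A ^ 2 - 4 * B) :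
    (SqRoot A B p ↔ IsSquare ((A ^ 2 - 4 * B : ℤ) : ZMod p) ∧
      IsSquare ((-(A - 2 * g) : ℤ) : ZMod p)) ∧
    (NsRoot A B p ↔ IsSquare ((A ^ 2 - 4 * B : ℤ) : ZMod p) ∧
      ¬ IsSquare ((-(A - 2 * g) : ℤ) : ZMod p)) := by
  rw [← root_iff hp h2]
  refine ⟨⟨?_, ?_⟩, ⟨?_, ?_⟩⟩
  · rintro ⟨a, ha, hs⟩
    exact ⟨⟨a, ha⟩, (root_char hp hg hBp hD ha).1 hs⟩
  · rintro ⟨⟨a, ha⟩, hs⟩
    exact ⟨a, ha, (root_char hp hg hBp hD ha).2 hs⟩
  · rintro ⟨a, ha, hs⟩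
    exact ⟨⟨a, ha⟩, fun h => hs ((root_char hp hg hBp hD ha).2 h)⟩
  · rintro ⟨⟨a, ha⟩, hs⟩
    exact ⟨a, ha, fun h => hs ((root_char hp hg hBp hD ha).1 h)⟩

theorem Good.sqc (h : Good A B q p p') {c : ℤ} (hc : c ∣ B ∨ c ∣ A ^ 2 - 4 * B) :
    IsSquare (c : ZMod p) ↔ IsSquare (c : ZMod p') := by
  have h1 : ¬ (p : ℤ) ∣ c := fun h1 => hc.elim (fun h2 => h.ndB (h1.trans h2)) fun h2 =>
    h.ndD (h1.trans h2)
  have h2 : ¬ (p' : ℤ) ∣ c := fun h1 => hc.elim (fun h2 => h.symm.ndB (h1.trans h2)) fun h2 =>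
    h.symm.ndD (h1.trans h2)
  rw [js_sq h.prime h1, js_sq h.prime' h2, h.js hc]

theorem isSq_two (hp : p.Prime) (h2 : p ≠ 2) {x : ℤ} :
    IsSquare ((2 ^ 2 * x : ℤ) : ZMod p) ↔ IsSquare (x : ZMod p) := by
  have : Fact p.Prime := ⟨hp⟩
  have h4 : ((2 : ℤ) : ZMod p) ≠ 0 := by
    intro h
    rw [ZMod.intCast_zmod_eq_zero_iff_dvd] at h
    have h3 : p ∣ 2 := by exact_mod_cast h
    exact h2 ((Nat.prime_dvd_prime_iff_eq hp Nat.prime_two).1 h3)
  have e : ((2 ^ 2 * x : ℤ) : ZMod p) = (x : ZMod p) * ((2 : ℤ) : ZMod p) ^ 2 := by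
    push_cast
    ring
  rw [e, isSquare_mul_sq h4]

/-- full two-torsion -/
theorem ty_full (h : Good A B q p p') {g : ℤ} (hg : A ^ 2 - 4 * B = g ^ 2) : TyEq A B p p' := by
  obtain ⟨u, hu⟩ : ∃ u : ℤ, g - A = 2 * u := by
    have h1 : (g - A) % 2 = 0 := by
      have h3 : (g ^ 2 - A ^ 2) % 2 = 0 := by
        rw [← hg]
        have e : A ^ 2 - 4 * B - A ^ 2 = 2 * (-2 * B) := by ring
        rw [e, Int.mul_emod_right]
      have e : g ^ 2 - A ^ 2 = (g - A) * (g - A) + 2 * ((g - A) * A) := by ring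
      rw [e] at h3
      have h4 : ((g - A) * (g - A)) % 2 = 0 := by omega
      rcases Int.emod_two_eq_zero_or_one (g - A) with h5 | h5
      · exact h5
      · rw [Int.mul_emod, h5] at h4
        norm_num at h4
    exact ⟨(g - A) / 2, by omega⟩
  obtain ⟨v, hv⟩ : ∃ v : ℤ, v = -A - u := ⟨_, rfl⟩
  have hA : A = -(u + v) := by rw [hv]; ring
  have hB : B = u * v := by
    have h1 : g = A + 2 * u := by linarith
    have h3 : A ^ 2 - 4 * B = (A + 2 * u) ^ 2 := by rw [hg, h1]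
    have h4 : 4 * B = 4 * (u * v) := by
      rw [hv]
      linear_combination (-1 : ℤ) * h3
    linarith
  have hub : u ∣ B := ⟨v, hB⟩
  have hvb : v ∣ B := ⟨u, by rw [hB, mul_comm]⟩
  refine ⟨?_, ?_, ?_, ?_⟩
  · rw [sqRoot_fac h.prime hA hB, sqRoot_fac h.prime' hA hB, h.sqc (Or.inl hub), h.sqc (Or.inl hvb)]
  · rw [nsRoot_fac h.prime hA hB, nsRoot_fac h.prime' hA hB, h.sqc (Or.inl hub),
      h.sqc (Or.inl hvb)]
  all_goals
    have e1 : -(-2 * A - 2 * g) = 2 ^ 2 * (-v) := by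
      rw [hv]
      linear_combination (2 : ℤ) * hu
    have k1 := sq_char (A := -2 * A) (B := A ^ 2 - 4 * B) (g := g) h.prime h.two
      (by rw [hg, sub_self]; exact dvd_zero _) h.ndD (by
        rw [dual_disc]
        intro h1
        rcases Int.Prime.dvd_mul' h.prime h1 with h3 | h3
        · exact h.two ((Nat.prime_dvd_prime_iff_eq h.prime Nat.prime_two).1 (by
            exact_mod_cast Int.Prime.dvd_pow' h.prime h3))
        · exact h.ndB h3)
    have k2 := sq_char (A := -2 * A) (B := A ^ 2 - 4 * B) (g := g) h.prime' h.symm.two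
      (by rw [hg, sub_self]; exact dvd_zero _) h.symm.ndD (by
        rw [dual_disc]
        intro h1
        rcases Int.Prime.dvd_mul' h.prime' h1 with h3 | h3
        · exact h.symm.two ((Nat.prime_dvd_prime_iff_eq h.prime' Nat.prime_two).1 (by
            exact_mod_cast Int.Prime.dvd_pow' h.prime' h3))
        · exact h.symm.ndB h3)
    rw [dual_disc, e1, isSq_four h.prime h.two, isSq_two h.prime h.two] at k1
    rw [dual_disc, e1, isSq_four h.prime' h.symm.two, isSq_two h.prime' h.symm.two] at k2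
  · rw [k1.1, k2.1, h.sqB, h.sqc (Or.inl (neg_dvd.2 hvb))]
  · rw [k1.2, k2.2, h.sqB, h.sqc (Or.inl (neg_dvd.2 hvb))]

/-- the isogenous curve has full two-torsion -/
theorem ty_dual (h : Good A B q p p') {g : ℤ} (hg : B = g ^ 2) : TyEq A B p p' := by
  have hA : -2 * A = -((A + 2 * g) + (A - 2 * g)) := by ring
  have hB : A ^ 2 - 4 * B = (A + 2 * g) * (A - 2 * g) := by rw [hg]; ring
  have hu : A + 2 * g ∣ A ^ 2 - 4 * B := ⟨_, hB⟩
  have hv : A - 2 * g ∣ A ^ 2 - 4 * B := ⟨A + 2 * g, by rw [hB, mul_comm]⟩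
  have k1 := sq_char (g := g) h.prime h.two (by rw [← hg, sub_self]; exact dvd_zero _) h.ndB h.ndD
  have k2 := sq_char (g := g) h.prime' h.symm.two (by rw [← hg, sub_self]; exact dvd_zero _)
    h.symm.ndB h.symm.ndD
  refine ⟨?_, ?_, ?_, ?_⟩
  · rw [k1.1, k2.1, h.sqD, h.sqc (Or.inr (neg_dvd.2 hv))]
  · rw [k1.2, k2.2, h.sqD, h.sqc (Or.inr (neg_dvd.2 hv))]
  · rw [sqRoot_fac h.prime hA hB, sqRoot_fac h.prime' hA hB, h.sqc (Or.inr hu), h.sqc (Or.inr hv)]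
  · rw [nsRoot_fac h.prime hA hB, nsRoot_fac h.prime' hA hB, h.sqc (Or.inr hu), h.sqc (Or.inr hv)]

end Run7.h268.U
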