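import Pool.Agent.Run7.h268.U.Grp

/-!
# The definitions: descent by an isogeny of degree two, two kinds of primes, families of twists
-/

set_option autoImplicit false

open Filter Topology
open scoped Classical

namespace Run7.h268.U.Thin

/-- the curve `y² = x³ + a x² + b x` over `ℚ` -/
def curve (a b : ℤ) : WeierstrassCurve ℚ :=
  { a₁ := 0, a₂ := (a : ℚ), a₃ := 0, a₄ := (b : ℚ), a₆ := 0 }

/-- the squarefree `b₁` which divide `b` for which the quartic is solvable in `ℝ` and all `ℚ_p` -/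
def descent (a b : ℤ) : Set ℤ := {b₁ | Squarefree b₁ ∧ b₁ ∣ b ∧
  (∃ N M e : ℝ, (M ≠ 0 ∨ e ≠ 0) ∧
    N ^ 2 = (b₁ : ℝ) * M ^ 4 + (a : ℝ) * M ^ 2 * e ^ 2 + ((b / b₁ : ℤ) : ℝ) * e ^ 4) ∧
  ∀ (p : ℕ) [Fact p.Prime], ∃ N M e : ℚ_[p], (M ≠ 0 ∨ e ≠ 0) ∧
    N ^ 2 = (b₁ : ℚ_[p]) * M ^ 4 + (a : ℚ_[p]) * M ^ 2 * e ^ 2 + ((b / b₁ : ℤ) : ℚ_[p]) * e ^ 4}

/-- the exponent of the order of the group of these `b₁` -/
noncomputable def f (a b : ℤ) : ℕ := Nat.log 2 (descent a b).ncard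

/-- the rank of `W(ℚ)` -/
noncomputable def rank (W : WeierstrassCurve ℚ) : ℕ := Module.finrank ℤ W.toAffine.Point

/-- the elements of `Ш(W/ℚ)` killed by two -/
def ShaTwo (W : WeierstrassCurve ℚ) : Type := {x : Pool.Agent.TH841.NF.D.Sha W // 2 • x = 0}

/-- the twist `y² = x³ + a D x² + b D² x` -/
def twist (a b : ℤ) (D : ℕ) : WeierstrassCurve ℚ := curve (a * D) (b * D ^ 2)

/-- the exponent `f₁` of the twist -/
noncomputable def f₁ (a b : ℤ) (D : ℕ) : ℕ := f (a * D) (b * D ^ 2)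

/-- the exponent `f₂` of the twist -/
noncomputable def f₂ (a b : ℤ) (D : ℕ) : ℕ := f (-2 * (a * D)) ((a * D) ^ 2 - 4 * (b * D ^ 2))

/-- the 2-Selmer rank `s = f₁ + f₂ - 2` of the twist -/
noncomputable def selmerRank (a b : ℤ) (D : ℕ) : ℤ := f₁ a b D + f₂ a b D - 2

/-- `1` if `q` is not a square modulo `p`, else `0` -/
noncomputable def nr (p q : ℕ) : ZMod 2 := if IsSquare (q : ZMod p) then 0 else 1

/-- the condition on the curve: `l` and `l'` are primes `≥ 5` which do not divide `a`, `l` divides `b`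
exactly to an odd power and `l'` divides `a² - 4 b` exactly to an odd power -/
structure Good (a b : ℤ) (l l' : ℕ) : Prop where
  prime : l.Prime
  prime' : l'.Prime
  five : 5 ≤ l
  five' : 5 ≤ l'
  nd : ¬ (l : ℤ) ∣ a
  nd' : ¬ (l' : ℤ) ∣ a
  odd : Odd (padicValInt l b)
  odd' : Odd (padicValInt l' (a ^ 2 - 4 * b))

/-- the modulus `8 |b (a² - 4 b)|` -/
def modulus (a b : ℤ) : ℕ := 8 * (b * (a ^ 2 - 4 * b)).natAbs

/-- the primes which are not a square modulo `l` and `1` modulo the part of the modulus prime to `l` -/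
def Kind (a b : ℤ) (l p : ℕ) : Prop :=
  p.Prime ∧ ¬ IsSquare (p : ZMod l) ∧ p % ordCompl[l] (modulus a b) = 1

/-- `D` is the product of `n` different primes `p i` in `S`, of the first kind (`l`) for the `i ∈ u` and of
the second kind (`l'`) for the other `i` -/
def Family (S : Set ℕ) (a b : ℤ) (l l' : ℕ) {n : ℕ} (u : Finset (Fin n)) (D : ℕ) : Prop :=
  ∃ p : Fin n → ℕ, Function.Injective p ∧
    (∀ i, p i ∈ S ∧ (i ∈ u → Kind a b l (p i)) ∧ (i ∉ u → Kind a b l' (p i))) ∧ D = ∏ i, p i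

/-- at least a positive proportion of the primes up to `Y` is in `S` and of the kind `l`, for all
large `Y` -/
def Dense (S : Set ℕ) (a b : ℤ) (l : ℕ) : Prop :=
  ∃ (δ : ℝ) (Y₀ : ℕ), 0 < δ ∧ ∀ Y : ℕ, Y₀ ≤ Y →
    δ * (Y / Real.log Y) ≤ (Nat.card {p : ℕ // p ≤ Y ∧ p ∈ S ∧ Kind a b l p} : ℝ)

/-- the matrix of the symbols: rows the primes of the second kind, columns those of the first -/
noncomputable def Mt {n : ℕ} (u : Finset (Fin n)) (p : Fin n → ℕ) :
    Matrix (uᶜ : Finset (Fin n)) u (ZMod 2) := fun v w => nr (p v) (p w)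

/-- the number of the `m` with `1 ≤ m ≤ X` and `Q m` -/
noncomputable def count (Q : ℕ → Prop) (X : ℕ) : ℕ := Nat.card {m : ℕ // 1 ≤ m ∧ m ≤ X ∧ Q m}

/-- exactly the proportion `θ` of the `m` in `F` has the property `Q` -/
def Proportion (F Q : ℕ → Prop) (θ : ℝ) : Prop :=
  Tendsto (fun X : ℕ => (count (fun m => F m ∧ Q m) X : ℝ) / (count F X : ℝ)) atTop (𝓝 θ)

/-- the proportion of the matrices of rank `ρ` among all matrices -/
noncomputable def prop (I J : Type) [Fintype I] [Fintype J] (ρ : ℕ) : ℝ :=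
  (Nat.card {M : Matrix I J (ZMod 2) // M.rank = ρ} : ℝ) / Nat.card (Matrix I J (ZMod 2))

end Run7.h268.U.Thin
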