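import Pool.Agent.Run7.h268.U.Grp
import Pool.Agent.Run7.h268.U.Ty

/-!
# The groups of the twists by primes of three types
-/

set_option autoImplicit false

namespace Run7.h268.U

open Finset
open Pool.Agent.Y703.CQ (nr)
open Run7.h268.FN.T17 (SelQ)

/-- the primes: `U`: `B` is not a square, the discriminant is; `V`: the other way round; the rest:
neither is a square.  At the bad places the product is a square and the primes in `U` are classes
of points. -/
structure Gen (A B : ℤ) (q : ℕ) {n : ℕ} (U V : Finset (Fin n)) (p : Fin n → ℕ) : Prop where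
  mdl : Mdl A B q
  prs : Prs q p
  u : ∀ i ∈ U, ¬ IsSquare (B : ZMod (p i)) ∧ IsSquare ((A ^ 2 - 4 * B : ℤ) : ZMod (p i))
  v : ∀ i ∈ V, IsSquare (B : ZMod (p i)) ∧ ¬ IsSquare ((A ^ 2 - 4 * B : ℤ) : ZMod (p i))
  z : ∀ i, i ∉ U → i ∉ V →
    ¬ IsSquare (B : ZMod (p i)) ∧ ¬ IsSquare ((A ^ 2 - 4 * B : ℤ) : ZMod (p i))
  loc : ∀ i ∈ U, ∀ (l : ℕ) [Fact l.Prime], l ∣ q → Lc ℚ_[l] (A : ℚ_[l]) (B : ℚ_[l]) (p i : ℚ_[l])
  sq : ∀ (l : ℕ) [Fact l.Prime], l ∣ q → ∃ t : ℚ_[l], t ≠ 0 ∧ (∏ i, (p i : ℚ_[l])) = t ^ 2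

variable {A B : ℤ} {q n : ℕ} {U V : Finset (Fin n)} {p : Fin n → ℕ}

theorem Gen.disj (h : Gen A B q U V p) {i : Fin n} (hu : i ∈ U) (hv : i ∈ V) : False :=
  (h.u i hu).1 (h.v i hv).1

theorem lc_one {F : Type} [Field F] {A B : F} : Lc F A B 1 := Or.inl IsSquare.one

theorem lc_prod {F : Type} [Field F] {A B : F} (hB : B ≠ 0) {T : Finset (Fin n)} {f : Fin n → F}
    (hf : ∀ i ∈ T, f i ≠ 0) (h : ∀ i ∈ T, Lc F A B (f i)) : Lc F A B (∏ i ∈ T, f i) := by
  classical
  induction T using Finset.induction_on with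
  | empty =>
    rw [prod_empty]
    exact lc_one
  | insert a T ha ih =>
    rw [prod_insert ha]
    refine lc_mul hB (hf a (mem_insert_self a T)) (prod_ne_zero_iff.2 fun i hi =>
      hf i (mem_insert_of_mem hi)) (h a (mem_insert_self a T)) (ih (fun i hi =>
      hf i (mem_insert_of_mem hi)) fun i hi => h i (mem_insert_of_mem hi))

/-- the twist by a square -/
theorem lc_twist {F : Type} [Field F] {A B D d t : F} (ht : t ≠ 0) (hD : D = t ^ 2) :
    Lc F (A * D) (B * D ^ 2) d ↔ Lc F A B d := by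
  constructor
  · intro h
    have h1 := lc_scale (A := A) (B := B) (d := d) (d' := d) (D := D) (D' := 1) (u := t⁻¹) (w := 1)
      (inv_ne_zero ht) one_ne_zero (by rw [hD]; field_simp) (by ring) h
    rw [mul_one, one_pow, mul_one] at h1
    exact h1
  · intro h
    refine lc_scale (A := A) (B := B) (d := d) (d' := d) (D := 1) (D' := D) (u := t) (w := 1)
      ht one_ne_zero (by rw [hD, one_mul]) (by ring) ?_
    rw [mul_one, one_pow, mul_one]
    exact h

theorem lc_div {F : Type} [Field F] {A B d e : F} (hB : B ≠ 0) (hd : d ≠ 0) (he : e ≠ 0)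
    (h : Lc F A B e) : Lc F A B (d * e) ↔ Lc F A B d := by
  constructor
  · intro h1
    have h2 := lc_mul hB (mul_ne_zero hd he) he h1 h
    have e1 : d * e * e = d * e ^ 2 := by ring
    rw [e1] at h2
    have h3 := lc_sq (inv_ne_zero he) h2
    have e2 : d * e ^ 2 * e⁻¹ ^ 2 = d := by field_simp
    rw [e2] at h3
    exact h3
  · intro h1
    exact lc_mul hB hd he h1 h

/-- **The elements of the group of the twist.** -/
theorem md_iff (h : Gen A B q U V p) (c : ℤ) (T : Finset (Fin n)) :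
    (c, T) ∈ Md A B p ↔ c ∈ SelQ A B ∧ T ⊆ U ∧
      ∀ j ∈ V, jacobiSym (c * ∏ i ∈ T, (p i : ℤ)) (p j) = 1 := by
  have hq := h.mdl
  have hp := h.prs
  have hne : ∀ T : Finset (Fin n), ∏ i ∈ T, (p i : ℤ) ≠ 0 := fun T =>
    prod_ne_zero_iff.2 fun i _ => by exact_mod_cast (hp.prime i).ne_zero
  rw [selQ_eq hq.ne]
  -- the bad places
  have hbad : ∀ (l : ℕ) [Fact l.Prime], l ∣ q → ∀ c : ℤ, c ≠ 0 → ∀ T ⊆ U,
      (Lc ℚ_[l] ((A * ∏ i, (p i : ℤ) : ℤ) : ℚ_[l]) ((B * (∏ i, (p i : ℤ)) ^ 2 : ℤ) : ℚ_[l])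
        ((c * ∏ i ∈ T, (p i : ℤ) : ℤ) : ℚ_[l]) ↔ Lc ℚ_[l] (A : ℚ_[l]) (B : ℚ_[l]) (c : ℚ_[l])) := by
    intro l hl hlq c hc0 T hT
    obtain ⟨t, ht, htt⟩ := h.sq l hlq
    have hB0 : (B : ℚ_[l]) ≠ 0 := by exact_mod_cast hq.ne
    have hpne : ∀ i, (p i : ℚ_[l]) ≠ 0 := fun i => by exact_mod_cast (hp.prime i).ne_zero
    push_cast
    rw [lc_twist ht htt]
    refine lc_div hB0 (by exact_mod_cast hc0) (prod_ne_zero_iff.2 fun i _ => hpne i) ?_
    exact lc_prod hB0 (fun i _ => hpne i) fun i hi => h.loc i (hT hi) l hlq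
  -- the real place
  have hreal : ∀ c : ℤ, c ≠ 0 → ∀ T : Finset (Fin n),
      (Lc ℝ ((A * ∏ i, (p i : ℤ) : ℤ) : ℝ) ((B * (∏ i, (p i : ℤ)) ^ 2 : ℤ) : ℝ)
        ((c * ∏ i ∈ T, (p i : ℤ) : ℤ) : ℝ) ↔ Lc ℝ (A : ℝ) (B : ℝ) (c : ℝ)) := by
    intro c hc0 T
    have hpp : ∀ T : Finset (Fin n), (0 : ℝ) < ∏ i ∈ T, (p i : ℝ) := fun T =>
      prod_pos fun i _ => by exact_mod_cast (hp.prime i).pos
    have hB0 : (B : ℝ) ≠ 0 := by exact_mod_cast hq.ne
    push_cast
    rw [lc_twist (Real.sqrt_pos.2 (hpp univ)).ne' (Real.sq_sqrt (hpp univ).le).symm]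
    refine lc_div hB0 (by exact_mod_cast hc0) (hpp T).ne' (Or.inl ?_)
    exact ⟨Real.sqrt (∏ i ∈ T, (p i : ℝ)), (Real.mul_self_sqrt (hpp T).le).symm⟩
  have hBs : ∀ j ∈ V, jacobiSym B (p j) = 1 := fun j hj =>
    (js_sq (hp.prime j) (hp.ndB hq j)).1 (h.v j hj).1
  constructor
  · rintro ⟨h1, h2, hR, hL⟩
    have hc0 : c ≠ 0 := h1.ne_zero
    have hcd : ∀ j, Cd A B p c T j := fun j => by
      have : Fact (p j).Prime := ⟨hp.prime j⟩
      exact (loc_at hq hp h2 T j).1 (hL (p j))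
    have hTU : T ⊆ U := by
      intro j hj
      by_contra hju
      have hD : ¬ IsSquare ((A ^ 2 - 4 * B : ℤ) : ZMod (p j)) := by
        by_cases hjv : j ∈ V
        · exact (h.v j hjv).2
        · exact (h.z j hju hjv).2
      obtain ⟨n1, n2⟩ := no_root (hp.prime j) (hp.ne2 hq j) hD
      rcases hcd j with ⟨h3, -⟩ | ⟨-, ⟨-, h3⟩ | ⟨-, h3⟩⟩
      · exact h3 hj
      · exact n1 h3
      · exact n2 h3
    refine ⟨⟨h1, h2, (hreal c hc0 T).1 hR, fun l hl => ?_⟩, hTU, fun j hj => ?_⟩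
    · by_cases hlq : l ∣ q
      · exact (hbad l hlq c hc0 T hTU).1 (hL l)
      · have hB : ¬ (l : ℤ) ∣ B := fun h1 => hlq (hq.bad l hl.out ((h1.mul_left 2).mul_right _))
        exact lc_good (fun h1 => hlq (by rw [h1]; exact hq.two)) hq.ne hq.ne' hc0 hB
          (fun h1 => hlq (hq.bad l hl.out (h1.mul_left _))) fun h1 => hB (h1.trans h2)
    · rcases hcd j with ⟨-, h3 | h3⟩ | ⟨h3, -⟩
      · exact h3
      · rw [hBs j hj, mul_one] at h3
        exact h3
      · exact absurd hj fun h4 => h.disj (hTU h3) h4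
  · rintro ⟨⟨h1, h2, hR, hL⟩, hTU, hV⟩
    have hc0 : c ≠ 0 := h1.ne_zero
    refine ⟨h1, h2, (hreal c hc0 T).2 hR, fun l hl => ?_⟩
    by_cases hlq : l ∣ q
    · exact (hbad l hlq c hc0 T hTU).2 (hL l)
    by_cases hj : ∃ j, l = p j
    · obtain ⟨j, rfl⟩ := hj
      rw [loc_at hq hp h2 T j]
      have hnd : ∀ T : Finset (Fin n), j ∉ T → ¬ (p j : ℤ) ∣ ∏ i ∈ T, (p i : ℤ) := fun T hT =>
        nd_prod (hp.prime j) fun i hi => hp.ndp fun h4 => hT (by rw [← h4]; exact hi)
      by_cases hjT : j ∈ T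
      · -- in `U`
        obtain ⟨g1, g2⟩ := h.u j (hTU hjT)
        obtain ⟨r1, r2⟩ := both_roots (hp.prime j) (hp.ne2 hq j) (hp.ndB hq j) g2 g1
        refine Or.inr ⟨hjT, ?_⟩
        rw [← jacobiSym.mul_left]
        rcases js_pm (hp.prime j) (x := c * (∏ i ∈ T.erase j, (p i : ℤ)) *
          ∏ i ∈ univ.erase j, (p i : ℤ)) (nd_mul (hp.prime j) (nd_mul (hp.prime j)
            (hp.ndc hq h2 j) (hnd _ (notMem_erase j T))) (hnd _ (notMem_erase j univ))) with h5 | h5
        · exact Or.inl ⟨h5, r1⟩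
        · exact Or.inr ⟨h5, r2⟩
      · refine Or.inl ⟨hjT, ?_⟩
        by_cases hjv : j ∈ V
        · exact Or.inl (hV j hjv)
        · have hBn : ¬ IsSquare (B : ZMod (p j)) := by
            by_cases hju : j ∈ U
            · exact (h.u j hju).1
            · exact (h.z j hju hjv).1
          rw [(js_ns (hp.prime j)).1 hBn]
          rcases js_pm (hp.prime j) (nd_mul (hp.prime j) (hp.ndc hq h2 j) (hnd T hjT)) with h5 | h5
          · exact Or.inl h5
          · exact Or.inr (by rw [h5]; norm_num)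
    · have hB : ¬ (l : ℤ) ∣ B := fun h1 => hlq (hq.bad l hl.out ((h1.mul_left 2).mul_right _))
      have hD : ¬ (l : ℤ) ∣ A ^ 2 - 4 * B := fun h1 => hlq (hq.bad l hl.out (h1.mul_left _))
      have hl2 : l ≠ 2 := fun h1 => hlq (by rw [h1]; exact hq.two)
      have hpr : ∀ U : Finset (Fin n), ¬ (l : ℤ) ∣ ∏ i ∈ U, (p i : ℤ) := fun U =>
        nd_prod hl.out fun i _ => nd_prime hl.out (hp.prime i) fun h1 => hj ⟨i, h1.symm⟩
      have hsq : ¬ (l : ℤ) ∣ (∏ i, (p i : ℤ)) ^ 2 := fun h1 =>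
        hpr univ (Int.Prime.dvd_pow' hl.out h1)
      have e : (A * ∏ i, (p i : ℤ)) ^ 2 - 4 * (B * (∏ i, (p i : ℤ)) ^ 2) =
          (A ^ 2 - 4 * B) * (∏ i, (p i : ℤ)) ^ 2 := by ring
      refine lc_good hl2 (mul_ne_zero hq.ne (pow_ne_zero 2 (hne univ))) ?_
        (mul_ne_zero hc0 (hne T)) (nd_mul hl.out hB hsq) ?_
        (nd_mul hl.out (fun h1 => hB (h1.trans h2)) (hpr T))
      · rw [e]
        exact mul_ne_zero hq.ne' (pow_ne_zero 2 (hne univ))
      · rw [e]
        exact nd_mul hl.out hD hsq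

/-! ### linear algebra -/

/-- the matrix of the symbols -/
def Mx (U V : Finset (Fin n)) (R : Fin n → Fin n → ZMod 2) : Matrix V U (ZMod 2) := fun v u => R v u

/-- the sign of an element of the field with two elements -/
def sz (x : ZMod 2) : ℤ := if x = 0 then 1 else -1

theorem sz_add (x y : ZMod 2) : sz (x + y) = sz x * sz y := by
  revert x y
  decide

theorem sz_one {x : ZMod 2} : sz x = 1 ↔ x = 0 := by
  revert x
  decide

theorem js_nr {p q : ℕ} (hp : p.Prime) (hq : q.Prime) (h : q ≠ p) : jacobiSym (q : ℤ) p = sz (nr p q) := by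
  have h1 := js_sq hp (nd_prime hp hq h)
  have h3 := js_ns hp (x := (q : ℤ))
  rw [Int.cast_natCast] at h1 h3
  unfold nr sz
  by_cases h5 : IsSquare (q : ZMod p)
  · rw [if_pos h5, if_pos rfl, h1.1 h5]
  · rw [if_neg h5, if_neg (by decide), h3.1 h5]

theorem js_sum {T : Finset (Fin n)} {j : Fin n} (hp : Prs q p) (hj : j ∉ T) :
    jacobiSym (∏ i ∈ T, (p i : ℤ)) (p j) = sz (∑ i ∈ T, nr (p j) (p i)) := by
  classical
  induction T using Finset.induction_on with
  | empty =>
    rw [prod_empty, sum_empty, jacobiSym.one_left]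
    rfl
  | insert a T ha ih =>
    rw [mem_insert, not_or] at hj
    rw [prod_insert ha, sum_insert ha, jacobiSym.mul_left, sz_add, ih hj.2,
      js_nr (hp.prime j) (hp.prime a) fun h => hj.1 (hp.inj h).symm]

/-- the kernel in terms of subsets -/
def Kt (U V : Finset (Fin n)) (R : Fin n → Fin n → ZMod 2) : Set (Finset (Fin n)) :=
  {T | T ⊆ U ∧ ∀ j ∈ V, ∑ i ∈ T, R j i = 0}

theorem card_Kt (U V : Finset (Fin n)) (R : Fin n → Fin n → ZMod 2) :
    (Kt U V R).ncard = 2 ^ (U.card - (Mx U V R).rank) := by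
  classical
  have h2 : ∀ x : ZMod 2, x = 0 ∨ x = 1 := by decide
  -- the sets are the elements of the kernel
  have e1 : ∀ (T : Finset (Fin n)) (j : Fin n), T ⊆ U →
      ∑ u : U, R j u * (if (u : Fin n) ∈ T then 1 else 0) = ∑ i ∈ T, R j i := by
    intro T j hT
    have h3 : ∑ u : U, R j u * (if (u : Fin n) ∈ T then 1 else 0) =
        ∑ i ∈ U, R j i * (if i ∈ T then 1 else 0) := by
      rw [Finset.univ_eq_attach, Finset.sum_attach U fun i => R j i * (if i ∈ T then (1 : ZMod 2) else 0)]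
    rw [h3]
    simp only [mul_ite, mul_one, mul_zero]
    rw [← Finset.sum_filter, Finset.filter_mem_eq_inter, Finset.inter_eq_right.2 hT]
  let φ : Kt U V R ≃ LinearMap.ker (Mx U V R).mulVecLin :=
    { toFun := fun T => ⟨fun u => if (u : Fin n) ∈ T.1 then 1 else 0, by
        rw [LinearMap.mem_ker]
        funext v
        show ∑ u : U, R v u * (if (u : Fin n) ∈ T.1 then 1 else 0) = 0
        rw [e1 T.1 v T.2.1]
        exact T.2.2 v v.2⟩
      invFun := fun x => ⟨(univ.filter fun u : U => x.1 u = 1).map (Function.Embedding.subtype _), by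
        constructor
        · intro i hi
          rw [mem_map] at hi
          obtain ⟨u, -, rfl⟩ := hi
          exact u.2
        · intro j hj
          rw [sum_map]
          have h3 : ((Mx U V R).mulVec x.1) ⟨j, hj⟩ = 0 := by
            have h4 := x.2
            rw [LinearMap.mem_ker] at h4
            exact congrFun h4 ⟨j, hj⟩
          rw [← h3, Finset.sum_filter]
          show _ = ∑ u : U, R j u * x.1 u
          refine Finset.sum_congr rfl fun u _ => ?_
          rcases h2 (x.1 u) with h4 | h4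
          · rw [h4, if_neg (by decide), mul_zero]
          · rw [h4, if_pos rfl, mul_one]
            rfl⟩
      left_inv := by
        rintro ⟨T, hT, hT2⟩
        refine Subtype.ext ?_
        show (univ.filter fun u : U => (if (u : Fin n) ∈ T then (1 : ZMod 2) else 0) = 1).map
          (Function.Embedding.subtype _) = T
        ext i
        rw [mem_map]
        constructor
        · rintro ⟨u, hu, rfl⟩
          rw [mem_filter] at hu
          by_contra h3
          have h4 := hu.2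
          have h3' : (u : Fin n) ∉ T := h3
          rw [if_neg h3'] at h4
          exact absurd h4 (by decide)
        · intro hi
          exact ⟨⟨i, hT hi⟩, mem_filter.2 ⟨mem_univ _, if_pos hi⟩, rfl⟩
      right_inv := by
        rintro ⟨x, hx⟩
        refine Subtype.ext ?_
        funext u
        show (if (u : Fin n) ∈ (univ.filter fun u : U => x u = 1).map
          (Function.Embedding.subtype _) then (1 : ZMod 2) else 0) = x u
        rcases h2 (x u) with h4 | h4
        · rw [h4, if_neg]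
          intro h5
          rw [mem_map] at h5
          obtain ⟨u', h6, h7⟩ := h5
          have h8 : u' = u := Subtype.ext h7
          rw [h8, mem_filter] at h6
          rw [h4] at h6
          exact absurd h6.2 (by decide)
        · rw [h4, if_pos]
          rw [mem_map]
          exact ⟨u, mem_filter.2 ⟨mem_univ _, h4⟩, rfl⟩ }
  have h3 : (Kt U V R).ncard = Nat.card (LinearMap.ker (Mx U V R).mulVecLin) := by
    rw [← Nat.card_coe_set_eq]
    exact Nat.card_congr φ
  have h4 : Module.finrank (ZMod 2) (LinearMap.ker (Mx U V R).mulVecLin) =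
      U.card - (Mx U V R).rank := by
    have h5 := LinearMap.finrank_range_add_finrank_ker (Mx U V R).mulVecLin
    rw [Module.finrank_fintype_fun_eq_card, Fintype.card_coe] at h5
    have h6 : (Mx U V R).rank = Module.finrank (ZMod 2) (LinearMap.range (Mx U V R).mulVecLin) := rfl
    omega
  rw [h3, Module.natCard_eq_pow_finrank (K := ZMod 2), h4, Nat.card_zmod]

/-- **The order of the group.** -/
theorem ncard_gen (h : Gen A B q U V p) {β : ℤ} (h1 : β ≠ 1) (hβ : SelQ A B = {1, β})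
    (hV : ∀ j ∈ V, jacobiSym β (p j) = 1) :
    (SelQ (A * ∏ i, (p i : ℤ)) (B * (∏ i, (p i : ℤ)) ^ 2)).ncard =
      2 * 2 ^ (U.card - (Mx U V fun v u => nr (p v) (p u)).rank) := by
  rw [ncard_eq h.mdl h.prs, ← card_Kt U V fun v u => nr (p v) (p u)]
  have e : Md A B p = ({1, β} : Set ℤ) ×ˢ Kt U V fun v u => nr (p v) (p u) := by
    ext ⟨c, T⟩
    rw [md_iff h, hβ, Set.mem_prod]
    refine and_congr_right fun hc => and_congr_right fun hT => ?_
    refine forall₂_congr fun j hj => ?_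
    have hjT : j ∉ T := fun h2 => h.disj (hT h2) hj
    rw [jacobiSym.mul_left, js_sum h.prs hjT]
    have hc1 : jacobiSym c (p j) = 1 := by
      rcases hc with hc | hc
      · rw [hc, jacobiSym.one_left]
      · rw [Set.mem_singleton_iff.1 hc]
        exact hV j hj
    rw [hc1, one_mul, sz_one]
  rw [e, Set.ncard_prod, Set.ncard_pair h1.symm]

end Run7.h268.U
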