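import Pool.Agent.Run7.h268.U.Ex4
import Pool.Agent.Run7.h268.U.Gen

/-!
# Two types of primes for (almost) every curve `y² = x³ + a x² + b x`
-/

set_option autoImplicit false

open scoped Classical

namespace Run7.h268.U

open Finset
open Pool.Agent.Y703.CQ (nr)
open Run7.h268.FN.T17 (SelQ)

/-- **The order of the group of the twist, for arbitrary `A`, `B`.** -/
theorem ncard_gen' {A B : ℤ} {q n : ℕ} {U V : Finset (Fin n)} {p : Fin n → ℕ}
    (h : Gen A B q U V p) (hV : ∀ c ∈ SelQ A B, ∀ j ∈ V, jacobiSym c (p j) = 1) :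
    (SelQ (A * ∏ i, (p i : ℤ)) (B * (∏ i, (p i : ℤ)) ^ 2)).ncard =
      (SelQ A B).ncard * 2 ^ (U.card - (Mx U V fun v u => nr (p v) (p u)).rank) := by
  rw [ncard_eq h.mdl h.prs, ← card_Kt U V fun v u => nr (p v) (p u)]
  have e : Md A B p = SelQ A B ×ˢ Kt U V fun v u => nr (p v) (p u) := by
    ext ⟨c, T⟩
    rw [md_iff h, Set.mem_prod]
    refine and_congr_right fun hc => and_congr_right fun hT => ?_
    refine forall₂_congr fun j hj => ?_
    have hjT : j ∉ T := fun h2 => h.disj (hT h2) hj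
    rw [jacobiSym.mul_left, js_sum h.prs hjT, hV c hc j hj, one_mul, sz_one]
  rw [e, Set.ncard_prod]

/-- the type of a prime: `1` modulo the part of `q` prime to `l`, not a square modulo `l` -/
structure Ty (q l p : ℕ) : Prop where
  prime : p.Prime
  one : p % ordCompl[l] q = 1
  ns : ¬ IsSquare (p : ZMod l)

section types

variable {q l p : ℕ}

theorem dvd_oc {m : ℕ} (hl : l.Prime) (h : m ∣ q) (hm : ¬ l ∣ m) : m ∣ ordCompl[l] q := by
  rw [← Nat.ordProj_mul_ordCompl_eq_self q l] at h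
  exact Nat.Coprime.dvd_of_dvd_mul_left
    (((Nat.Prime.coprime_iff_not_dvd hl).2 hm).symm.pow_right _) h

theorem Ty.mod (h : Ty q l p) (hl : l.Prime) {m : ℕ} (hq : m ∣ q) (hm : ¬ l ∣ m) :
    p % m = 1 % m := by
  have h1 := dvd_oc hl hq hm
  rw [← Nat.mod_mod_of_dvd p h1, h.one]

theorem nd_eight (hl : l.Prime) (h5 : 5 ≤ l) : ¬ l ∣ 8 := fun h => by
  have h1 : l ∣ 2 ^ 3 := h
  have h2 := (Nat.prime_dvd_prime_iff_eq hl Nat.prime_two).1 (hl.dvd_of_dvd_pow h1)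
  omega

theorem Ty.m8 (h : Ty q l p) (hl : l.Prime) (h5 : 5 ≤ l) (h8 : 8 ∣ q) : p % 8 = 1 :=
  h.mod hl h8 (nd_eight hl h5)

theorem Ty.nd (h : Ty q l p) (hl : l.Prime) : ¬ p ∣ q := by
  intro hd
  rw [← Nat.ordProj_mul_ordCompl_eq_self q l] at hd
  rcases (Nat.Prime.dvd_mul h.prime).1 hd with h1 | h1
  · have h2 := (Nat.prime_dvd_prime_iff_eq h.prime hl).1 (h.prime.dvd_of_dvd_pow h1)
    refine h.ns ?_
    rw [h2, ZMod.natCast_self]
    exact ⟨0, by ring⟩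
  · have h2 : p ∣ p % ordCompl[l] q := (Nat.dvd_mod_iff h1).2 dvd_rfl
    rw [h.one] at h2
    exact h.prime.one_lt.ne' (Nat.dvd_one.1 h2)

theorem Ty.js (h : Ty q l p) (hl : l.Prime) (h5 : 5 ≤ l) (h8 : 8 ∣ q) {c : ℤ}
    (hc : 4 * c ∣ (q : ℤ)) (hlc : ¬ (l : ℤ) ∣ c) : jacobiSym c p = 1 := by
  have h1 : (4 * c).natAbs ∣ q := by
    have := Int.natAbs_dvd_natAbs.2 hc
    rwa [Int.natAbs_natCast] at this
  have h2 : ¬ l ∣ (4 * c).natAbs := by
    intro h3
    rw [← Int.natCast_dvd] at h3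
    rcases Int.Prime.dvd_mul' hl h3 with h4 | h4
    · refine nd_eight hl h5 ?_
      have h6 : (l : ℤ) ∣ 8 := h4.trans (by norm_num)
      exact_mod_cast h6
    · exact hlc h4
  have h3 := dvd_oc hl h1 h2
  have h4 : 4 * c ∣ ((ordCompl[l] q : ℕ) : ℤ) := by
    rw [← Int.natAbs_dvd]
    exact_mod_cast h3
  have h6 : p % 2 = 1 := by
    have := h.m8 hl h5 h8
    omega
  rw [js_class h4 (p' := 1) (by
    rw [h.one]
    have h9 := h.one
    have h10 : 1 < ordCompl[l] q ∨ ordCompl[l] q ≤ 1 := by omega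
    rcases h10 with h10 | h10
    · exact (Nat.mod_eq_of_lt h10).symm
    · exfalso
      have h11 : 8 ∣ ordCompl[l] q := dvd_oc hl h8 (nd_eight hl h5)
      interval_cases hx : ordCompl[l] q
      · rw [Nat.mod_zero] at h9
        exact h.prime.one_lt.ne' h9
      · omega) h6 rfl, jacobiSym.one_right]

theorem Ty.jsB (h : Ty q l p) (hl : l.Prime) (h5 : 5 ≤ l) (h8 : 8 ∣ q) {B : ℤ}
    (hB : 4 * B ∣ (q : ℤ)) (hodd : Odd (padicValInt l B)) : jacobiSym B p = -1 := by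
  have : Fact l.Prime := ⟨hl⟩
  have hB0 : B ≠ 0 := by
    rintro rfl
    rw [padicValInt.zero] at hodd
    exact absurd hodd (by decide)
  obtain ⟨c, hc⟩ : (l : ℤ) ^ padicValInt l B ∣ B := by
    rw [padicValInt_dvd_iff]
    exact Or.inr le_rfl
  have hlc : ¬ (l : ℤ) ∣ c := by
    rintro ⟨d, rfl⟩
    have h1 : (l : ℤ) ^ (padicValInt l B + 1) ∣ B := ⟨d, by
      rw [pow_succ]
      linear_combination hc⟩
    rw [padicValInt_dvd_iff] at h1
    rcases h1 with h1 | h1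
    · exact hB0 h1
    · omega
  have hcB : c ∣ B := ⟨(l : ℤ) ^ padicValInt l B, by rw [mul_comm]; exact hc⟩
  have h1 := h.js hl h5 h8 ((mul_dvd_mul_left 4 hcB).trans hB) hlc
  have h4 : p % 4 = 1 := by
    have := h.m8 hl h5 h8
    omega
  have h2 : jacobiSym (l : ℤ) p = -1 := by
    rw [← jacobiSym.quadratic_reciprocity_one_mod_four h4
      (hl.odd_of_ne_two (by omega))]
    have h3 := js_ns hl (x := (p : ℤ))
    rw [Int.cast_natCast] at h3
    exact h3.1 h.ns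
  rw [hc, jacobiSym.mul_left, jacobiSym.pow_left, h1, h2, hodd.neg_one_pow, mul_one]

/-- a prime of the type `l` is a square at the other bad places -/
theorem Ty.sq (h : Ty q l p) (hl : l.Prime) (h5 : 5 ≤ l) (h8 : 8 ∣ q) {l₀ : ℕ}
    [hl₀ : Fact l₀.Prime] (h0 : l₀ ∣ q) (hne : l₀ ≠ l) : IsSquare (p : ℚ_[l₀]) := by
  by_cases h2 : l₀ = 2
  · subst h2
    exact sq_two (h.m8 hl h5 h8)
  · have h1 := h.mod hl h0 fun h3 => hne ((Nat.prime_dvd_prime_iff_eq hl hl₀.out).1 h3).symm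
    have h3 : (p : ZMod l₀) = 1 := by
      have := (ZMod.natCast_eq_natCast_iff p 1 l₀).2 h1
      rwa [Nat.cast_one] at this
    have h4 := (sq_unit h2 (x := (p : ℤ)) (by
      rw [← ZMod.intCast_zmod_eq_zero_iff_dvd, Int.cast_natCast, h3]
      exact one_ne_zero)).2 (by
        rw [Int.cast_natCast, h3]
        exact IsSquare.one)
    rw [Int.cast_natCast] at h4
    exact h4

theorem Ty.one_mod (h : Ty q l p) (hl : l.Prime) {l₀ : ℕ} (hl₀ : l₀.Prime) (h0 : l₀ ∣ q)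
    (hne : l₀ ≠ l) : (p : ZMod l₀) = 1 := by
  have h1 := h.mod hl h0 fun h3 => hne ((Nat.prime_dvd_prime_iff_eq hl hl₀).1 h3).symm
  have := (ZMod.natCast_eq_natCast_iff p 1 l₀).2 h1
  rwa [Nat.cast_one] at this

/-- no prime has both types -/
theorem Ty.disj (h : Ty q l p) {l' : ℕ} (hl : l.Prime) (hl' : l'.Prime) (hne : l ≠ l')
    (hq : l ∣ q) (h' : Ty q l' p) : False := by
  refine h.ns ?_
  rw [h'.one_mod hl' hl hq hne]
  exact IsSquare.one

end types

section conic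

variable {l : ℕ} [hl : Fact l.Prime]

/-- a nonsquare `1 + f²` -/
theorem exists_one_add (hns : ∃ c : ZMod l, ¬ IsSquare c) : ∃ f : ZMod l, ¬ IsSquare (1 + f ^ 2) := by
  by_contra hcon
  push Not at hcon
  obtain ⟨c, hc⟩ := hns
  refine hc ?_
  have key : ∀ k : ℕ, IsSquare ((k : ℕ) : ZMod l) := by
    intro k
    induction k with
    | zero => exact ⟨0, by simp⟩
    | succ k ih =>
      obtain ⟨f, hf⟩ := ih
      have h1 := hcon f
      rw [Nat.cast_succ, hf, ← pow_two, add_comm]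
      exact h1
  have h1 := key c.val
  rwa [ZMod.natCast_zmod_val] at h1

/-- **The conic.** -/
theorem conic (h5 : 5 ≤ l) {t c : ZMod l} (ht : ¬ IsSquare t) (hc : c ≠ 0) :
    ∃ e N : ZMod l, N ≠ 0 ∧ N ^ 2 = t + c * e ^ 2 := by
  have ht0 : t ≠ 0 := by
    rintro rfl
    exact ht ⟨0, by simp⟩
  have hd : ∀ k : ℕ, 0 < k → k < 5 → ((k : ℕ) : ZMod l) ≠ 0 := fun k h1 h2 h3 => by
    rw [ZMod.natCast_eq_zero_iff] at h3
    have := Nat.le_of_dvd h1 h3
    omega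
  have h2 : (2 : ZMod l) ≠ 0 := by exact_mod_cast hd 2 (by norm_num) (by norm_num)
  have h3 : (3 : ZMod l) ≠ 0 := by exact_mod_cast hd 3 (by norm_num) (by norm_num)
  by_cases hcs : IsSquare c
  · obtain ⟨g, hg⟩ := hcs
    have hg0 : g ≠ 0 := by
      rintro rfl
      rw [mul_zero] at hg
      exact hc hg
    have key : ∀ x : ZMod l, x ≠ 0 → x ^ 2 + t ≠ 0 → ∃ e N : ZMod l, N ≠ 0 ∧
        N ^ 2 = t + c * e ^ 2 := by
      intro x hx hxt
      refine ⟨(t / x - x) / (2 * g), (x + t / x) / 2, ?_, ?_⟩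
      · refine div_ne_zero ?_ h2
        intro h
        apply hxt
        have h4 : x * (x + t / x) = 0 := by rw [h, mul_zero]
        have h5 : x * (x + t / x) = x ^ 2 + t := by field_simp
        rw [← h5, h4]
      · rw [hg]
        field_simp
        ring
    by_cases h1 : (1 : ZMod l) ^ 2 + t = 0
    · refine key 2 h2 fun h4 => h3 ?_
      linear_combination h4 - h1
    · exact key 1 one_ne_zero h1
  · obtain ⟨g, hg⟩ := mul_ns (by omega) ht hcs
    obtain ⟨f, hf⟩ := exists_one_add ⟨c, hcs⟩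
    obtain ⟨N, hN⟩ := mul_ns (by omega) hcs hf
    have hf0 : (1 + f ^ 2 : ZMod l) ≠ 0 := fun h => hf (by rw [h]; exact ⟨0, by simp⟩)
    have hg0 : g ≠ 0 := by
      rintro rfl
      rw [mul_zero] at hg
      exact mul_ne_zero ht0 hc hg
    have hN0 : N ≠ 0 := by
      rintro rfl
      rw [mul_zero] at hN
      exact mul_ne_zero hc hf0 hN
    refine ⟨f * g / c, N * g / c, div_ne_zero (mul_ne_zero hN0 hg0) hc, ?_⟩
    have e1 : t = g ^ 2 / c := by
      rw [eq_div_iff hc, hg]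
      ring
    rw [div_pow, mul_pow, pow_two N, ← hN, e1]
    field_simp

/-- the quartic of a prime of the type `l` at `l` -/
theorem lc_conic (h5 : 5 ≤ l) {A B : ℤ} (hA : ¬ (l : ℤ) ∣ A) (hB : (l : ℤ) ∣ B) {x : ℕ}
    (hx : ¬ IsSquare (x : ZMod l)) : Lc ℚ_[l] (A : ℚ_[l]) (B : ℚ_[l]) (x : ℚ_[l]) := by
  have hx0 : (x : ZMod l) ≠ 0 := fun h => hx (by rw [h]; exact ⟨0, by simp⟩)
  have hA0 : (A : ZMod l) ≠ 0 := fun h => hA ((ZMod.intCast_zmod_eq_zero_iff_dvd A l).1 h)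
  have hB0 : (B : ZMod l) = 0 := (ZMod.intCast_zmod_eq_zero_iff_dvd B l).2 hB
  obtain ⟨e, N, hN, h⟩ := conic h5 hx hA0
  obtain ⟨e', rfl⟩ := ZMod.intCast_surjective e
  have hX : (((x : ℤ) ^ 3 + A * x ^ 2 * e' ^ 2 + B * x * e' ^ 4 : ℤ) : ZMod l) =
      (x * N) ^ 2 := by
    push_cast
    rw [hB0, mul_pow, h]
    ring
  have hnd : ¬ (l : ℤ) ∣ (x : ℤ) ^ 3 + A * x ^ 2 * e' ^ 2 + B * x * e' ^ 4 := by
    rw [← ZMod.intCast_zmod_eq_zero_iff_dvd, hX]
    exact pow_ne_zero 2 (mul_ne_zero hx0 hN)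
  obtain ⟨t, ht⟩ := (sq_unit (by omega) hnd).2 (by
    rw [hX]
    exact ⟨x * N, by ring⟩)
  have hxQ : (x : ℚ_[l]) ≠ 0 := by
    have : x ≠ 0 := by
      rintro rfl
      exact hx0 (by simp)
    exact_mod_cast this
  refine solv_lc hxQ ⟨t / x, 1, e', Or.inl one_ne_zero, ?_⟩
  rw [div_pow, pow_two t, ← ht]
  push_cast
  field_simp

end conic

end Run7.h268.U
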