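import Pool.Agent.Run7.h268.U.Rk

/-!
# A law for functions of the product, and the curves `y² = x³ + a x² - x`, `a² + 4` a prime
-/

set_option autoImplicit false

open scoped Classical

namespace Run7.h268.U

open Finset Filter Topology
open Pool.Agent.Y703.CQ (nr prs)
open Pool.Agent.V11291.FK (Dn)
open Run7.h268.FN

/-- the law for a property of the product -/
theorem law_fun {S : Set ℕ} {E : ℕ → ℕ → Prop} (hE : Equivalence E) {n : ℕ} {r : Fin n → ℕ}
    {e : Fin n → ZMod 2} {w : ℕ → Prop} {Φ : (Fin n → Fin n → ZMod 2) → Prop}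
    (h2 : ∀ i x, x.Prime → E x (r i) → x ≠ 2 ∧ e4 x = e i) (hn : 1 ≤ n)
    (hD : ∀ i, Dn fun p => p.Prime ∧ p ∈ S ∧ E p (r i))
    (hW : ∀ p : Fin n → ℕ, Function.Injective p →
      (∀ i, (p i).Prime ∧ p i ∈ S ∧ E (p i) (r i)) →
      (w (∏ i, p i) ↔ Φ fun k l => nr (p k) (p l))) :
    (∃ (a C : ℝ) (X₀ : ℕ), 0 < a ∧ 0 < C ∧ ∀ X : ℕ, X₀ ≤ X →
      a * (X * Real.log (Real.log X) ^ (n - 1) / Real.log X) ≤ (cnt (PrdE S E r) X : ℝ) ∧
      (cnt (PrdE S E r) X : ℝ) ≤ C * (X * Real.log (Real.log X) ^ (n - 1) / Real.log X)) ∧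
    Tendsto (fun X : ℕ => (cnt (fun D => PrdE S E r D ∧ w D) X : ℝ) /
      (cnt (PrdE S E r) X : ℝ)) atTop (𝓝 (frc fun α => Φ (ex e α))) := by
  have h1 := law_prdE (S := S) (W := fun Q => w (∏ x ∈ Q, x)) (Φ := Φ) hE h2 hn hD (by
    intro p hp h
    rw [Finset.prod_image fun a _ b _ h => hp h]
    exact hW p hp h)
  refine ⟨h1.1, ?_⟩
  have h3 : cnt (fun D => PrdE S E r D ∧ w (∏ x ∈ D.primeFactors, x)) =
      cnt (fun D => PrdE S E r D ∧ w D) := by
    congr 1
    funext D
    refine propext (and_congr_right fun hDD => ?_)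
    obtain ⟨p, hp, h, rfl⟩ := hDD
    have hprod : ∏ i, p i = ∏ x ∈ univ.image p, x := by
      rw [Finset.prod_image fun a _ b _ h => hp h]
    have hpf : (∏ i, p i).primeFactors = univ.image p := by
      rw [hprod]
      refine Nat.primeFactors_prod fun x hx => ?_
      rw [mem_image] at hx
      obtain ⟨i, -, rfl⟩ := hx
      exact (h i).1
    rw [hpf, ← hprod]
  rw [← h3]
  exact h1.2

/-! ### solvability of the quartics over a field -/

/-- the quartic of `d` -/
def Solv (F : Type) [Field F] (a b d : F) : Prop := ∃ N M e : F, (M ≠ 0 ∨ e ≠ 0) ∧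
  N ^ 2 = d * M ^ 4 + a * M ^ 2 * e ^ 2 + b / d * e ^ 4

theorem solv_lc {F : Type} [Field F] {a b d : F} (hd : d ≠ 0) (h : Solv F a b d) :
    Lc F a b d := by
  obtain ⟨N, M, e, h1, h2⟩ := h
  by_cases he : e = 0
  · have hM : M ≠ 0 := h1.resolve_right fun h0 => h0 he
    subst he
    refine Or.inl ⟨N / M ^ 2, ?_⟩
    rw [← pow_two, div_pow, h2]
    field_simp
    ring
  by_cases hM : M = 0
  · subst hM
    refine Or.inr (Or.inl ⟨d * N / e ^ 2, ?_⟩)
    rw [← pow_two, div_pow, mul_pow, h2]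
    field_simp
    ring
  · refine Or.inr (Or.inr ⟨d * (M / e) ^ 2, d * M * N / e ^ 3, M / e, mul_ne_zero hd
      (pow_ne_zero 2 (div_ne_zero hM he)), ?_, rfl⟩)
    rw [div_pow, mul_pow, mul_pow, h2]
    field_simp

/-! ### residues -/

/-- a nonsquare `x` for which `x - c` is a nonzero square -/
theorem exists_ns {l : ℕ} [hl : Fact l.Prime] (h4 : l % 4 = 1) {c : ZMod l} (hc : c ≠ 0) :
    ∃ x : ZMod l, ¬ IsSquare x ∧ x ≠ c ∧ IsSquare (x - c) := by
  by_contra hcon
  push Not at hcon
  -- sums `y + c`, `y` a nonzero square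
  have key : ∀ y : ZMod l, y ≠ 0 → IsSquare y → IsSquare (y + c) := by
    intro y hy hys
    by_contra h
    refine hcon (y + c) h ?_ ?_
    · intro h1
      exact hy (by linear_combination h1)
    · rw [add_sub_cancel_right]
      exact hys
  have hm1 : IsSquare (-1 : ZMod l) := by
    rw [ZMod.exists_sq_eq_neg_one_iff]
    omega
  -- the multiples of `c`
  have step : ∀ y : ZMod l, IsSquare y → ∀ k : ℕ, (∀ i < k, y + i * c ≠ 0) → IsSquare (y + k * c) := by
    intro y hy k
    induction k with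
    | zero =>
      intro _
      simpa using hy
    | succ k ih =>
      intro h
      have h1 := ih fun i hi => h i (by omega)
      have h2 := key _ (h k (by omega)) h1
      have e : y + ((k + 1 : ℕ) : ZMod l) * c = y + k * c + c := by
        push_cast
        ring
      rw [e]
      exact h2
  have hcs : IsSquare c := by
    -- the first zero of `1 + k c`
    have hex : ∃ k : ℕ, (1 : ZMod l) + k * c = 0 := by
      refine ⟨(-c⁻¹ : ZMod l).val, ?_⟩
      rw [ZMod.natCast_zmod_val]
      field_simp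
      ring
    obtain ⟨k, hk, hmin⟩ : ∃ k : ℕ, (1 : ZMod l) + k * c = 0 ∧ ∀ i < k, (1 : ZMod l) + i * c ≠ 0 :=
      ⟨Nat.find hex, Nat.find_spec hex, fun i hi => Nat.find_min hex hi⟩
    have hk0 : k ≠ 0 := by
      rintro rfl
      simp at hk
    obtain ⟨j, rfl⟩ := Nat.exists_eq_succ_of_ne_zero hk0
    have h1 := step 1 IsSquare.one j fun i hi => hmin i (by omega)
    have h2 : (1 : ZMod l) + j * c = -1 * c := by
      push_cast at hk
      linear_combination hk
    rw [h2] at h1
    obtain ⟨s, hs⟩ := hm1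
    obtain ⟨t, ht⟩ := h1
    have hs0 : s ≠ 0 := by
      rintro rfl
      simp at hs
    refine ⟨t / s, ?_⟩
    rw [div_mul_div_comm, ← ht, ← hs]
    ring
  -- all nonzero elements are squares
  obtain ⟨x, hx⟩ : ∃ x : ZMod l, ¬ IsSquare x := by
    obtain ⟨x, hx⟩ := quadraticChar_exists_neg_one (F := ZMod l) (by
      rw [ZMod.ringChar_zmod_n]
      rintro rfl
      omega)
    exact ⟨x, fun h => by
      have h0 : x ≠ 0 := by
        rintro rfl
        simp at hx
      rw [(quadraticChar_one_iff_isSquare h0).2 h] at hx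
      exact absurd hx (by norm_num)⟩
  refine hx ?_
  have hx0 : x ≠ 0 := by
    rintro rfl
    exact hx ⟨0, by simp⟩
  have hxc : x / c ≠ 0 := div_ne_zero hx0 hc
  have hval : (x / c).val ≠ 0 := by
    rw [Ne, ZMod.val_eq_zero]
    exact hxc
  obtain ⟨j, hj⟩ := Nat.exists_eq_succ_of_ne_zero hval
  have h1 := step c hcs j (by
    intro i hi h2
    have h3 : ((i + 1 : ℕ) : ZMod l) * c = 0 := by
      push_cast
      linear_combination h2
    rcases mul_eq_zero.1 h3 with h5 | h5
    · rw [ZMod.natCast_eq_zero_iff] at h5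
      have h6 := Nat.le_of_dvd (by omega) h5
      have h7 := ZMod.val_lt (x / c)
      omega
    · exact hc h5)
  have h2 : c + (j : ZMod l) * c = x := by
    have h3 : ((j.succ : ℕ) : ZMod l) = x / c := by
      rw [← hj, ZMod.natCast_zmod_val]
    have h4 : (j : ZMod l) + 1 = x / c := by
      rw [← h3]
      push_cast
      ring
    calc c + (j : ZMod l) * c = (j + 1) * c := by ring
      _ = x := by rw [h4, div_mul_cancel₀ _ hc]
  rw [h2] at h1
  exact h1

end Run7.h268.U
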