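import Pool.Agent.Run7.h268.U.Ex2

/-!
# The local conditions for the curves `y² = x³ + a x² - x`, `a² + 4` a prime
-/

set_option autoImplicit false

open scoped Classical

namespace Run7.h268.U

open Finset

/-- the quartic of `x = 7` modulo `8` at `2` -/
theorem ex_two {x : ℕ} (hx : x % 8 = 7) (A : ℚ_[2]) :
    Solv ℚ_[2] A ((-1 : ℤ) : ℚ_[2]) (x : ℚ_[2]) := by
  obtain ⟨t, ht⟩ : IsSquare ((-(x : ℤ) : ℤ) : ℚ_[2]) := Pool.Agent.Y971.SG.Lq.padic_sq2 (by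
    show (-(x : ℤ)) % 8 = 1 % 8
    omega)
  push_cast at ht
  have hx0 : (x : ℚ_[2]) ≠ 0 := by
    have : x ≠ 0 := by omega
    exact_mod_cast this
  refine ⟨t / x, 0, 1, Or.inr one_ne_zero, ?_⟩
  push_cast
  rw [div_pow, pow_two t, ← ht]
  field_simp
  ring

theorem ex_sq {F : Type} [Field F] {A B d : F} (h : IsSquare d) : Solv F A B d := by
  obtain ⟨t, ht⟩ := h
  exact ⟨t, 1, 0, Or.inl one_ne_zero, by rw [ht]; ring⟩

/-- an odd number `1` modulo `8` is a square in `ℚ_2` -/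
theorem sq_two {x : ℕ} (hx : x % 8 = 1) : IsSquare (x : ℚ_[2]) := by
  have h := Pool.Agent.Y971.SG.Lq.padic_sq2 (n := (x : ℤ)) (by
    show (x : ℤ) % 8 = 1 % 8
    omega)
  exact_mod_cast h

variable {l : ℕ} [hl : Fact l.Prime]

/-- the product of two nonsquares -/
theorem mul_ns (h2 : l ≠ 2) {x y : ZMod l} (hx : ¬ IsSquare x) (hy : ¬ IsSquare y) :
    IsSquare (x * y) := by
  have h3 : ringChar (ZMod l) ≠ 2 := by
    rw [ZMod.ringChar_zmod_n]
    exact h2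
  have hx0 : x ≠ 0 := by
    rintro rfl
    exact hx ⟨0, by simp⟩
  have hy0 : y ≠ 0 := by
    rintro rfl
    exact hy ⟨0, by simp⟩
  rw [← quadraticChar_one_iff_isSquare (mul_ne_zero hx0 hy0), map_mul,
    quadraticChar_neg_one_iff_not_isSquare.2 hx, quadraticChar_neg_one_iff_not_isSquare.2 hy]
  norm_num

/-- the dual quartic of a nonsquare unit at `l` -/
theorem ex_dual (h4 : l % 4 = 1) {a : ℤ} (ha : (l : ℤ) = a ^ 2 + 4) {x : ℕ}
    (hx : ¬ IsSquare (x : ZMod l)) :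
    Solv ℚ_[l] ((-2 * a : ℤ) : ℚ_[l]) ((a ^ 2 - 4 * (-1) : ℤ) : ℚ_[l]) (x : ℚ_[l]) := by
  have h2 : l ≠ 2 := by omega
  have hx0 : (x : ZMod l) ≠ 0 := by
    intro h
    exact hx (by rw [h]; exact ⟨0, by ring⟩)
  have ha0 : ((2 * a : ℤ) : ZMod l) ≠ 0 := by
    rw [Ne, ZMod.intCast_zmod_eq_zero_iff_dvd]
    intro h
    have h5 : (l : ℤ) ∣ 16 := by
      have e : (16 : ℤ) = l * 4 - 2 * a * (2 * a) := by rw [ha]; ring
      rw [e]
      exact dvd_sub (dvd_mul_right _ _) (h.mul_right _)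
    have h6 : l ∣ 2 ^ 4 := by
      have : l ∣ 16 := by exact_mod_cast h5
      exact this
    exact h2 ((Nat.prime_dvd_prime_iff_eq hl.out Nat.prime_two).1 (hl.out.dvd_of_dvd_pow h6))
  obtain ⟨y, hy1, hy2, hy3⟩ := exists_ns h4 ha0
  obtain ⟨s, hs⟩ := mul_ns h2 hx hy1
  have hs0 : s ≠ 0 := by
    rintro rfl
    rw [mul_zero] at hs
    rcases mul_eq_zero.1 hs with h | h
    · exact hx0 h
    · exact hy1 (by rw [h]; exact ⟨0, by simp⟩)
  obtain ⟨m, hm⟩ : ∃ m : ℤ, (m : ZMod l) = s / x := ⟨((s / x).val : ℤ), by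
    rw [Int.cast_natCast, ZMod.natCast_zmod_val]⟩
  have hxm : (x : ZMod l) * m ^ 2 = y := by
    rw [hm, div_pow, pow_two s, ← hs]
    field_simp
  have hN : (((x : ℤ) ^ 3 * m ^ 4 - 2 * a * x ^ 2 * m ^ 2 + l * x : ℤ) : ZMod l) =
      (x * m) ^ 2 * (y - (2 * a : ℤ)) := by
    push_cast
    rw [← hxm, ZMod.natCast_self]
    ring
  have hxQ : (x : ℚ_[l]) ≠ 0 := by
    have : x ≠ 0 := by
      rintro rfl
      exact hx0 (by simp)
    exact_mod_cast this
  have hm0 : (m : ZMod l) ≠ 0 := by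
    rw [hm]
    exact div_ne_zero hs0 hx0
  have hnd : ¬ (l : ℤ) ∣ (x : ℤ) ^ 3 * m ^ 4 - 2 * a * x ^ 2 * m ^ 2 + l * x := by
    rw [← ZMod.intCast_zmod_eq_zero_iff_dvd, hN]
    exact mul_ne_zero (pow_ne_zero 2 (mul_ne_zero hx0 hm0)) (sub_ne_zero.2 hy2)
  obtain ⟨t, ht⟩ := (sq_unit h2 hnd).2 (by
    rw [hN]
    exact IsSquare.mul ⟨x * m, by ring⟩ hy3)
  refine ⟨t / x, m, 1, Or.inr one_ne_zero, ?_⟩
  have e : (a ^ 2 - 4 * (-1) : ℤ) = l := by rw [ha]; ring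
  rw [e, div_pow, pow_two t, ← ht]
  push_cast
  field_simp
  ring

/-- the product of the primes is a square in `ℚ_2` -/
theorem sq_prod_two {n : ℕ} {r : Fin n → ℕ} {u : Finset (Fin n)} (h7 : ∀ i ∈ u, r i % 8 = 7)
    (h1 : ∀ i ∉ u, r i % 8 = 1) (hu : Even u.card) : IsSquare (∏ i, (r i : ℚ_[2])) := by
  have h : (∏ i, r i) % 8 = 1 := by
    have key : ∀ T : Finset (Fin n), (∏ i ∈ T, r i) % 8 = 7 ^ (T.filter (· ∈ u)).card % 8 := by
      intro T
      induction T using Finset.induction_on with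
      | empty => simp
      | insert i T hi ih =>
        rw [prod_insert hi, Nat.mul_mod, ih, filter_insert]
        by_cases hiu : i ∈ u
        · rw [if_pos hiu, card_insert_of_notMem (fun h => hi (mem_filter.1 h).1), h7 i hiu,
            pow_succ']
          omega
        · rw [if_neg hiu, h1 i hiu, one_mul, Nat.mod_mod]
    rw [key univ, filter_mem_eq_inter, univ_inter]
    obtain ⟨k, hk⟩ := hu
    rw [hk, ← two_mul, pow_mul, Nat.pow_mod]
    norm_num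
  have h2 := sq_two h
  rw [Nat.cast_prod] at h2
  exact h2

/-- the product of the primes is a square in `ℚ_l` -/
theorem sq_prod_l (h2 : l ≠ 2) {n : ℕ} {r : Fin n → ℕ} {u : Finset (Fin n)}
    (hr : ∀ i, (r i : ZMod l) ≠ 0) (h7 : ∀ i ∈ u, IsSquare (r i : ZMod l))
    (h1 : ∀ i ∉ u, ¬ IsSquare (r i : ZMod l)) (hu : Even uᶜ.card) :
    IsSquare (∏ i, (r i : ℚ_[l])) := by
  have hq : quadraticChar (ZMod l) (∏ i, (r i : ZMod l)) = 1 := by
    rw [map_prod, ← prod_mul_prod_compl u, prod_congr rfl fun i hi =>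
      (quadraticChar_one_iff_isSquare (hr i)).2 (h7 i hi), prod_const_one, one_mul,
      prod_congr rfl fun i hi =>
      quadraticChar_neg_one_iff_not_isSquare.2 (h1 i (mem_compl.1 hi)), prod_const,
      hu.neg_one_pow]
  have h3 : ∏ i, (r i : ZMod l) ≠ 0 := prod_ne_zero_iff.2 fun i _ => hr i
  have h4 : IsSquare (((∏ i, (r i : ℤ) : ℤ)) : ZMod l) := by
    push_cast
    exact (quadraticChar_one_iff_isSquare h3).1 hq
  have h5 : ¬ (l : ℤ) ∣ ∏ i, (r i : ℤ) := by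
    rw [← ZMod.intCast_zmod_eq_zero_iff_dvd]
    push_cast
    exact h3
  have h6 := (sq_unit h2 h5).2 h4
  push_cast at h6
  exact h6

/-- no negative number for a positive `B` and a positive definite form -/
theorem ex_real {A B d : ℤ} (hd : d < 0) (hdB : d ∣ B) (hD : A ^ 2 < 4 * B)
    (h : ∃ N M e : ℝ, (M ≠ 0 ∨ e ≠ 0) ∧
      N ^ 2 = (d : ℝ) * M ^ 4 + (A : ℝ) * M ^ 2 * e ^ 2 + ((B / d : ℤ) : ℝ) * e ^ 4) : False := by
  obtain ⟨N, M, e, hne, h⟩ := h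
  obtain ⟨k, rfl⟩ := hdB
  rw [Int.mul_ediv_cancel_left k hd.ne] at h
  have hd' : (d : ℝ) < 0 := by exact_mod_cast hd
  have hD' : (A : ℝ) ^ 2 < 4 * (d * k) := by exact_mod_cast hD
  have key : 4 * d * N ^ 2 = (2 * d * M ^ 2 + A * e ^ 2) ^ 2 + (4 * (d * k) - A ^ 2) * e ^ 4 := by
    rw [h]
    ring
  have h1 : 4 * d * N ^ 2 ≤ 0 := by
    nlinarith [sq_nonneg N]
  have h2 : 0 ≤ (2 * d * M ^ 2 + A * e ^ 2) ^ 2 := sq_nonneg _
  have h3 : 0 < 4 * (d * k : ℝ) - A ^ 2 := by linarith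
  have he : e = 0 := by
    by_contra he
    have h4 : 0 < e ^ 4 := by positivity
    have h5 := mul_pos h3 h4
    linarith
  subst he
  have hM : M = 0 := by
    by_contra hM
    have h4 : 0 < M ^ 4 := by positivity
    have h5 : N ^ 2 = d * M ^ 4 := by rw [h]; ring
    have h6 := mul_neg_of_neg_of_pos hd' h4
    nlinarith [sq_nonneg N]
  exact hne.elim (fun h => h hM) fun h => h rfl

/-- a prime in given classes modulo `8` and `l` -/
theorem ex_prime (h2 : l ≠ 2) {s : ℕ} (hs : s % 2 = 1) {c : ZMod l} (hc : c ≠ 0) :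
    ∃ x : ℕ, x.Prime ∧ x % 8 = s % 8 ∧ (x : ZMod l) = c := by
  have hco : Nat.Coprime 8 l := by
    have h3 : Nat.Coprime 2 l := (Nat.coprime_primes Nat.prime_two hl.out).2 h2.symm
    exact h3.pow_left 3
  obtain ⟨k, hk1, hk2⟩ := Nat.chineseRemainder hco s c.val
  have hk8 : Nat.Coprime k 8 := by
    have h3 : k % 2 = 1 := by
      have h4 : k % 8 = s % 8 := hk1
      omega
    exact ((Nat.coprime_two_right.2 (Nat.odd_iff.2 h3)).pow_right 3)
  have hkl : (k : ZMod l) = c := by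
    rw [(ZMod.natCast_eq_natCast_iff _ _ _).2 hk2, ZMod.natCast_zmod_val]
  have hkl' : Nat.Coprime k l := by
    rw [Nat.coprime_comm, Nat.Prime.coprime_iff_not_dvd hl.out, ← ZMod.natCast_eq_zero_iff, hkl]
    exact hc
  have : NeZero (8 * l) := ⟨mul_ne_zero (by norm_num) hl.out.ne_zero⟩
  have hu : IsUnit (k : ZMod (8 * l)) := (ZMod.isUnit_iff_coprime _ _).2
    (Nat.Coprime.mul_right hk8 hkl')
  obtain ⟨x, -, hx, hxk⟩ := Nat.forall_exists_prime_gt_and_eq_mod hu 0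
  have h3 : x ≡ k [MOD 8 * l] := (ZMod.natCast_eq_natCast_iff _ _ _).1 hxk
  refine ⟨x, hx, ?_, ?_⟩
  · exact (h3.of_dvd (dvd_mul_right _ _)).trans hk1
  · rw [(ZMod.natCast_eq_natCast_iff _ _ _).2 (h3.of_dvd (dvd_mul_left _ _)), hkl]

theorem ex_rec (h4 : l % 4 = 1) {x : ℕ} (hx : x.Prime) (h2 : x ≠ 2) :
    IsSquare (l : ZMod x) ↔ IsSquare (x : ZMod l) := by
  have : Fact x.Prime := ⟨hx⟩
  exact (ZMod.exists_sq_eq_prime_iff_of_mod_four_eq_one (p := l) (q := x) h4 h2).symm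

end Run7.h268.U
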