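import Pool.Agent.Run7.h268.U.Tr

/-!
# The group of the descent by an isogeny of degree two, its order, the rank and Sha
-/

set_option autoImplicit false

open NumberField IsDedekindDomain

namespace Run7.h268.U

open Pool.Agent.Y682 (S1 S2 LL1 LL2 Sq quot_eq IsT Zc Zc_card Zc_lower MP)
open Pool.Agent.TH841.NF.D (Sha)
open Run7.h843.Sha (C1 C2 C1_mul exists_X cl cl_of LL1_pad LL2_pad LL1_real LL2_real)
open Run7.h268.FN.T17 (SelQ)

section field

variable {F : Type} [Field F] {A B d e : F}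

theorem lc_sq {w : F} (hw : w ≠ 0) (h : Lc F A B e) : Lc F A B (e * w ^ 2) := by
  have h1 := lc_scale (A := A) (B := B) (d := e) (D := 1) (D' := 1) (u := 1) one_ne_zero hw
    (by ring) rfl (by
      rw [mul_one, one_pow, mul_one]
      exact h)
  rw [mul_one, one_pow, mul_one] at h1
  exact h1

/-- the classes of the points and the trivial ones are closed under products -/
theorem lc_mul (hB : B ≠ 0) (hd : d ≠ 0) (he : e ≠ 0) (h1 : Lc F A B d) (h2 : Lc F A B e) :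
    Lc F A B (d * e) := by
  have key : ∀ {d e : F}, d ≠ 0 → Lc F A B e → IsSquare d → Lc F A B (d * e) := by
    rintro d e hd h ⟨r, rfl⟩
    have hr : r ≠ 0 := fun h0 => hd (by rw [h0, mul_zero])
    have h3 := lc_sq hr h
    have e1 : r * r * e = e * r ^ 2 := by ring
    rw [e1]
    exact h3
  have key2 : ∀ {d e : F}, d ≠ 0 → e ≠ 0 → IsSquare (d * B) →
      (∃ x y z : F, x ≠ 0 ∧ y ^ 2 = x * (x ^ 2 + A * x + B) ∧ x = e * z ^ 2) →
      Lc F A B (d * e) := by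
    rintro d e hd he ⟨r, hr⟩ ⟨x, y, z, hx, hy, hz⟩
    have hz0 : z ≠ 0 := by
      rintro rfl
      rw [zero_pow two_ne_zero, mul_zero] at hz
      exact hx hz
    refine Or.inr (Or.inr ⟨B / x, B * y / x ^ 2, r / (d * e * z), div_ne_zero hB hx, ?_, ?_⟩)
    · rw [div_pow, mul_pow, hy]
      field_simp
      ring
    · have h3 : B = r ^ 2 / d := by
        rw [eq_div_iff hd, mul_comm, hr, pow_two]
      rw [h3, hz]
      field_simp
  rcases h1 with h1 | h1 | h1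
  · exact key hd h2 h1
  · rcases h2 with h2 | h2 | h2
    · rw [mul_comm]
      exact key he (Or.inr (Or.inl h1)) h2
    · refine Or.inl ?_
      rw [← isSquare_mul_sq hB]
      have e1 : d * e * B ^ 2 = (d * B) * (e * B) := by ring
      rw [e1]
      exact h1.mul h2
    · exact key2 hd he h1 h2
  · rcases h2 with h2 | h2 | h2
    · rw [mul_comm]
      exact key he (Or.inr (Or.inr h1)) h2
    · rw [mul_comm]
      exact key2 he hd h2 h1
    · obtain ⟨x, y, z, hx, hy, hz⟩ := h1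
      obtain ⟨x', y', z', hx', hy', hz'⟩ := h2
      have hz0 : z ≠ 0 := by
        rintro rfl
        rw [zero_pow two_ne_zero, mul_zero] at hz
        exact hx hz
      have hz0' : z' ≠ 0 := by
        rintro rfl
        rw [zero_pow two_ne_zero, mul_zero] at hz'
        exact hx' hz'
      by_cases hxx : x = x'
      · refine Or.inl ?_
        rw [← isSquare_mul_sq (mul_ne_zero hz0 hz0')]
        have e1 : d * e * (z * z') ^ 2 = x * x := by
          have e2 : d * e * (z * z') ^ 2 = (d * z ^ 2) * (e * z' ^ 2) := by ring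
          rw [e2, ← hz, ← hz', ← hxx]
        rw [e1]
        exact ⟨x, rfl⟩
      · have hsub : x - x' ≠ 0 := sub_ne_zero.2 hxx
        obtain ⟨l, hl⟩ : ∃ l, l = (y - y') / (x - x') := ⟨_, rfl⟩
        have hl1 : l * (x - x') = y - y' := by rw [hl, div_mul_cancel₀ _ hsub]
        obtain ⟨v, hv⟩ : ∃ v, v = y - l * x := ⟨_, rfl⟩
        have hy1 : y = l * x + v := by rw [hv]; ring
        have hy2 : y' = l * x' + v := by rw [hv]; linear_combination hl1
        obtain ⟨x₃, hx₃⟩ : ∃ x₃, x₃ = l ^ 2 - A - x - x' := ⟨_, rfl⟩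
        have E1 : B = x * x' + x₃ * (x + x') + 2 * l * v := by
          apply mul_left_cancel₀ hsub
          rw [hx₃]
          rw [hy1] at hy
          rw [hy2] at hy'
          linear_combination hy' - hy
        have E2 : x * x' * x₃ = v ^ 2 := by
          rw [hy1] at hy
          rw [hx₃] at E1 ⊢
          linear_combination (-1 : F) * hy - x * E1
        have hde : d * e ≠ 0 := mul_ne_zero hd he
        by_cases h3 : x₃ = 0
        · rw [h3, mul_zero] at E2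
          have hv0 : v = 0 := pow_eq_zero_iff two_ne_zero |>.1 E2.symm
          rw [h3, hv0] at E1
          refine Or.inr (Or.inl ?_)
          refine ⟨d * e * (z * z'), ?_⟩
          rw [E1, hz, hz']
          ring
        · refine Or.inr (Or.inr ⟨x₃, l * x₃ + v, v / (d * e * (z * z')), h3, ?_, ?_⟩)
          · have E3 : A = l ^ 2 - x - x' - x₃ := by rw [hx₃]; ring
            rw [E3]
            linear_combination (-1 : F) * x₃ * E1 - E2
          · rw [div_pow, ← E2, hz, hz']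
            field_simp

end field

theorem lcAll_sq {a b d w : ℤ} (hw : w ≠ 0) : LcAll a b (d * w ^ 2) ↔ LcAll a b d := by
  have key : ∀ {F : Type} [Field F] [CharZero F], Lc F (a : F) (b : F) ((d * w ^ 2 : ℤ) : F) ↔
      Lc F (a : F) (b : F) (d : F) := by
    intro F _ _
    have hw0 : (w : F) ≠ 0 := by exact_mod_cast hw
    push_cast
    constructor
    · intro h
      have h1 := lc_sq (inv_ne_zero hw0) h
      have e : (d : F) * w ^ 2 * (w : F)⁻¹ ^ 2 = d := by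
        field_simp
      rw [e] at h1
      exact h1
    · exact lc_sq hw0
  constructor
  · rintro ⟨h1, h2⟩
    exact ⟨key.1 h1, fun p _ => key.1 (h2 p)⟩
  · rintro ⟨h1, h2⟩
    exact ⟨key.2 h1, fun p _ => key.2 (h2 p)⟩

theorem lcAll_mul {a b d e : ℤ} (hb : b ≠ 0) (hd : d ≠ 0) (he : e ≠ 0) (h1 : LcAll a b d)
    (h2 : LcAll a b e) : LcAll a b (d * e) := by
  have key : ∀ {F : Type} [Field F] [CharZero F], Lc F (a : F) (b : F) (d : F) →
      Lc F (a : F) (b : F) (e : F) → Lc F (a : F) (b : F) ((d * e : ℤ) : F) := by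
    intro F _ _ h3 h4
    rw [Int.cast_mul]
    exact lc_mul (by exact_mod_cast hb) (by exact_mod_cast hd) (by exact_mod_cast he) h3 h4
  exact ⟨key h1.1 h2.1, fun p _ => key (h1.2 p) (h2.2 p)⟩

/-- the valuations are even outside the second coefficient -/
theorem not_lc {p : ℕ} [hp : Fact p.Prime] {a b d : ℤ} (hb : ¬ (p : ℤ) ∣ b) (hd : ¬ (p : ℤ) ∣ d) :
    ¬ Lc ℚ_[p] (a : ℚ_[p]) (b : ℚ_[p]) ((p * d : ℤ) : ℚ_[p]) := by
  rintro (h | h | ⟨x, y, z, hx, hy, hz⟩)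
  · exact not_sq_odd hd h
  · rw [← Int.cast_mul, mul_assoc] at h
    exact not_sq_odd (nd_mul hp.out hd hb) h
  · have hz0 : z ≠ 0 := by
      rintro rfl
      rw [zero_pow two_ne_zero, mul_zero] at hz
      exact hx hz
    have hb1 : ‖(b : ℚ_[p])‖ = 1 := norm_int hb
    have ha1 : ‖(a : ℚ_[p])‖ ≤ 1 := Padic.norm_int_le_one a
    have hp1 : (1 : ℝ) < p := by exact_mod_cast hp.out.one_lt
    have hinj := zpow_right_injective₀ (by linarith : (0 : ℝ) < p) hp1.ne'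
    have hvx : -x.valuation = -1 - 2 * z.valuation := by
      have h1 := congrArg norm hz
      push_cast at h1
      rw [norm_mul, norm_mul, norm_int hd, mul_one, Padic.norm_p, norm_pow,
        Padic.norm_eq_zpow_neg_valuation hx, Padic.norm_eq_zpow_neg_valuation hz0, ← zpow_natCast,
        ← zpow_mul, ← zpow_neg_one, ← zpow_add₀ (by linarith : (p : ℝ) ≠ 0)] at h1
      have h2 := hinj h1
      push_cast at h2
      omega
    have hnx : ‖x‖ = (p : ℝ) ^ (-x.valuation) := Padic.norm_eq_zpow_neg_valuation hx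
    have hy2 := congrArg norm hy
    rw [norm_pow, norm_mul] at hy2
    rcases lt_trichotomy ‖x‖ 1 with h | h | h
    · have h1 : ‖x ^ 2 + (a : ℚ_[p]) * x + b‖ = 1 := by
        have h2 : ‖x ^ 2 + (a : ℚ_[p]) * x‖ < 1 := by
          refine (Padic.nonarchimedean _ _).trans_lt (max_lt ?_ ?_)
          · rw [norm_pow]
            exact pow_lt_one₀ (norm_nonneg _) h two_ne_zero
          · rw [norm_mul]
            calc ‖(a : ℚ_[p])‖ * ‖x‖ ≤ 1 * ‖x‖ := mul_le_mul_of_nonneg_right ha1 (norm_nonneg _)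
              _ < 1 := by rw [one_mul]; exact h
        rw [Padic.add_eq_max_of_ne (by rw [hb1]; exact h2.ne), hb1, max_eq_right h2.le]
      rw [h1, mul_one] at hy2
      have hy0 : y ≠ 0 := by
        rintro rfl
        rw [norm_zero, zero_pow two_ne_zero] at hy2
        exact hx (norm_eq_zero.1 hy2.symm)
      rw [Padic.norm_eq_zpow_neg_valuation hy0, hnx, ← zpow_natCast, ← zpow_mul] at hy2
      have h3 := hinj hy2
      push_cast at h3
      omega
    · rw [hnx] at h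
      have h1 : (p : ℝ) ^ (-x.valuation) = (p : ℝ) ^ (0 : ℤ) := by rw [h, zpow_zero]
      have h2 := hinj h1
      omega
    · have h1 : ‖x ^ 2 + (a : ℚ_[p]) * x + b‖ = ‖x‖ ^ 2 := by
        have hlt : ‖x‖ < ‖x‖ ^ 2 := by
          rw [pow_two]
          nlinarith
        have h2 : ‖(a : ℚ_[p]) * x‖ < ‖x ^ 2‖ := by
          rw [norm_mul, norm_pow]
          calc ‖(a : ℚ_[p])‖ * ‖x‖ ≤ 1 * ‖x‖ := mul_le_mul_of_nonneg_right ha1 (norm_nonneg _)
            _ < ‖x‖ ^ 2 := by rw [one_mul]; exact hlt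
        have h3 : ‖x ^ 2 + (a : ℚ_[p]) * x‖ = ‖x‖ ^ 2 := by
          rw [Padic.add_eq_max_of_ne h2.ne', max_eq_left h2.le, norm_pow]
        rw [Padic.add_eq_max_of_ne (by rw [h3, hb1]; nlinarith), h3, hb1, max_eq_left (by nlinarith)]
      rw [h1, ← pow_succ'] at hy2
      have hy0 : y ≠ 0 := by
        rintro rfl
        rw [norm_zero, zero_pow two_ne_zero] at hy2
        exact pow_ne_zero _ (norm_ne_zero_iff.2 hx) hy2.symm
      rw [Padic.norm_eq_zpow_neg_valuation hy0, hnx, ← zpow_natCast, ← zpow_mul, ← zpow_natCast,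
        ← zpow_mul] at hy2
      have h3 := hinj hy2
      push_cast at h3
      omega

theorem dvd_of_lc {a b d : ℤ} (hsq : Squarefree d) (h : LcAll a b d) : d ∣ b := by
  have h1 : Squarefree d.natAbs := Int.squarefree_natAbs.2 hsq
  rw [← Int.natAbs_dvd_natAbs, ← Nat.prod_primeFactors_of_squarefree h1]
  refine Finset.prod_primes_dvd _ (fun p hp => (Nat.prime_of_mem_primeFactors hp).prime) fun p hp => ?_
  have hpp := Nat.prime_of_mem_primeFactors hp
  have : Fact p.Prime := ⟨hpp⟩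
  have h2 : (p : ℤ) ∣ d := Int.natCast_dvd.2 (Nat.dvd_of_mem_primeFactors hp)
  rw [← Int.natCast_dvd]
  by_contra h3
  obtain ⟨e, rfl⟩ := h2
  refine not_lc h3 (fun h4 => ?_) (h.2 p)
  have h5 : (p : ℤ) * p ∣ p * e := mul_dvd_mul_left _ h4
  exact (Nat.prime_iff_prime_int.1 hpp).not_unit (hsq _ h5)

/-- the squarefree part -/
theorem exists_sqf {X : ℤ} (hX : X ≠ 0) : ∃ d w : ℤ, Squarefree d ∧ w ≠ 0 ∧ X = d * w ^ 2 := by
  obtain ⟨a, b, h1, h2⟩ := Nat.sq_mul_squarefree X.natAbs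
  have hb : (b : ℤ) ≠ 0 := by
    intro h
    have h3 : b = 0 := by exact_mod_cast h
    rw [h3] at h1
    simp at h1
    exact hX (by omega)
  have h3 : (b : ℤ) ^ 2 * a = |X| := by
    rw [Int.abs_eq_natAbs, ← h1]
    push_cast
    ring
  rcases abs_cases X with h4 | h4
  · refine ⟨a, b, Int.squarefree_natCast.2 h2, hb, ?_⟩
    rw [← h4.1, ← h3]
    ring
  · refine ⟨-a, b, ?_, hb, ?_⟩
    · rw [← Int.squarefree_natAbs, Int.natAbs_neg, Int.natAbs_natCast]
      exact h2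
    · have h5 : X = -|X| := by rw [h4.1, neg_neg]
      rw [h5, ← h3]
      ring

/-- the representative in the group -/
theorem exists_rep {a b X : ℤ} (hb : b ≠ 0) (hX : X ≠ 0) (h : LcAll a b X) :
    ∃ d w : ℤ, d ∈ SelQ a b ∧ w ≠ 0 ∧ X = d * w ^ 2 := by
  obtain ⟨d, w, h1, h2, h3⟩ := exists_sqf hX
  rw [h3, lcAll_sq h2] at h
  refine ⟨d, w, ?_, h2, h3⟩
  rw [selQ_eq hb]
  exact ⟨h1, dvd_of_lc h1 h, h⟩

theorem mem_ne {a b d : ℤ} (h : d ∈ SelQ a b) : (d : ℚ) ≠ 0 := by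
  exact_mod_cast h.1.ne_zero

/-- the class of an element -/
noncomputable def kl {a b : ℤ} (d : SelQ a b) : ℚˣ ⧸ Sq ℚ := cl (d.1 : ℚ) (mem_ne d.2)

theorem kl_of {a b : ℤ} (d : SelQ a b) {g : ℚˣ} {c : ℚ} (h : (g : ℚ) = (d.1 : ℚ) * c ^ 2) :
    (g : ℚˣ ⧸ Sq ℚ) = kl d := cl_of _ h

theorem kl_inj {a b : ℤ} : Function.Injective (kl (a := a) (b := b)) := by
  rintro ⟨d, hd⟩ ⟨e, he⟩ h
  unfold kl cl at h
  rw [quot_eq] at h
  obtain ⟨z, hz⟩ := h
  have h1 : (e : ℚ) = d * (z : ℚ) ^ 2 := by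
    have := congrArg (fun u : ℚˣ => (u : ℚ)) hz
    simpa using this
  have h2 : IsSquare ((d * e : ℤ) : ℚ) := by
    refine ⟨d * z, ?_⟩
    push_cast
    rw [h1]
    ring
  rw [Rat.isSquare_intCast_iff] at h2
  obtain ⟨s, hs⟩ := h2
  have hd0 : d ≠ 0 := hd.1.ne_zero
  have h3 : d ∣ s := by
    have h4 : d ∣ s ^ 2 := ⟨e, by rw [pow_two]; exact hs.symm⟩
    exact (hd.1.dvd_pow_iff_dvd two_ne_zero).1 h4
  obtain ⟨t, rfl⟩ := h3
  have h4 : e = d * (t * t) := by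
    apply mul_left_cancel₀ hd0
    rw [hs]
    ring
  have h5 : IsUnit t := he.1 t ⟨d, by rw [h4]; ring⟩
  have h6 : t * t = 1 := by
    rcases Int.isUnit_iff.1 h5 with rfl | rfl <;> norm_num
  refine Subtype.ext ?_
  show d = e
  rw [h4, h6, mul_one]

/-- the group of the classes -/
noncomputable def GS (a b : ℤ) (hb : b ≠ 0) : Subgroup (ℚˣ ⧸ Sq ℚ) where
  carrier := Set.range (kl (a := a) (b := b))
  one_mem' := by
    have h1 : (1 : ℤ) ∈ SelQ a b := by
      rw [selQ_eq hb]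
      refine ⟨squarefree_one, one_dvd b, Or.inl ?_, fun p _ => Or.inl ?_⟩
      · rw [Int.cast_one]
        exact IsSquare.one
      · rw [Int.cast_one]
        exact IsSquare.one
    refine ⟨⟨1, h1⟩, ?_⟩
    refine (kl_of ⟨1, h1⟩ (g := 1) (c := 1) ?_).symm
    simp
  mul_mem' := by
    rintro _ _ ⟨d, rfl⟩ ⟨e, rfl⟩
    have hd : d.1 ∈ {d | Squarefree d ∧ d ∣ b ∧ LcAll a b d} := (selQ_eq hb) ▸ d.2
    have he : e.1 ∈ {d | Squarefree d ∧ d ∣ b ∧ LcAll a b d} := (selQ_eq hb) ▸ e.2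
    obtain ⟨c, w, h1, h2, h3⟩ := exists_rep hb (mul_ne_zero hd.1.ne_zero he.1.ne_zero)
      (lcAll_mul hb hd.1.ne_zero he.1.ne_zero hd.2.2 he.2.2)
    refine ⟨⟨c, h1⟩, ?_⟩
    refine (kl_of ⟨c, h1⟩ (g := Units.mk0 (d.1 : ℚ) (mem_ne d.2) * Units.mk0 (e.1 : ℚ) (mem_ne e.2))
      (c := w) ?_).symm
    rw [Units.val_mul, Units.val_mk0, Units.val_mk0]
    exact_mod_cast h3
  inv_mem' := by
    rintro _ ⟨d, rfl⟩
    refine ⟨d, ?_⟩
    have h0 := mem_ne d.2
    refine (kl_of d (g := (Units.mk0 (d.1 : ℚ) h0)⁻¹) (c := (d.1 : ℚ)⁻¹) ?_).symm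
    rw [Units.val_inv_eq_inv_val, Units.val_mk0]
    field_simp

theorem finite_SelQ (a : ℤ) {b : ℤ} (hb : b ≠ 0) : (SelQ a b).Finite := by
  refine Set.Finite.subset (Set.finite_Icc (-|b|) |b|) fun d hd => ?_
  have h1 := Int.le_of_dvd (abs_pos.2 hb) ((abs_dvd_abs d b).2 hd.2.1)
  exact abs_le.1 h1

theorem card_GS (a : ℤ) {b : ℤ} (hb : b ≠ 0) : Nat.card (GS a b hb) = (SelQ a b).ncard := by
  have h1 : Nat.card (SelQ a b) = Nat.card (Set.range (kl (a := a) (b := b))) :=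
    Nat.card_congr (Equiv.ofInjective _ kl_inj)
  rw [← Nat.card_coe_set_eq, h1]
  rfl

instance finite_GS (a : ℤ) {b : ℤ} (hb : b ≠ 0) : Finite (GS a b hb) := by
  have : Finite (SelQ a b) := finite_SelQ a hb
  exact Set.finite_range (kl (a := a) (b := b))

/-- **The order is a power of two.** -/
theorem ncard_pow (a : ℤ) {b : ℤ} (hb : b ≠ 0) : ∃ k, (SelQ a b).ncard = 2 ^ k := by
  have hp : Fact (Nat.Prime 2) := ⟨Nat.prime_two⟩
  rw [← card_GS a hb, ← IsPGroup.iff_card]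
  rintro ⟨g, hg⟩
  refine ⟨1, Subtype.ext ?_⟩
  show g ^ 2 ^ 1 = 1
  rw [pow_one]
  obtain ⟨d, rfl⟩ := hg
  unfold kl cl
  rw [← QuotientGroup.mk_pow]
  rw [QuotientGroup.eq_one_iff]
  exact ⟨_, rfl⟩

theorem lcAll_of_c1 {a b : ℤ} {X : ℤ} (h : ∀ (p : ℕ) [Fact p.Prime], C1 ℚ_[p] (a : ℚ) (b : ℚ) (X : ℚ))
    (hR : C1 ℝ (a : ℚ) (b : ℚ) (X : ℚ)) : LcAll a b X :=
  ⟨lc_of_c1 hR, fun p _ => lc_of_c1 (h p)⟩

/-- **The rank and Sha.** -/
theorem rank_sha {a b : ℤ} (hb : b ≠ 0) (hab : a ^ 2 - 4 * b ≠ 0) {W : WeierstrassCurve ℚ}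
    (hT : IsT W (a : ℚ) (b : ℚ)) :
    Finite {x : Sha W // 2 • x = 0} ∧
      4 * (2 ^ Module.finrank ℤ (MP W) * Nat.card {x : Sha W // 2 • x = 0}) ≤
        (SelQ a b).ncard * (SelQ (-2 * a) (a ^ 2 - 4 * b)).ncard := by
  have H1 : ∀ g : ℚˣ, LL1 (a : ℚ) (b : ℚ) (g : ℚ) →
      (g : ℚˣ ⧸ Sq ℚ) ∈ (GS a b hb : Set (ℚˣ ⧸ Sq ℚ)) := by
    intro g h
    obtain ⟨X, d, hX, hd, hXb⟩ := exists_X g.ne_zero
    have h1 : LcAll a b X := lcAll_of_c1 (fun p _ => by
      rw [hXb]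
      exact C1_mul hd (LL1_pad h p)) (by
      rw [hXb]
      exact C1_mul hd (LL1_real h))
    obtain ⟨c, w, h2, h3, h4⟩ := exists_rep hb hX h1
    refine ⟨⟨c, h2⟩, ?_⟩
    refine (kl_of ⟨c, h2⟩ (c := w / d) ?_).symm
    have h5 : (X : ℚ) = c * (w : ℚ) ^ 2 := by exact_mod_cast h4
    rw [div_pow, mul_div_assoc', ← h5, hXb]
    field_simp
  have eA : (-2 * (a : ℚ)) = ((-2 * a : ℤ) : ℚ) := by push_cast; ring
  have eB : ((a : ℚ) ^ 2 - 4 * (b : ℚ)) = ((a ^ 2 - 4 * b : ℤ) : ℚ) := by push_cast; ring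
  have H2 : ∀ g : ℚˣ, LL2 (a : ℚ) (b : ℚ) (g : ℚ) →
      (g : ℚˣ ⧸ Sq ℚ) ∈ (GS (-2 * a) (a ^ 2 - 4 * b) hab : Set (ℚˣ ⧸ Sq ℚ)) := by
    intro g h
    obtain ⟨X, d, hX, hd, hXb⟩ := exists_X g.ne_zero
    have h1 : LcAll (-2 * a) (a ^ 2 - 4 * b) X := lcAll_of_c1 (fun p _ => by
      rw [hXb]
      refine C1_mul hd ?_
      rw [← eA, ← eB]
      exact Run7.h843.R.C2_iff.1 (LL2_pad h p)) (by
      rw [hXb]
      refine C1_mul hd ?_
      rw [← eA, ← eB]
      exact Run7.h843.R.C2_iff.1 (LL2_real h))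
    obtain ⟨c, w, h2, h3, h4⟩ := exists_rep hab hX h1
    refine ⟨⟨c, h2⟩, ?_⟩
    refine (kl_of ⟨c, h2⟩ (c := w / d) ?_).symm
    have h5 : (X : ℚ) = c * (w : ℚ) ^ 2 := by exact_mod_cast h4
    rw [div_pow, mul_div_assoc', ← h5, hXb]
    field_simp
  have f1 : Finite (GS a b hb : Set (ℚˣ ⧸ Sq ℚ)) := finite_GS a hb
  have f2 : Finite (GS (-2 * a) (a ^ 2 - 4 * b) hab : Set (ℚˣ ⧸ Sq ℚ)) := finite_GS _ hab
  obtain ⟨hf, hc⟩ := Zc_card hT (U := (GS a b hb : Set (ℚˣ ⧸ Sq ℚ)))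
    (V := (GS (-2 * a) (a ^ 2 - 4 * b) hab : Set (ℚˣ ⧸ Sq ℚ))) (one_mem (GS _ _ hab)) H1 H2
  obtain ⟨g1, g2⟩ := Zc_lower hT
  refine ⟨g1, ?_⟩
  have h1 := card_GS a hb
  have h2 := card_GS (-2 * a) hab
  have h3 : Nat.card (Zc W) ≤ (SelQ a b).ncard * (SelQ (-2 * a) (a ^ 2 - 4 * b)).ncard := by
    rw [← h1, ← h2]
    exact hc
  rw [← mul_assoc]
  exact g2.trans h3

end Run7.h268.U
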