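import Pool.Agent.Run7.h268.FN.Tns
import Pool.Agent.Run7.h843.V1

/-!
# Local conditions of the descent by an isogeny of degree two at the primes of the twist
-/

set_option autoImplicit false

namespace Run7.h268.U

open Pool.Agent.Y698.SG.Cv (LocI)

/-- `d` is a square, or `d B` is a square, or `d` is the class of the abscissa of a point -/
def Lc (F : Type) [Field F] (A B d : F) : Prop := IsSquare d ∨ IsSquare (d * B) ∨
  ∃ x y z : F, x ≠ 0 ∧ y ^ 2 = x * (x ^ 2 + A * x + B) ∧ x = d * z ^ 2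

section field

variable {F : Type} [Field F]

theorem isSquare_mul_sq {a u : F} (hu : u ≠ 0) : IsSquare (a * u ^ 2) ↔ IsSquare a := by
  constructor
  · rintro ⟨r, hr⟩
    refine ⟨r / u, ?_⟩
    field_simp
    rw [← pow_two] at hr
    rw [hr]
  · rintro ⟨r, rfl⟩
    exact ⟨r * u, by ring⟩

/-- multiplication of the twist and of the class by squares -/
theorem lc_scale {A B d D D' d' u w : F} (hu : u ≠ 0) (hw : w ≠ 0) (hD : D' = D * u ^ 2)
    (hd : d' = d * w ^ 2) (h : Lc F (A * D) (B * D ^ 2) d) : Lc F (A * D') (B * D' ^ 2) d' := by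
  subst hD hd
  rcases h with h | h | ⟨x, y, z, hx, hy, hz⟩
  · exact Or.inl ((isSquare_mul_sq hw).2 h)
  · refine Or.inr (Or.inl ?_)
    have e : d * w ^ 2 * (B * (D * u ^ 2) ^ 2) = d * (B * D ^ 2) * (w * u ^ 2) ^ 2 := by ring
    rw [e, isSquare_mul_sq (mul_ne_zero hw (pow_ne_zero 2 hu))]
    exact h
  · refine Or.inr (Or.inr ⟨u ^ 2 * x, u ^ 3 * y, u * z / w, mul_ne_zero (pow_ne_zero 2 hu) hx, ?_, ?_⟩)
    · linear_combination u ^ 6 * hy
    · rw [hz]
      field_simp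

end field

section quartic

variable {L : Type} [Field L] [CharZero L]

theorem lc_of_c1 {a b d : ℤ} (h : Run7.h843.Sha.C1 L (a : ℚ) (b : ℚ) (d : ℚ)) :
    Lc L (a : L) (b : L) (d : L) := by
  obtain ⟨z, m, hz, hm, h⟩ := h
  rw [Rat.cast_intCast] at hm
  rw [Rat.cast_intCast, Rat.cast_intCast] at h
  rcases h with h | h | ⟨h1, y, h2⟩
  · refine Or.inl ((isSquare_mul_sq hz).1 ?_)
    rw [hm, h]
    exact IsSquare.one
  · refine Or.inr (Or.inl ((isSquare_mul_sq hz).1 ?_))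
    have e : (d : L) * b * z ^ 2 = b * b := by rw [mul_right_comm, hm, h]
    rw [e]
    exact ⟨b, rfl⟩
  · exact Or.inr (Or.inr ⟨m, y, z, h1, h2, hm.symm⟩)

/-- the quartics -/
theorem quartic_iff {a b d : ℤ} (hd : d ≠ 0) (hb : b ≠ 0) (hdb : d ∣ b) :
    (∃ N M e : L, (M ≠ 0 ∨ e ≠ 0) ∧
      N ^ 2 = (d : L) * M ^ 4 + (a : L) * M ^ 2 * e ^ 2 + ((b / d : ℤ) : L) * e ^ 4) ↔
      Lc L (a : L) (b : L) (d : L) := by
  have hbd : ((b / d : ℤ) : L) * d = b := by
    rw [← Int.cast_mul, Int.ediv_mul_cancel hdb]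
  have hdL : (d : L) ≠ 0 := by exact_mod_cast hd
  constructor
  · rintro ⟨N, M, e, h1, h2⟩
    exact lc_of_c1 (Run7.h268.FN.T17.c1_of hd hb hdb h1 h2)
  · rintro (⟨r, hr⟩ | ⟨r, hr⟩ | ⟨x, y, z, hx, hy, hz⟩)
    · refine ⟨r, 1, 0, Or.inl one_ne_zero, ?_⟩
      rw [hr]
      ring
    · refine ⟨r / d, 0, 1, Or.inr one_ne_zero, ?_⟩
      have h1 : ((b / d : ℤ) : L) = b / d := by
        rw [eq_div_iff hdL]
        exact hbd
      rw [h1, div_pow, pow_two r, ← hr]
      field_simp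
      ring
    · exact Run7.h268.FN.T17.quartic_of hd hdb ⟨x, y, z, hx, hy, hz⟩

end quartic

/-! ### the field `ℚ_p`, `p` odd -/

section padic

variable {p : ℕ} [hp : Fact p.Prime]

theorem four_unit (h2 : p ≠ 2) : IsUnit (4 : ℤ_[p]) := by
  rw [PadicInt.isUnit_iff]
  have h1 : ‖((4 : ℤ) : ℤ_[p])‖ = 1 := by
    rw [PadicInt.norm_intCast_eq_one_iff]
    rw [Int.isCoprime_iff_gcd_eq_one]
    have h3 : Nat.Coprime 4 p := by
      rw [show 4 = 2 ^ 2 by norm_num]
      exact Nat.Coprime.pow_left 2 ((Nat.coprime_primes Nat.prime_two hp.out).2 (Ne.symm h2))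
    exact h3
  exact_mod_cast h1

/-- one plus a small element is a square -/
theorem sq_one_add (h2 : p ≠ 2) {t : ℚ_[p]} (ht : ‖t‖ < 1) : ∃ s : ℚ_[p], s ≠ 0 ∧ 1 + t = s ^ 2 := by
  obtain ⟨t', ht'⟩ : ∃ t' : ℤ_[p], (t' : ℚ_[p]) = t := ⟨⟨t, ht.le⟩, rfl⟩
  have h1 : ‖t'‖ < 1 := by
    rw [PadicInt.norm_def, ht']
    exact ht
  have h3 : (p : ℤ_[p]) ∣ t' := (PadicInt.norm_lt_one_iff_dvd t').1 h1
  obtain ⟨w, hw⟩ := h3
  obtain ⟨u, hu⟩ := four_unit h2
  obtain ⟨z, hz⟩ := Pool.Agent.Y971.SG.Lq.hens p (u⁻¹.1 * w)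
  have h4 : 1 + t' = z * z := by
    rw [← hz, hw, ← hu]
    have h5 : (u : ℤ_[p]) * (p : ℤ_[p]) * ((u⁻¹ : ℤ_[p]ˣ) * w) = p * w * (u * (u⁻¹ : ℤ_[p]ˣ)) := by
      ring
    rw [h5, Units.mul_inv, mul_one]
  have h5 : 1 + t = (z : ℚ_[p]) ^ 2 := by
    rw [← ht']
    have h6 := congrArg (fun x : ℤ_[p] => (x : ℚ_[p])) h4
    push_cast at h6
    rw [h6]
    ring
  refine ⟨z, ?_, h5⟩
  rintro h0
  rw [h0, zero_pow two_ne_zero] at h5
  have h6 : t = -1 := by linear_combination h5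
  rw [h6, norm_neg, norm_one] at ht
  exact lt_irrefl _ ht

theorem norm_int_lt {x : ℤ} : ‖(x : ℚ_[p])‖ < 1 ↔ (p : ℤ) ∣ x := by
  rw [← PadicInt.norm_int_lt_one_iff_dvd, PadicInt.norm_def]
  push_cast
  exact Iff.rfl

theorem norm_int {x : ℤ} (h : ¬ (p : ℤ) ∣ x) : ‖(x : ℚ_[p])‖ = 1 := by
  refine le_antisymm (Padic.norm_int_le_one x) ?_
  by_contra hcon
  exact h (norm_int_lt.1 (not_le.1 hcon))

/-- the squares among the units -/
theorem sq_unit (h2 : p ≠ 2) {x : ℤ} (h : ¬ (p : ℤ) ∣ x) :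
    IsSquare (x : ℚ_[p]) ↔ IsSquare (x : ZMod p) := by
  constructor
  · rintro ⟨z, hz⟩
    have h1 : ‖z‖ = 1 := by
      have h3 := norm_int (p := p) h
      rw [hz, norm_mul] at h3
      have h4 : ‖z‖ ^ 2 = 1 := by rw [pow_two]; exact h3
      exact (pow_eq_one_iff_of_nonneg (norm_nonneg z) two_ne_zero).1 h4
    obtain ⟨z', hz'⟩ : ∃ z' : ℤ_[p], (z' : ℚ_[p]) = z := ⟨⟨z, h1.le⟩, rfl⟩
    have h3 : ((x : ℤ) : ℤ_[p]) = z' * z' := by
      apply PadicInt.ext
      push_cast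
      rw [hz', hz]
    refine ⟨PadicInt.toZMod z', ?_⟩
    rw [← map_mul, ← h3, map_intCast]
  · intro h3
    exact Pool.Agent.Y971.SG.Lq.t_SQ p x h2 h h3

/-- an element of odd valuation is not a square -/
theorem not_sq_odd {x : ℤ} (h : ¬ (p : ℤ) ∣ x) : ¬ IsSquare ((p * x : ℤ) : ℚ_[p]) := by
  rintro ⟨z, hz⟩
  have h1 : ‖z‖ ^ 2 = (p : ℝ)⁻¹ := by
    have h3 := congrArg norm hz
    push_cast at h3
    rw [norm_mul, norm_mul, norm_int h, mul_one, Padic.norm_p] at h3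
    rw [pow_two, ← h3]
  have hz0 : z ≠ 0 := by
    rintro rfl
    rw [norm_zero, zero_pow two_ne_zero] at h1
    exact inv_ne_zero (by exact_mod_cast hp.out.ne_zero) h1.symm
  rw [Padic.norm_eq_zpow_neg_valuation hz0, ← zpow_natCast, ← zpow_mul] at h1
  have h3 : (p : ℝ)⁻¹ = (p : ℝ) ^ (-1 : ℤ) := (zpow_neg_one _).symm
  rw [h3] at h1
  have h4 := zpow_right_injective₀ (by exact_mod_cast hp.out.pos : (0 : ℝ) < p)
    (by exact_mod_cast hp.out.one_lt.ne') h1
  push_cast at h4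
  omega

/-- **The local condition at an odd prime which divides the twist.** -/
theorem crit_dvd (h2 : p ≠ 2) {A B : ℤ} (hB : ¬ (p : ℤ) ∣ B) (hD : ¬ (p : ℤ) ∣ A ^ 2 - 4 * B)
    {D₁ : ℤ} (hD₁ : ¬ (p : ℤ) ∣ D₁) {d : ℚ_[p]} (hd : d ≠ 0) :
    Lc ℚ_[p] ((A : ℚ_[p]) * ((p * D₁ : ℤ) : ℚ_[p])) ((B : ℚ_[p]) * ((p * D₁ : ℤ) : ℚ_[p]) ^ 2) d ↔
      IsSquare d ∨ IsSquare (d * B) ∨ ∃ a : ℤ, (p : ℤ) ∣ a ^ 2 + A * a + B ∧
        IsSquare (d * ((p * D₁ : ℤ) : ℚ_[p]) * a) := by
  set D : ℚ_[p] := ((p * D₁ : ℤ) : ℚ_[p]) with hDd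
  have hp0 : (p : ℚ_[p]) ≠ 0 := by exact_mod_cast hp.out.ne_zero
  have hD1 : (D₁ : ℚ_[p]) ≠ 0 := by
    have : D₁ ≠ 0 := by
      rintro rfl
      exact hD₁ (dvd_zero _)
    exact_mod_cast this
  have hD0 : D ≠ 0 := by
    rw [hDd]
    push_cast
    exact mul_ne_zero hp0 hD1
  have hnD : ‖D‖ = (p : ℝ)⁻¹ := by
    rw [hDd]
    push_cast
    rw [norm_mul, norm_int hD₁, mul_one, Padic.norm_p]
  have hnB : ‖(B : ℚ_[p])‖ = 1 := norm_int hB
  have hB0 : (B : ℚ_[p]) ≠ 0 := fun h => by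
    rw [h, norm_zero] at hnB
    exact zero_ne_one hnB
  have hnA : ‖(A : ℚ_[p])‖ ≤ 1 := Padic.norm_int_le_one A
  have hBD : IsSquare (d * ((B : ℚ_[p]) * D ^ 2)) ↔ IsSquare (d * B) := by
    rw [← mul_assoc, isSquare_mul_sq hD0]
  unfold Lc
  rw [hBD]
  constructor
  · rintro (h | h | ⟨x, y, z, hx, hy, hz⟩)
    · exact Or.inl h
    · exact Or.inr (Or.inl h)
    have hz0 : z ≠ 0 := by
      rintro rfl
      rw [zero_pow two_ne_zero, mul_zero] at hz
      exact hx hz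
    have hdx : ∀ c : ℚ_[p], IsSquare (x * c) ↔ IsSquare (d * c) := by
      intro c
      have e : x * c = d * c * z ^ 2 := by rw [hz]; ring
      rw [e, isSquare_mul_sq hz0]
    obtain ⟨w, hw⟩ : ∃ w, w = x / D := ⟨_, rfl⟩
    have hxw : x = D * w := by
      rw [hw]
      field_simp
    have hw0 : w ≠ 0 := by
      rintro h0
      rw [h0, mul_zero] at hxw
      exact hx hxw
    have hy' : y ^ 2 = x * (D ^ 2 * (w ^ 2 + A * w + B)) := by
      rw [hy]
      congr 1
      rw [hxw]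
      ring
    rcases lt_trichotomy ‖w‖ 1 with h | h | h
    · -- small
      have ht : ‖((A : ℚ_[p]) * w + w ^ 2) / B‖ < 1 := by
        rw [norm_div, hnB, div_one]
        refine (Padic.nonarchimedean _ _).trans_lt (max_lt ?_ ?_)
        · rw [norm_mul]
          calc ‖(A : ℚ_[p])‖ * ‖w‖ ≤ 1 * ‖w‖ := mul_le_mul_of_nonneg_right hnA (norm_nonneg _)
            _ < 1 := by rw [one_mul]; exact h
        · rw [norm_pow]
          exact pow_lt_one₀ (norm_nonneg _) h two_ne_zero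
      obtain ⟨s, hs0, hs⟩ := sq_one_add h2 ht
      refine Or.inr (Or.inl ((hdx B).1 ?_))
      have e : y ^ 2 = x * B * (D * s) ^ 2 := by
        rw [hy', mul_pow, ← hs]
        field_simp
        ring
      rw [← isSquare_mul_sq (mul_ne_zero hD0 hs0), ← e]
      exact ⟨y, pow_two y⟩
    · -- a unit
      by_cases hg : ‖w ^ 2 + (A : ℚ_[p]) * w + B‖ < 1
      · obtain ⟨w', hw'⟩ : ∃ w' : ℤ_[p], (w' : ℚ_[p]) = w := ⟨⟨w, h.le⟩, rfl⟩
        obtain ⟨a, ha⟩ : ∃ a : ℤ, ‖w - a‖ < 1 := by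
          refine ⟨(PadicInt.toZMod w').val, ?_⟩
          have h3 : PadicInt.toZMod (w' - ((PadicInt.toZMod w').val : ℤ_[p])) = 0 := by
            rw [map_sub, map_natCast, ZMod.natCast_zmod_val, sub_self]
          have h4 : ‖w' - ((PadicInt.toZMod w').val : ℤ_[p])‖ < 1 := by
            rw [← PadicInt.mem_nonunits, ← IsLocalRing.mem_maximalIdeal, ← PadicInt.ker_toZMod]
            exact h3
          rw [PadicInt.norm_def] at h4
          push_cast at h4 ⊢
          rw [hw'] at h4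
          exact h4
        have hwa : w = a + (w - a) := by ring
        have hna : ‖(a : ℚ_[p])‖ = 1 := by
          have h4 : ‖w - (a : ℚ_[p])‖ < ‖w‖ := by rw [h]; exact ha
          have h5 : ‖w‖ = ‖(a : ℚ_[p])‖ := Padic.norm_eq_of_norm_sub_lt_left h4
          rw [← h5]
          exact h
        have ha0 : (a : ℚ_[p]) ≠ 0 := fun h0 => by
          rw [h0, norm_zero] at hna
          exact zero_ne_one hna
        refine Or.inr (Or.inr ⟨a, ?_, ?_⟩)
        · rw [← norm_int_lt]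
          have e : ((a ^ 2 + A * a + B : ℤ) : ℚ_[p]) = (w ^ 2 + (A : ℚ_[p]) * w + B) +
              (-((w - (a : ℚ_[p])) * (w + (a : ℚ_[p]) + (A : ℚ_[p])))) := by
            push_cast
            ring
          rw [e]
          refine (Padic.nonarchimedean _ _).trans_lt (max_lt hg ?_)
          rw [norm_neg, norm_mul]
          have h5 : ‖w + a + (A : ℚ_[p])‖ ≤ 1 := by
            refine (Padic.nonarchimedean _ _).trans (max_le ?_ hnA)
            exact (Padic.nonarchimedean _ _).trans (max_le h.le hna.le)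
          calc ‖w - (a : ℚ_[p])‖ * ‖w + a + (A : ℚ_[p])‖ ≤ ‖w - (a : ℚ_[p])‖ * 1 :=
                mul_le_mul_of_nonneg_left h5 (norm_nonneg _)
            _ < 1 := by rw [mul_one]; exact ha
        · have ht : ‖(w - a) / (a : ℚ_[p])‖ < 1 := by
            rw [norm_div, hna, div_one]
            exact ha
          obtain ⟨s, hs0, hs⟩ := sq_one_add h2 ht
          have e1 : w = a * s ^ 2 := by
            rw [← hs]
            field_simp
            ring
          rw [mul_assoc, ← hdx, hxw, e1]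
          exact ⟨D * a * s, by ring⟩
      · -- impossible
        exfalso
        have hg1 : ‖w ^ 2 + (A : ℚ_[p]) * w + B‖ = 1 := by
          refine le_antisymm ?_ (not_lt.1 hg)
          refine (Padic.nonarchimedean _ _).trans (max_le ?_ hnB.le)
          refine (Padic.nonarchimedean _ _).trans (max_le ?_ ?_)
          · rw [norm_pow, h, one_pow]
          · rw [norm_mul, h, mul_one]
            exact hnA
        have h3 := congrArg norm hy'
        rw [hxw, norm_pow, norm_mul, norm_mul, norm_mul, norm_pow, h, hg1, hnD, mul_one, mul_one] at h3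
        have hy0 : y ≠ 0 := by
          rintro rfl
          rw [norm_zero, zero_pow two_ne_zero] at h3
          have hpr : (p : ℝ)⁻¹ ≠ 0 := inv_ne_zero (by exact_mod_cast hp.out.ne_zero)
          exact mul_ne_zero hpr (pow_ne_zero 2 hpr) h3.symm
        rw [Padic.norm_eq_zpow_neg_valuation hy0, ← zpow_natCast, ← zpow_mul] at h3
        have h4 : (p : ℝ)⁻¹ * (p : ℝ)⁻¹ ^ 2 = (p : ℝ) ^ (-3 : ℤ) := by
          rw [zpow_neg, ← inv_zpow]
          norm_cast
          ring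
        rw [h4] at h3
        have h5 := zpow_right_injective₀ (by exact_mod_cast hp.out.pos : (0 : ℝ) < p)
          (by exact_mod_cast hp.out.one_lt.ne') h3
        push_cast at h5
        omega
    · -- large
      have ht : ‖(A : ℚ_[p]) / w + B / w ^ 2‖ < 1 := by
        refine (Padic.nonarchimedean _ _).trans_lt (max_lt ?_ ?_)
        · rw [norm_div, div_lt_one (by linarith)]
          exact hnA.trans_lt h
        · rw [norm_div, hnB, norm_pow, div_lt_one (by positivity)]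
          exact one_lt_pow₀ h two_ne_zero
      obtain ⟨s, hs0, hs⟩ := sq_one_add h2 ht
      refine Or.inl ?_
      have h6 := hdx 1
      rw [mul_one, mul_one] at h6
      refine h6.1 ?_
      have e : y ^ 2 = x * (D * w * s) ^ 2 := by
        rw [hy', mul_pow, mul_pow, ← hs]
        field_simp
        ring
      rw [← isSquare_mul_sq (mul_ne_zero (mul_ne_zero hD0 hw0) hs0), ← e]
      exact ⟨y, pow_two y⟩
  · rintro (h | h | ⟨a, ha, r, hr⟩)
    · exact Or.inl h
    · exact Or.inr (Or.inl h)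
    refine Or.inr (Or.inr ?_)
    -- the root
    obtain ⟨σ, hσ⟩ : IsSquare ((A ^ 2 - 4 * B : ℤ) : ℚ_[p]) := by
      rw [sq_unit h2 hD]
      refine ⟨((2 * a + A : ℤ) : ZMod p), ?_⟩
      rw [← Int.cast_mul, ← sub_eq_zero, ← Int.cast_sub, ZMod.intCast_zmod_eq_zero_iff_dvd]
      have e : A ^ 2 - 4 * B - (2 * a + A) * (2 * a + A) = -4 * (a ^ 2 + A * a + B) := by ring
      rw [e]
      exact ha.mul_left _
    have hprod : ‖(σ - (2 * a + A)) * (σ + (2 * a + A))‖ < 1 := by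
      have e : (σ - (2 * a + A)) * (σ + (2 * a + A)) = ((-4 * (a ^ 2 + A * a + B) : ℤ) : ℚ_[p]) := by
        push_cast at hσ ⊢
        linear_combination -hσ
      rw [e, norm_int_lt]
      exact ha.mul_left _
    have hroot : ∃ τ : ℚ_[p], τ ^ 2 = (A : ℚ_[p]) ^ 2 - 4 * B ∧ ‖τ - (2 * a + A)‖ < 1 := by
      rw [norm_mul] at hprod
      push_cast at hσ
      by_cases h3 : ‖σ - (2 * a + A)‖ < 1
      · exact ⟨σ, by rw [pow_two]; exact hσ.symm, h3⟩
      · refine ⟨-σ, by rw [neg_sq, pow_two]; exact hσ.symm, ?_⟩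
        have e : -σ - (2 * a + A) = -(σ + (2 * a + A)) := by ring
        rw [e, norm_neg]
        by_contra h4
        exact absurd hprod (not_lt.2 (one_le_mul_of_one_le_of_one_le (not_lt.1 h3) (not_lt.1 h4)))
    obtain ⟨τ, hτ, hτa⟩ := hroot
    have hn2 : ‖(2 : ℚ_[p])‖ = 1 := by
      have h3 : ¬ (p : ℤ) ∣ 2 := by
        intro h3
        have h4 : p ∣ 2 := by exact_mod_cast h3
        exact h2 ((Nat.prime_dvd_prime_iff_eq hp.out Nat.prime_two).1 h4)
      have h4 := norm_int (p := p) h3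
      exact_mod_cast h4
    obtain ⟨α, hα⟩ : ∃ α : ℚ_[p], α = (τ - A) / 2 := ⟨_, rfl⟩
    have hα1 : α ^ 2 + A * α + B = 0 := by
      rw [hα]
      linear_combination (1 / 4 : ℚ_[p]) * hτ
    have hαa : ‖α - a‖ < 1 := by
      have e : α - a = (τ - (2 * a + A)) / 2 := by
        rw [hα]
        ring
      rw [e, norm_div, hn2, div_one]
      exact hτa
    have hna : ‖(a : ℚ_[p])‖ = 1 := by
      refine norm_int fun h3 => hB ?_
      have e : B = (a ^ 2 + A * a + B) - a * (a + A) := by ring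
      rw [e]
      exact dvd_sub ha (h3.mul_right _)
    have ha0 : (a : ℚ_[p]) ≠ 0 := fun h0 => by
      rw [h0, norm_zero] at hna
      exact zero_ne_one hna
    have ht : ‖(α - a) / (a : ℚ_[p])‖ < 1 := by
      rw [norm_div, hna, div_one]
      exact hαa
    obtain ⟨s, hs0, hs⟩ := sq_one_add h2 ht
    have e1 : α = a * s ^ 2 := by
      rw [← hs]
      field_simp
      ring
    have hα0 : α ≠ 0 := by
      rw [e1]
      exact mul_ne_zero ha0 (pow_ne_zero 2 hs0)
    refine ⟨D * α, 0, r * s / d, mul_ne_zero hD0 hα0, ?_, ?_⟩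
    · have e2 : (D * α) ^ 2 + A * D * (D * α) + B * D ^ 2 = D ^ 2 * (α ^ 2 + A * α + B) := by ring
      rw [e2, hα1]
      ring
    · rw [e1, div_pow, mul_pow, pow_two r, ← hr]
      field_simp

end padic

end Run7.h268.U
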