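import Pool.Agent.Run7.h268.U.Gen
import Pool.Agent.Run7.h268.U.Lw
import Pool.Agent.Run7.h268.FN.Mtx
import Pool.Agent.Run7.h843.L1
import Pool.Agent.N916.GB.Num

/-!
# The block of the symbols is a uniformly random matrix
-/

set_option autoImplicit false

open scoped Classical

namespace Run7.h268.U

open Finset
open Pool.Agent.Y703.CQ (prs)
open Pool.Agent.Y219.CQ (mem_prs ext_self ext_pos ext_neg ext_symm ext_add)
open Pool.Agent.Y759.CX (fr fr_comp)
open Run7.h268.FN (ex frc rank_full)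

variable {n : ℕ} (U V : Finset (Fin n)) (e : Fin n → ZMod 2)

/-- the block -/
noncomputable def bl : (prs (univ : Finset (Fin n)) → ZMod 2) →+ Matrix V U (ZMod 2) where
  toFun α := fun v u => Pool.Agent.Y703.CQ.ext α v u
  map_zero' := by
    have h0 : ∀ k l, Pool.Agent.Y703.CQ.ext (0 : prs (univ : Finset (Fin n)) → ZMod 2) k l = 0 := by
      intro k l
      unfold Pool.Agent.Y703.CQ.ext
      split_ifs <;> rfl
    funext v u
    exact h0 v u
  map_add' α β := by
    funext v u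
    show Pool.Agent.Y703.CQ.ext (α + β) v u = Pool.Agent.Y703.CQ.ext α v u +
      Pool.Agent.Y703.CQ.ext β v u
    rw [ext_add]

theorem bl_surj (h : ∀ i, i ∈ U → i ∉ V) : Function.Surjective (bl U V) := by
  intro M
  obtain ⟨α, hα⟩ : ∃ α : prs (univ : Finset (Fin n)) → ZMod 2, α = fun x =>
      if h : x.1.1 ∈ V ∧ x.1.2 ∈ U then M ⟨x.1.1, h.1⟩ ⟨x.1.2, h.2⟩ else
      if h : x.1.1 ∈ U ∧ x.1.2 ∈ V then M ⟨x.1.2, h.2⟩ ⟨x.1.1, h.1⟩ else 0 := ⟨_, rfl⟩
  refine ⟨α, ?_⟩
  funext v u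
  show Pool.Agent.Y703.CQ.ext α v u = M v u
  have hne : (v : Fin n) ≠ u := fun h1 => h u u.2 (by rw [← h1]; exact v.2)
  rcases lt_or_gt_of_ne hne with h1 | h1
  · rw [ext_pos univ _ ((mem_prs univ (v : Fin n) (u : Fin n)).2 ⟨mem_univ _, h1.ne', fun _ => h1⟩),
      hα]
    simp only
    rw [dif_pos ⟨v.2, u.2⟩]
  · rw [ext_neg univ _ ((mem_prs univ (u : Fin n) (v : Fin n)).2 ⟨mem_univ _, h1.ne', fun _ => h1⟩)
      (mem_univ _), hα]
    simp only
    rw [dif_neg fun h2 => h u u.2 h2.1, dif_pos ⟨u.2, v.2⟩]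

/-- **The law of the block.** -/
theorem frc_block (h : ∀ i, i ∈ U → i ∉ V) (he : ∀ v ∈ V, ∀ u ∈ U, e v * e u = 0)
    (P : Matrix V U (ZMod 2) → Prop) : frc (fun α => P (Mx U V (ex e α))) =
    (Nat.card {M : Matrix V U (ZMod 2) // P M} : ℝ) / 2 ^ (V.card * U.card) := by
  have h1 := fr_comp (bl U V) (bl_surj U V h) P
  have h3 : ∀ α, Mx U V (ex e α) = bl U V α := by
    intro α
    funext v u
    show Pool.Agent.Y703.CQ.ext α v u + (if (u : Fin n) < v then e v * e u else 0) =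
      Pool.Agent.Y703.CQ.ext α v u
    rw [he v v.2 u u.2, ite_self, add_zero]
  have h4 : (fun α => P (Mx U V (ex e α))) = fun α => P (bl U V α) := by
    funext α
    rw [h3]
  rw [h4]
  have h6 : Nat.card (prs (univ : Finset (Fin n)) → ZMod 2) = 2 ^ (prs (univ : Finset (Fin n))).card := by
    rw [Nat.card_fun, Nat.card_eq_fintype_card, Nat.card_eq_fintype_card, ZMod.card,
      Fintype.card_coe]
  have h7 : Nat.card (Matrix V U (ZMod 2)) = 2 ^ (V.card * U.card) := by
    unfold Matrix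
    rw [Nat.card_fun, Nat.card_fun, Nat.card_eq_fintype_card, Nat.card_eq_fintype_card,
      Nat.card_eq_fintype_card, ZMod.card, Fintype.card_coe, Fintype.card_coe, ← pow_mul, mul_comm]
  unfold fr at h1
  rw [h6, h7, Nat.card_eq_fintype_card, Fintype.card_subtype] at h1
  unfold frc
  push_cast at h1
  exact h1

/-- the matrices of full rank -/
theorem card_full {m : ℕ} (hU : U.card = m) (hV : V.card = m) :
    (Nat.card {M : Matrix V U (ZMod 2) // M.rank = m} : ℝ) / 2 ^ (V.card * U.card) =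
      ∏ i ∈ range m, (1 - (1 / 2 : ℝ) ^ (i + 1)) := by
  have eU : Fin m ≃ U := (Finset.equivFinOfCardEq hU).symm
  have eV : Fin m ≃ V := (Finset.equivFinOfCardEq hV).symm
  have h1 : Nat.card {M : Matrix V U (ZMod 2) // M.rank = m} =
      Nat.card {M : Matrix (Fin m) (Fin m) (ZMod 2) // M.det ≠ 0} := by
    refine Nat.card_congr (Equiv.subtypeEquiv (Matrix.reindex eV.symm eU.symm) fun M => ?_)
    rw [← rank_full]
    have h2 : (Matrix.reindex eV.symm eU.symm M).rank = M.rank := by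
      rw [Matrix.reindex_apply, Matrix.rank_submatrix]
    rw [h2]
  have h2 : Nat.card {M : Matrix (Fin m) (Fin m) (ZMod 2) // M.det ≠ 0} =
      Nat.card (Matrix.GeneralLinearGroup (Fin m) (ZMod 2)) := by
    refine Nat.card_congr
      { toFun := fun M => Matrix.GeneralLinearGroup.mkOfDetNeZero M.1 M.2
        invFun := fun g => ⟨g.1, ?_⟩
        left_inv := fun M => Subtype.ext rfl
        right_inv := fun g => Units.ext rfl }
    exact ((Matrix.isUnit_iff_isUnit_det g.1).1 g.isUnit).ne_zero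
  rw [h1, h2, Matrix.card_GL_field, ZMod.card, hU, hV]
  push_cast
  have h3 : ∀ i : Fin m, ((2 ^ m - 2 ^ (i : ℕ) : ℕ) : ℝ) = 2 ^ m * (1 - (1 / 2 : ℝ) ^ (m - i)) := by
    intro i
    rw [Nat.cast_sub (Nat.pow_le_pow_right (by norm_num) i.2.le)]
    push_cast
    have h4 : (2 : ℝ) ^ m = 2 ^ (i : ℕ) * 2 ^ (m - (i : ℕ)) := by
      rw [← pow_add, Nat.add_sub_cancel' i.2.le]
    rw [mul_sub, mul_one, div_pow, one_pow, h4, mul_assoc, mul_one_div,
      div_self (by positivity : (2 : ℝ) ^ (m - (i : ℕ)) ≠ 0), mul_one]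
  rw [Finset.prod_congr rfl fun i _ => h3 i, Finset.prod_mul_distrib, Finset.prod_const,
    Finset.card_univ, Fintype.card_fin, ← pow_mul, mul_comm, mul_div_assoc,
    div_self (by positivity), mul_one, Fin.prod_univ_eq_prod_range (fun i => 1 - (1 / 2 : ℝ) ^ (m - i)) m,
    ← Finset.prod_range_reflect]
  refine Finset.prod_congr rfl fun i hi => ?_
  rw [mem_range] at hi
  congr 2
  omega

theorem prod_gt (m : ℕ) : 0.2887 < ∏ i ∈ range m, (1 - (1 / 2 : ℝ) ^ (i + 1)) :=
  Pool.Agent.N916.GB.eta_bounds.1.trans_le (Run7.h843.L.eta_le m)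

end Run7.h268.U
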