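import Pool.Agent.Run7.h268.U.Defs
import Pool.Agent.Run7.h268.U.Ev

/-!
# Thin families of twists of (almost) every curve `y² = x³ + a x² + b x`: the proofs
-/

set_option autoImplicit false

open Filter Topology
open scoped Classical

namespace Run7.h268.U.Thin

section proof

open Run7.h268.U
open Run7.h268.FN.T17 (SelQ)
open Pool.Agent.Y682 (MP)

variable {a b : ℤ} {l l' n : ℕ} {u : Finset (Fin n)} {p : Fin n → ℕ}

theorem rank_MP (W : WeierstrassCurve ℚ) : rank W = Module.finrank ℤ (MP W) := by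
  have key : ∀ d : DecidableEq ℚ, @Module.finrank ℤ W.toAffine.Point _
      (@WeierstrassCurve.Affine.Point.instAddCommGroup ℚ _ W.toAffine d).toAddCommMonoid
      (@AddCommGroup.toIntModule _
        (@WeierstrassCurve.Affine.Point.instAddCommGroup ℚ _ W.toAffine d)) =
      Module.finrank ℤ (MP W) := by
    intro d
    rw [Subsingleton.elim d (Classical.decEq ℚ)]
    rfl
  exact key _

theorem ncard_f (a : ℤ) {b : ℤ} (hb : b ≠ 0) : (SelQ a b).ncard = 2 ^ f a b := by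
  obtain ⟨k, hk⟩ := ncard_pow a hb
  have h1 : (descent a b).ncard = 2 ^ k := hk
  unfold f
  rw [h1, Nat.log_pow one_lt_two]
  exact hk

theorem rank_bound {a b : ℤ} (hb : b ≠ 0) (hab : a ^ 2 - 4 * b ≠ 0) :
    Finite (ShaTwo (curve a b)) ∧ 4 * (2 ^ rank (curve a b) * Nat.card (ShaTwo (curve a b))) ≤
      2 ^ (f a b + f (-2 * a) (a ^ 2 - 4 * b)) := by
  obtain ⟨h1, h2⟩ := rank_sha (W := curve a b) hb hab ⟨rfl, rfl, rfl, rfl, rfl,
    by exact_mod_cast hb, by exact_mod_cast hab⟩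
  rw [rank_MP, pow_add, ← ncard_f a hb, ← ncard_f (-2 * a) hab]
  exact ⟨h1, h2⟩

theorem ne_of {b : ℤ} (hb : ¬ IsSquare b) : b ≠ 0 := fun h => hb (by rw [h]; exact ⟨0, by ring⟩)

theorem mdl₁ {q : ℕ} (hb : b ≠ 0) (hD : a ^ 2 - 4 * b ≠ 0) (h3 : 8 * b * (a ^ 2 - 4 * b) ∣ (q : ℤ)) :
    Mdl a b q := by
  have h8 : 8 ∣ q := by
    have h4 : (8 : ℤ) ∣ q := dvd_trans ⟨b * (a ^ 2 - 4 * b), by ring⟩ h3
    exact_mod_cast h4
  refine ⟨h8, ?_, fun l hl hd => ?_, hb, hD⟩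
  · exact dvd_trans ⟨2 * (a ^ 2 - 4 * b), by ring⟩ h3
  · have h4 : (l : ℤ) ∣ q := (hd.trans ⟨4, by ring⟩ : (l : ℤ) ∣ 8 * b * (a ^ 2 - 4 * b)).trans h3
    exact_mod_cast h4

theorem mdl₂ {q : ℕ} (hb : b ≠ 0) (hD : a ^ 2 - 4 * b ≠ 0) (h3 : 8 * b * (a ^ 2 - 4 * b) ∣ (q : ℤ)) :
    Mdl (-2 * a) (a ^ 2 - 4 * b) q := by
  have h8 : 8 ∣ q := by
    have h4 : (8 : ℤ) ∣ q := dvd_trans ⟨b * (a ^ 2 - 4 * b), by ring⟩ h3
    exact_mod_cast h4
  refine ⟨h8, ?_, fun l hl hd => ?_, hD, ?_⟩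
  · exact dvd_trans ⟨2 * b, by ring⟩ h3
  · have e : 2 * (a ^ 2 - 4 * b) * ((-2 * a) ^ 2 - 4 * (a ^ 2 - 4 * b)) =
        4 * (8 * b * (a ^ 2 - 4 * b)) := by ring
    rw [e] at hd
    rcases Int.Prime.dvd_mul' hl hd with h4 | h4
    · have h5 : (l : ℤ) ∣ 8 := h4.trans (by norm_num)
      have h6 : l ∣ 8 := by exact_mod_cast h5
      exact h6.trans h8
    · have h5 : (l : ℤ) ∣ q := h4.trans h3
      exact_mod_cast h5
  · rw [dual_disc]
    exact mul_ne_zero (by norm_num) hb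

theorem count_congr {Q Q' : ℕ → Prop} (h : ∀ m, Q m ↔ Q' m) : count Q = count Q' := by
  rw [funext fun m => propext (h m)]

theorem prop_congr {F Q Q' : ℕ → Prop} {θ : ℝ} (h : ∀ m, F m → (Q m ↔ Q' m))
    (hp : Proportion F Q θ) : Proportion F Q' θ := by
  unfold Proportion at hp ⊢
  rw [count_congr (Q := fun m => F m ∧ Q' m) (Q' := fun m => F m ∧ Q m) fun m =>
    and_congr_right fun hm => (h m hm).symm]
  exact hp

theorem Kind.ty (h : Kind a b l' n) : Ty (modulus a b) l' n := ⟨h.1, h.2.2, h.2.1⟩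

theorem Good.b0 (h : Good a b l l') : b ≠ 0 := by
  have h1 := h.odd
  rintro rfl
  rw [padicValInt.zero] at h1
  exact absurd h1 (by decide)

theorem Good.d0 (h : Good a b l l') : a ^ 2 - 4 * b ≠ 0 := by
  have h1 := h.odd'
  intro h2
  rw [h2, padicValInt.zero] at h1
  exact absurd h1 (by decide)

theorem dvd_of_odd {l : ℕ} (hl : l.Prime) {x : ℤ} (h : Odd (padicValInt l x)) : (l : ℤ) ∣ x := by
  have : Fact l.Prime := ⟨hl⟩
  have h1 : (l : ℤ) ^ 1 ∣ x := by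
    rw [padicValInt_dvd_iff]
    right
    obtain ⟨k, hk⟩ := h
    omega
  rwa [pow_one] at h1

theorem not_sq_of_odd {l : ℕ} (hl : l.Prime) {x : ℤ} (h : Odd (padicValInt l x)) : ¬ IsSquare x := by
  have : Fact l.Prime := ⟨hl⟩
  rintro ⟨s, rfl⟩
  by_cases hs : s = 0
  · rw [hs, mul_zero, padicValInt.zero] at h
    exact absurd h (by decide)
  · rw [padicValInt.mul hs hs] at h
    obtain ⟨k, hk⟩ := h
    omega

theorem Good.lb (h : Good a b l l') : (l : ℤ) ∣ b := dvd_of_odd h.prime h.odd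

theorem Good.ld (h : Good a b l l') : (l' : ℤ) ∣ a ^ 2 - 4 * b := dvd_of_odd h.prime' h.odd'

theorem Good.lnd (h : Good a b l l') : ¬ (l : ℤ) ∣ a ^ 2 - 4 * b := by
  intro h1
  refine h.nd (Int.Prime.dvd_pow' h.prime (k := 2) ?_)
  have e : a ^ 2 = (a ^ 2 - 4 * b) + 4 * b := by ring
  rw [e]
  exact dvd_add h1 (h.lb.mul_left 4)

theorem Good.lnb (h : Good a b l l') : ¬ (l' : ℤ) ∣ b := by
  intro h1
  refine h.nd' (Int.Prime.dvd_pow' h.prime' (k := 2) ?_)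
  have e : a ^ 2 = (a ^ 2 - 4 * b) + 4 * b := by ring
  rw [e]
  exact dvd_add h.ld (h1.mul_left 4)

theorem Good.ne (h : Good a b l l') : l ≠ l' := fun h1 => h.lnd (by
  rw [h1]
  exact h.ld)

theorem Good.nsb (h : Good a b l l') : ¬ IsSquare b := not_sq_of_odd h.prime h.odd

theorem Good.nsd (h : Good a b l l') : ¬ IsSquare (a ^ 2 - 4 * b) := not_sq_of_odd h.prime' h.odd'

theorem mod_dvd : 8 * b * (a ^ 2 - 4 * b) ∣ (modulus a b : ℤ) := by
  unfold modulus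
  push_cast
  rw [Int.abs_eq_natAbs, mul_assoc]
  exact mul_dvd_mul_left 8 (Int.dvd_natAbs.2 dvd_rfl)

theorem Good.four_b : 4 * b ∣ (modulus a b : ℤ) :=
  dvd_trans ⟨2 * (a ^ 2 - 4 * b), by ring⟩ mod_dvd

theorem Good.four_d : 4 * (a ^ 2 - 4 * b) ∣ (modulus a b : ℤ) :=
  dvd_trans ⟨2 * b, by ring⟩ mod_dvd

theorem eight : 8 ∣ modulus a b := ⟨_, rfl⟩

theorem Good.lm (h : Good a b l l') : l ∣ modulus a b := by
  have h1 : (l : ℤ) ∣ modulus a b := (h.lb.mul_left 4).trans Good.four_b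
  exact_mod_cast h1

theorem Good.lm' (h : Good a b l l') : l' ∣ modulus a b := by
  have h1 : (l' : ℤ) ∣ modulus a b := (h.ld.mul_left 4).trans Good.four_d
  exact_mod_cast h1

/-- the primes -/
def Pr (a b : ℤ) (l l' : ℕ) {n : ℕ} (u : Finset (Fin n)) (p : Fin n → ℕ) : Prop :=
  Function.Injective p ∧ ∀ i, (i ∈ u → Kind a b l (p i)) ∧ (i ∉ u → Kind a b l' (p i))

theorem Pr.prs (h : Good a b l l') (hp : Pr a b l l' u p) : Prs (modulus a b) p := by
  refine ⟨hp.1, fun i => ?_, fun i => ?_⟩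
  · by_cases hi : i ∈ u
    · exact ((hp.2 i).1 hi).1
    · exact ((hp.2 i).2 hi).1
  · by_cases hi : i ∈ u
    · exact ((hp.2 i).1 hi).ty.nd h.prime
    · exact ((hp.2 i).2 hi).ty.nd h.prime'

/-- the product is a square at the bad places -/
theorem sq_all' (h : Good a b l l') (hp : Pr a b l l' u p) (hu : Even u.card) (hu' : Even uᶜ.card)
    (l₀ : ℕ) [hl₀ : Fact l₀.Prime] (h0 : l₀ ∣ modulus a b) :
    ∃ t : ℚ_[l₀], t ≠ 0 ∧ (∏ i, (p i : ℚ_[l₀])) = t ^ 2 := by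
  have hne : ∏ i, (p i : ℚ_[l₀]) ≠ 0 := Finset.prod_ne_zero_iff.2 fun i _ => by
    exact_mod_cast ((hp.prs h).prime i).ne_zero
  have key : IsSquare (∏ i, (p i : ℚ_[l₀])) := by
    by_cases h1 : l₀ = l
    · subst h1
      refine sq_prod_l (u := uᶜ) (by have := h.five; omega) (fun i hi => ?_) (fun i hi => ?_)
        (fun i hi => ?_) (by rw [compl_compl]; exact hu)
      · by_cases hiu : i ∈ u
        · exact ((hp.2 i).1 hiu).2.1 (by rw [hi]; exact ⟨0, by simp⟩)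
        · rw [((hp.2 i).2 hiu).ty.one_mod h.prime' h.prime h0 h.ne] at hi
          exact one_ne_zero hi
      · rw [((hp.2 i).2 (Finset.mem_compl.1 hi)).ty.one_mod h.prime' h.prime h0 h.ne]
        exact IsSquare.one
      · rw [Finset.mem_compl, not_not] at hi
        exact ((hp.2 i).1 hi).2.1
    by_cases h2 : l₀ = l'
    · subst h2
      refine sq_prod_l (u := u) (by have := h.five'; omega) (fun i hi => ?_) (fun i hi => ?_)
        (fun i hi => ((hp.2 i).2 hi).2.1) hu'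
      · by_cases hiu : i ∈ u
        · rw [((hp.2 i).1 hiu).ty.one_mod h.prime h.prime' h0 h.ne.symm] at hi
          exact one_ne_zero hi
        · exact ((hp.2 i).2 hiu).2.1 (by rw [hi]; exact ⟨0, by simp⟩)
      · rw [((hp.2 i).1 hi).ty.one_mod h.prime h.prime' h0 h.ne.symm]
        exact IsSquare.one
    · refine Finset.prod_induction _ IsSquare (fun _ _ => IsSquare.mul) IsSquare.one fun i _ => ?_
      by_cases hiu : i ∈ u
      · exact ((hp.2 i).1 hiu).ty.sq h.prime h.five eight h0 h1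
      · exact ((hp.2 i).2 hiu).ty.sq h.prime' h.five' eight h0 h2
  obtain ⟨t, ht⟩ := key
  refine ⟨t, ?_, by rw [ht, pow_two]⟩
  rintro rfl
  rw [mul_zero] at ht
  exact hne ht

theorem gen₁ (h : Good a b l l') (hp : Pr a b l l' u p) (hu : Even u.card) (hu' : Even uᶜ.card) :
    Gen a b (modulus a b) u uᶜ p where
  mdl := mdl₁ h.b0 h.d0 mod_dvd
  prs := hp.prs h
  u i hi := by
    have ht := ((hp.2 i).1 hi).ty
    have hm := mdl₁ h.b0 h.d0 (mod_dvd (a := a) (b := b))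
    refine ⟨(js_ns ht.prime).2 (ht.jsB h.prime h.five eight Good.four_b h.odd), ?_⟩
    rw [js_sq ht.prime ((hp.prs h).ndD hm i)]
    exact ht.js h.prime h.five eight Good.four_d h.lnd
  v i hi := by
    have ht := ((hp.2 i).2 (Finset.mem_compl.1 hi)).ty
    have hm := mdl₁ h.b0 h.d0 (mod_dvd (a := a) (b := b))
    refine ⟨?_, (js_ns ht.prime).2 (ht.jsB h.prime' h.five' eight Good.four_d h.odd')⟩
    rw [js_sq ht.prime ((hp.prs h).ndB hm i)]
    exact ht.js h.prime' h.five' eight Good.four_b h.lnb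
  z i hi hi' := absurd (Finset.mem_compl.2 hi) hi'
  loc i hi l₀ _ h0 := by
    have ht := ((hp.2 i).1 hi).ty
    by_cases h1 : l₀ = l
    · subst h1
      exact lc_conic h.five h.nd h.lb ht.ns
    · exact Or.inl (ht.sq h.prime h.five eight h0 h1)
  sq l₀ _ h0 := sq_all' h hp hu hu' l₀ h0

theorem Good.nd2 (h : Good a b l l') : ¬ (l' : ℤ) ∣ -2 * a := by
  intro h1
  rcases Int.Prime.dvd_mul' h.prime' h1 with h2 | h2
  · have h3 : (l' : ℤ) ∣ 2 := by
      rw [dvd_neg] at h2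
      exact h2
    have h4 : l' ∣ 2 := by exact_mod_cast h3
    have := Nat.le_of_dvd (by norm_num) h4
    have := h.five'
    omega
  · exact h.nd' h2

theorem gen₂ (h : Good a b l l') (hp : Pr a b l l' u p) (hu : Even u.card) (hu' : Even uᶜ.card) :
    Gen (-2 * a) (a ^ 2 - 4 * b) (modulus a b) uᶜ u p := by
  have g := gen₁ h hp hu hu'
  have h4 : ∀ i, IsSquare (((-2 * a) ^ 2 - 4 * (a ^ 2 - 4 * b) : ℤ) : ZMod (p i)) ↔
      IsSquare (b : ZMod (p i)) := fun i => by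
    rw [dual_disc, isSq_four (g.prs.prime i) (g.prs.ne2 g.mdl i)]
  refine ⟨mdl₂ h.b0 h.d0 mod_dvd, g.prs, fun i hi => ?_,
    fun i hi => ?_, fun i hi hi' => absurd (Finset.mem_compl.2 hi') hi, fun i hi l₀ _ h0 => ?_, g.sq⟩
  · rw [h4]
    exact ⟨(g.v i hi).2, (g.v i hi).1⟩
  · rw [h4]
    exact ⟨(g.u i hi).2, (g.u i hi).1⟩
  · have ht := ((hp.2 i).2 (Finset.mem_compl.1 hi)).ty
    by_cases h1 : l₀ = l'
    · subst h1
      exact lc_conic h.five' h.nd2 h.ld ht.ns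
    · exact Or.inl (ht.sq h.prime' h.five' eight h0 h1)

theorem p_four (h : Good a b l l') (hp : Pr a b l l' u p) (i : Fin n) : p i % 4 = 1 := by
  by_cases hi : i ∈ u
  · have := ((hp.2 i).1 hi).ty.m8 h.prime h.five eight
    omega
  · have := ((hp.2 i).2 hi).ty.m8 h.prime' h.five' eight
    omega

/-- **The exponents.** -/
theorem exps_eq' (h : Good a b l l') (hp : Pr a b l l' u p) (hu : Even u.card)
    (hu' : Even uᶜ.card) :
    f₁ a b (∏ i, p i) = f a b + (u.card - (Mt u p).rank) ∧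
      f₂ a b (∏ i, p i) = f (-2 * a) (a ^ 2 - 4 * b) + (uᶜ.card - (Mt u p).rank) := by
  have g1 := gen₁ h hp hu hu'
  have g2 := gen₂ h hp hu hu'
  have n1 := ncard_gen' g1 fun c hc j hj =>
    ((hp.2 j).2 (Finset.mem_compl.1 hj)).ty.js h.prime' h.five' eight
      ((mul_dvd_mul_left 4 hc.2.1).trans Good.four_b) fun h1 => h.lnb (h1.trans hc.2.1)
  have n2 := ncard_gen' g2 fun c hc j hj =>
    ((hp.2 j).1 hj).ty.js h.prime h.five eight
      ((mul_dvd_mul_left 4 hc.2.1).trans Good.four_d) fun h1 => h.lnd (h1.trans hc.2.1)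
  have m1 : (Mx u uᶜ fun v w => Pool.Agent.Y703.CQ.nr (p v) (p w)) = Mt u p := by
    funext v w
    rfl
  have m2 : (Mx uᶜ u fun v w => Pool.Agent.Y703.CQ.nr (p v) (p w)) = (Mt u p).transpose := by
    funext w v
    show Pool.Agent.Y703.CQ.nr (p w) (p v) = Pool.Agent.Y703.CQ.nr (p v) (p w)
    have hne : p w ≠ p v := fun h1 => g1.disj w.2 (by rw [hp.1 h1]; exact v.2)
    rw [Run7.h268.FN.nr_rec (g1.prs.prime w) (g1.prs.ne2 g1.mdl w) (g1.prs.prime v)
      (g1.prs.ne2 g1.mdl v) hne]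
    have h5 : Run7.h268.FN.e4 (p w) * Run7.h268.FN.e4 (p v) = 0 := by
      unfold Run7.h268.FN.e4
      rw [if_pos (p_four h hp w), zero_mul]
    rw [h5, add_zero]
  rw [m1, ncard_f a h.b0] at n1
  rw [m2, Matrix.rank_transpose, ncard_f (-2 * a) h.d0] at n2
  have ee1 : ∀ D : ℤ, -2 * (a * D) = -2 * a * D := fun D => by ring
  have ee2 : ∀ D : ℤ, (a * D) ^ 2 - 4 * (b * D ^ 2) = (a ^ 2 - 4 * b) * D ^ 2 := fun D => by
    ring
  have key : ∀ j k : ℕ, Nat.log 2 (2 ^ j * 2 ^ k) = j + k := fun j k => by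
    rw [← pow_add, Nat.log_pow one_lt_two]
  constructor
  · unfold f₁
    rw [← key, ← n1, Nat.cast_prod]
    rfl
  · unfold f₂
    rw [ee1, ee2, ← key, ← n2, Nat.cast_prod]
    rfl

theorem rank_le' (p : Fin n → ℕ) : (Mt u p).rank ≤ u.card ∧ (Mt u p).rank ≤ uᶜ.card := by
  constructor
  · refine (Matrix.rank_le_card_width _).trans (le_of_eq ?_)
    rw [Fintype.card_coe]
  · refine (Matrix.rank_le_card_height _).trans (le_of_eq ?_)
    rw [Fintype.card_coe]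

theorem sel_one : selmerRank a b 1 = (f a b : ℤ) + f (-2 * a) (a ^ 2 - 4 * b) - 2 := by
  unfold selmerRank f₁ f₂
  rw [Nat.cast_one, mul_one, one_pow, mul_one]

theorem sel_rank' (h : Good a b l l') (hp : Pr a b l l' u p) (hu : Even u.card)
    (hu' : Even uᶜ.card) : selmerRank a b (∏ i, p i) =
      selmerRank a b 1 + (u.card + uᶜ.card - 2 * (Mt u p).rank) := by
  obtain ⟨h1, h2⟩ := exps_eq' h hp hu hu'
  obtain ⟨h3, h4⟩ := rank_le' (u := u) p
  rw [sel_one]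
  unfold selmerRank
  rw [h1, h2]
  push_cast [Nat.cast_sub h3, Nat.cast_sub h4]
  ring

/-- the law of an arbitrary property of the Selmer rank -/
theorem law_all (h : Good a b l l') (hu : Even u.card) (hu' : Even uᶜ.card) (hn : 1 ≤ n)
    {S : Set ℕ} (hS : Dense S a b l) (hS' : Dense S a b l') :
    (∃ (c C : ℝ) (X₀ : ℕ), 0 < c ∧ 0 < C ∧ ∀ X : ℕ, X₀ ≤ X →
      c * (X * Real.log (Real.log X) ^ (n - 1) / Real.log X) ≤
        (count (Family S a b l l' u) X : ℝ) ∧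
      (count (Family S a b l l' u) X : ℝ) ≤
        C * (X * Real.log (Real.log X) ^ (n - 1) / Real.log X)) ∧
    ∀ P : ℤ → Prop, Proportion (Family S a b l l' u) (fun D => P (selmerRank a b D))
      ((Nat.card {M : Matrix (uᶜ : Finset (Fin n)) u (ZMod 2) //
        P (selmerRank a b 1 + (u.card + uᶜ.card - 2 * M.rank))} : ℝ) /
          2 ^ (uᶜ.card * u.card)) := by
  have hE : Equivalence fun x y : ℕ => (Kind a b l x ↔ Kind a b l y) ∧
      (Kind a b l' x ↔ Kind a b l' y) :=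
    ⟨fun _ => ⟨Iff.rfl, Iff.rfl⟩, fun h => ⟨h.1.symm, h.2.symm⟩,
      fun h h' => ⟨h.1.trans h'.1, h.2.trans h'.2⟩⟩
  have hdisj : ∀ x, Kind a b l x → ¬ Kind a b l' x := fun x h1 h2 =>
    h1.ty.disj h.prime h.prime' h.ne h.lm h2.ty
  have hex : ∀ {m : ℕ}, Dense S a b m → ∃ x, x ∈ S ∧ Kind a b m x := by
    rintro m ⟨δ, Y₀, hδ, h1⟩
    by_contra hcon
    push Not at hcon
    have h2 := h1 (max Y₀ 3) (le_max_left _ _)
    have : IsEmpty {p : ℕ // p ≤ max Y₀ 3 ∧ p ∈ S ∧ Kind a b m p} :=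
      ⟨fun x => hcon x.1 x.2.2.1 x.2.2.2⟩
    rw [Nat.card_of_isEmpty, Nat.cast_zero] at h2
    have h3 : (3 : ℝ) ≤ ((max Y₀ 3 : ℕ) : ℝ) := by exact_mod_cast le_max_right _ _
    have h4 : 0 < Real.log ((max Y₀ 3 : ℕ) : ℝ) := Real.log_pos (by linarith)
    have h5 : 0 < ((max Y₀ 3 : ℕ) : ℝ) / Real.log ((max Y₀ 3 : ℕ) : ℝ) :=
      div_pos (by linarith) h4
    have h6 := mul_pos hδ h5
    linarith
  obtain ⟨x, -, hx⟩ := hex hS
  obtain ⟨y, -, hy⟩ := hex hS'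
  obtain ⟨r, hr⟩ : ∃ r : Fin n → ℕ, r = fun i => if i ∈ u then x else y := ⟨_, rfl⟩
  have hru : ∀ i, i ∈ u → r i = x := fun i hi => by rw [hr]; exact if_pos hi
  have hrv : ∀ i, i ∉ u → r i = y := fun i hi => by rw [hr]; exact if_neg hi
  have hk : ∀ i z, ((Kind a b l z ↔ Kind a b l (r i)) ∧ (Kind a b l' z ↔ Kind a b l' (r i))) ↔
      ((i ∈ u → Kind a b l z) ∧ (i ∉ u → Kind a b l' z)) := by
    intro i z
    by_cases hi : i ∈ u
    · rw [hru i hi]
      constructor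
      · exact fun h1 => ⟨fun _ => h1.1.2 hx, fun h2 => absurd hi h2⟩
      · intro h1
        exact ⟨⟨fun _ => hx, fun _ => h1.1 hi⟩, ⟨fun h2 => absurd h2 (hdisj z (h1.1 hi)),
          fun h2 => absurd h2 (hdisj x hx)⟩⟩
    · rw [hrv i hi]
      constructor
      · exact fun h1 => ⟨fun h2 => absurd h2 hi, fun _ => h1.2.2 hy⟩
      · intro h1
        exact ⟨⟨fun h2 => absurd (h1.2 hi) (hdisj z h2), fun h2 => absurd hy (hdisj y h2)⟩,
          ⟨fun _ => hy, fun _ => h1.2 hi⟩⟩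
  have hkp : ∀ i z, ((i ∈ u → Kind a b l z) ∧ (i ∉ u → Kind a b l' z)) → z.Prime ∧ z % 4 = 1 := by
    intro i z h1
    by_cases hi : i ∈ u
    · have h2 := (h1.1 hi).ty.m8 h.prime h.five eight
      exact ⟨(h1.1 hi).1, by omega⟩
    · have h2 := (h1.2 hi).ty.m8 h.prime' h.five' eight
      exact ⟨(h1.2 hi).1, by omega⟩
  have hF : Family S a b l l' u = PrdE S (fun x y : ℕ => (Kind a b l x ↔ Kind a b l y) ∧
      (Kind a b l' x ↔ Kind a b l' y)) r := by
    funext D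
    refine propext (exists_congr fun p => and_congr_right fun _ => and_congr_left fun _ =>
      forall_congr' fun i => ?_)
    exact ⟨fun h1 => ⟨(hkp i (p i) h1.2).1, h1.1, (hk i (p i)).2 h1.2⟩,
      fun h1 => ⟨h1.2.1, (hk i (p i)).1 h1.2.2⟩⟩
  have h2 : ∀ i x, x.Prime → ((Kind a b l x ↔ Kind a b l (r i)) ∧
      (Kind a b l' x ↔ Kind a b l' (r i))) → x ≠ 2 ∧ Run7.h268.FN.e4 x = 0 := by
    intro i z _ h1
    have h3 := (hkp i z ((hk i z).1 h1)).2
    refine ⟨by omega, ?_⟩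
    unfold Run7.h268.FN.e4
    rw [if_pos h3]
  have hDn : ∀ i, Pool.Agent.V11291.FK.Dn fun p => p.Prime ∧ p ∈ S ∧
      ((Kind a b l p ↔ Kind a b l (r i)) ∧ (Kind a b l' p ↔ Kind a b l' (r i))) := by
    intro i
    by_cases hi : i ∈ u
    · obtain ⟨δ, Y₀, hδ, h1⟩ := hS
      refine Run7.h268.FN.dn_of (Q := fun p => p ∈ S ∧ Kind a b l p) hδ h1 fun p hp => ?_
      exact ⟨hp.2.1, hp.1, (hk i p).2 ⟨fun _ => hp.2, fun h3 => absurd hi h3⟩⟩
    · obtain ⟨δ, Y₀, hδ, h1⟩ := hS'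
      refine Run7.h268.FN.dn_of (Q := fun p => p ∈ S ∧ Kind a b l' p) hδ h1 fun p hp => ?_
      exact ⟨hp.2.1, hp.1, (hk i p).2 ⟨fun h3 => absurd h3 hi, fun _ => hp.2⟩⟩
  have hmain := fun P : ℤ → Prop => law_fun (S := S) (E := fun x y : ℕ =>
      (Kind a b l x ↔ Kind a b l y) ∧ (Kind a b l' x ↔ Kind a b l' y)) hE (r := r)
    (e := fun _ => 0) (w := fun D => P (selmerRank a b D))
    (Φ := fun R => P (selmerRank a b 1 + (u.card + uᶜ.card - 2 * (Mx u uᶜ R).rank))) h2 hn hDn (by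
      intro p hp h1
      have hpr : Pr a b l l' u p := ⟨hp, fun i => (hk i (p i)).1 (h1 i).2.2⟩
      have h3 := sel_rank' h hpr hu hu'
      have m1 : (Mx u uᶜ fun v w => Pool.Agent.Y703.CQ.nr (p v) (p w)) = Mt u p := by
        funext v w
        rfl
      rw [m1, h3])
  rw [hF]
  refine ⟨(hmain fun _ => True).1, fun P => ?_⟩
  have h3 := (hmain P).2
  rw [frc_block u uᶜ (fun _ => 0) (fun i h1 h2 => Finset.mem_compl.1 h2 h1)
    (fun v _ w _ => mul_zero _)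
    fun M => P (selmerRank a b 1 + (u.card + uᶜ.card - 2 * M.rank))] at h3
  exact h3


/-- a prime factor `≥ 5` of odd exponent -/
theorem exists_odd {x : ℤ} (h : ∀ c : ℤ, c ∣ 6 → ¬ IsSquare (c * x)) :
    ∃ l : ℕ, l.Prime ∧ 5 ≤ l ∧ Odd (padicValInt l x) := by
  have hx : x ≠ 0 := by
    rintro rfl
    exact h 1 (one_dvd _) ⟨0, by ring⟩
  obtain ⟨d, w, hd, hw, hxd⟩ := exists_sqf hx
  by_contra hcon
  push Not at hcon
  have key : ∀ l : ℕ, l.Prime → l ∣ d.natAbs → l ∣ 6 := by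
    intro l hl hld
    have : Fact l.Prime := ⟨hl⟩
    by_contra hl6
    have h2 : l ≠ 2 := fun h => hl6 (by rw [h]; norm_num)
    have h3 : l ≠ 3 := fun h => hl6 (by rw [h]; norm_num)
    have h5 : 5 ≤ l := by
      have h1 := hl.two_le
      have h4 : l ≠ 4 := by
        rintro rfl
        norm_num at hl
      omega
    refine hcon l hl h5 ?_
    have hd1 : padicValInt l d = 1 := by
      have h6 : padicValNat l d.natAbs = 1 := by
        have h7 : Squarefree d.natAbs := Int.squarefree_natAbs.2 hd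
        have h8 : d.natAbs ≠ 0 := h7.ne_zero
        rw [← Nat.factorization_def _ hl]
        exact le_antisymm ((Nat.squarefree_iff_factorization_le_one h8).1 h7 l)
          ((hl.dvd_iff_one_le_factorization h8).1 hld)
      exact h6
    rw [hxd, padicValInt.mul hd.ne_zero (pow_ne_zero 2 hw), hd1, pow_two,
      padicValInt.mul hw hw]
    exact ⟨padicValInt l w, by omega⟩
  have h6 : d.natAbs ∣ 6 := by
    have h7 : Squarefree d.natAbs := Int.squarefree_natAbs.2 hd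
    rw [← Nat.prod_primeFactors_of_squarefree h7]
    refine Finset.prod_primes_dvd 6 (fun l hl => (Nat.prime_of_mem_primeFactors hl).prime)
      fun l hl => key l (Nat.prime_of_mem_primeFactors hl) (Nat.dvd_of_mem_primeFactors hl)
  refine h d (Int.natAbs_dvd.1 (by exact_mod_cast h6)) ⟨d * w, ?_⟩
  rw [hxd]
  ring

/-- **Almost all curves.** -/
theorem exists_good (hab : IsCoprime a b)
    (h : ∀ c : ℤ, c ∣ 6 → ¬ IsSquare (c * b) ∧ ¬ IsSquare (c * (a ^ 2 - 4 * b))) :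
    ∃ l l' : ℕ, Good a b l l' := by
  obtain ⟨l, h1, h2, h3⟩ := exists_odd fun c hc => (h c hc).1
  obtain ⟨l', h1', h2', h3'⟩ := exists_odd fun c hc => (h c hc).2
  have key : ∀ p : ℕ, p.Prime → (p : ℤ) ∣ b → ¬ (p : ℤ) ∣ a := fun p hp h4 h5 =>
    hp.one_lt.ne' (by
      have h6 := Int.isUnit_iff_natAbs_eq.1 (hab.isUnit_of_dvd' h5 h4)
      simpa using h6)
  refine ⟨l, l', h1, h1', h2, h2', key l h1 (dvd_of_odd h1 h3), fun h4 => ?_, h3, h3'⟩
  have h5 := dvd_of_odd h1' h3'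
  have h6 : (l' : ℤ) ∣ 4 * b := by
    have e : 4 * b = a * a - (a ^ 2 - 4 * b) := by ring
    rw [e]
    exact dvd_sub (h4.mul_right _) h5
  rcases Int.Prime.dvd_mul' h1' h6 with h7 | h7
  · have h8 : (l' : ℤ) ∣ 2 ^ 2 := by
      norm_num
      exact h7
    have h9 : l' ∣ 2 := by exact_mod_cast Int.Prime.dvd_pow' h1' h8
    have := Nat.le_of_dvd (by norm_num) h9
    omega
  · exact key l' h1' h7 h4

/-- **The primes of a kind have positive density.** -/
theorem dense_kind {l : ℕ} (hl : l.Prime) (h5 : 5 ≤ l) (hb : b ≠ 0) (hd : a ^ 2 - 4 * b ≠ 0) :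
    Dense Set.univ a b l := by
  have : Fact l.Prime := ⟨hl⟩
  have hm0 : modulus a b ≠ 0 := by
    unfold modulus
    exact mul_ne_zero (by norm_num) (Int.natAbs_ne_zero.2 (mul_ne_zero hb hd))
  have hco : Nat.Coprime (ordCompl[l] (modulus a b)) l :=
    (Nat.coprime_ordCompl hl hm0).symm
  have h8 : 8 ∣ ordCompl[l] (modulus a b) := dvd_oc hl eight (nd_eight hl h5)
  have hQ0 : ordCompl[l] (modulus a b) ≠ 0 := (Nat.ordCompl_pos l hm0).ne'
  obtain ⟨g, hg⟩ : ∃ g : ZMod l, ¬ IsSquare g :=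
    FiniteField.exists_nonsquare (by rw [ZMod.ringChar_zmod_n]; omega)
  have hg0 : g ≠ 0 := by
    rintro rfl
    exact hg ⟨0, by simp⟩
  generalize hQ : ordCompl[l] (modulus a b) = Q at hco h8 hQ0
  obtain ⟨k, hk1, hk2⟩ := Nat.chineseRemainder hco 1 g.val
  have hkg : (k : ZMod l) = g := by
    rw [(ZMod.natCast_eq_natCast_iff _ _ _).2 hk2, ZMod.natCast_zmod_val]
  have hkQ : Nat.Coprime k Q := by
    have h1 : Nat.gcd k Q = Nat.gcd 1 Q := hk1.gcd_eq
    rw [Nat.Coprime, h1, Nat.gcd_one_left]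
  have hkl : Nat.Coprime k l := by
    rw [Nat.coprime_comm, Nat.Prime.coprime_iff_not_dvd hl, ← ZMod.natCast_eq_zero_iff, hkg]
    exact hg0
  have hQ1 : 1 < Q := by
    have := Nat.le_of_dvd (Nat.pos_of_ne_zero hQ0) h8
    omega
  have hpos : 1 ≤ Q * l := Nat.mul_pos (by omega) hl.pos
  obtain ⟨δ, Y₀, hδ, h0⟩ := Pool.Agent.V11291.FK.Cb.pai_low' (Q * l) hpos k
    (Nat.Coprime.mul_right hkQ hkl)
  refine ⟨δ, Y₀, hδ, fun Y hY => (h0 Y hY).trans ?_⟩
  have e : Nat.card {p : ℕ // p ≤ Y ∧ p ∈ (Set.univ : Set ℕ) ∧ Kind a b l p} =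
      ((Finset.range (Y + 1)).filter (Kind a b l)).card := by
    refine Nat.subtype_card _ fun p => ?_
    simp only [Finset.mem_filter, Finset.mem_range, Nat.lt_succ_iff, Set.mem_univ, true_and]
  rw [e]
  refine Nat.cast_le.2 (Finset.card_le_card fun p hp => ?_)
  simp only [Finset.mem_filter, Finset.mem_range] at hp ⊢
  obtain ⟨h1, h2, h3⟩ := hp
  have h4 : p ≡ k [MOD Q * l] := h3
  refine ⟨h1, h2, ?_, ?_⟩
  · have h6 : p ≡ k [MOD l] := h4.of_dvd (dvd_mul_left _ _)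
    rw [(ZMod.natCast_eq_natCast_iff p k l).2 h6, hkg]
    exact hg
  · rw [hQ]
    have h6 : p ≡ 1 [MOD Q] := (h4.of_dvd (dvd_mul_right _ _)).trans hk1
    have h7 : p % Q = 1 % Q := h6
    rw [h7, Nat.mod_eq_of_lt hQ1]

theorem twist_bound' (h : Good a b l l') {D : ℕ} (hD : D ≠ 0) : Finite (ShaTwo (twist a b D)) ∧
    4 * (2 ^ rank (twist a b D) * Nat.card (ShaTwo (twist a b D))) ≤ 2 ^ (f₁ a b D + f₂ a b D) := by
  have hD0 : (D : ℤ) ≠ 0 := by exact_mod_cast hD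
  refine rank_bound (mul_ne_zero h.b0 (pow_ne_zero 2 hD0)) ?_
  have e : (a * (D : ℤ)) ^ 2 - 4 * (b * (D : ℤ) ^ 2) = (a ^ 2 - 4 * b) * (D : ℤ) ^ 2 := by ring
  rw [e]
  exact mul_ne_zero h.d0 (pow_ne_zero 2 hD0)

/-- the bound with the Selmer rank -/
theorem two_le (h : Good a b l l') {D : ℕ} (hD : D ≠ 0) : Finite (ShaTwo (twist a b D)) ∧
    0 ≤ selmerRank a b D ∧ 0 < Nat.card (ShaTwo (twist a b D)) ∧
    2 ^ rank (twist a b D) * Nat.card (ShaTwo (twist a b D)) ≤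
      2 ^ (selmerRank a b D).toNat := by
  obtain ⟨h1, h2⟩ := twist_bound' h hD
  have h3 : 0 < Nat.card (ShaTwo (twist a b D)) := by
    have : Nonempty (ShaTwo (twist a b D)) := ⟨⟨0, smul_zero 2⟩⟩
    exact Nat.card_pos
  have h4 : 0 < 2 ^ rank (twist a b D) := by positivity
  have h5 : 2 ^ 2 ≤ 2 ^ (f₁ a b D + f₂ a b D) := by
    have := Nat.mul_pos h4 h3
    omega
  have h6 := (Nat.pow_le_pow_iff_right (by norm_num : 1 < 2)).1 h5
  obtain ⟨k, hk⟩ := Nat.exists_eq_add_of_le h6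
  have h7 : selmerRank a b D = k := by
    unfold selmerRank
    omega
  refine ⟨h1, by omega, h3, ?_⟩
  rw [h7, Int.toNat_natCast]
  rw [hk, pow_add] at h2
  omega

theorem fam_ne {S : Set ℕ} {D : ℕ} (hD : Family S a b l l' u D) : D ≠ 0 := by
  obtain ⟨p, -, hp, rfl⟩ := hD
  refine Finset.prod_ne_zero_iff.2 fun i _ => ?_
  by_cases hi : i ∈ u
  · exact ((hp i).2.1 hi).1.ne_zero
  · exact ((hp i).2.2 hi).1.ne_zero

theorem card_n : (u.card : ℤ) + uᶜ.card = n := by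
  have h := Finset.card_add_card_compl u
  rw [Fintype.card_fin] at h
  exact_mod_cast h

theorem card_mat : Nat.card (Matrix (uᶜ : Finset (Fin n)) u (ZMod 2)) = 2 ^ (uᶜ.card * u.card) := by
  unfold Matrix
  rw [Nat.card_fun, Nat.card_fun, Nat.card_eq_fintype_card, Nat.card_eq_fintype_card,
    Nat.card_eq_fintype_card, ZMod.card, Fintype.card_coe, Fintype.card_coe, ← pow_mul, mul_comm]

end proof

end Run7.h268.U.Thin
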