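import Pool.Agent.Run7.h268.U.SimDefs
import Pool.Agent.Run7.h268.U.Thin

/-!
# Several curves at the same time: the proofs
-/

set_option autoImplicit false

open Filter Topology
open scoped Classical

namespace Run7.h268.U.Sim

open Run7.h268.U
open Run7.h268.U.Thin (modulus selmerRank Pr Mt nr count Proportion prop eight)

variable {a b : ℤ} {N l l' n : ℕ} {u : Finset (Fin n)} {p : Fin n → ℕ}

/-- the kinds of a multiple of the modulus -/
theorem Kind.thin {p : ℕ} (h : Kind N l p) (hl : l.Prime) (h5 : 5 ≤ l) (hN : modulus a b ∣ N) :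
    Thin.Kind a b l p := by
  refine ⟨h.1, h.2.1, ?_⟩
  have ht : Ty N l p := ⟨h.1, h.2.2, h.2.1⟩
  by_cases hm0 : modulus a b = 0
  · have h1 : N = 0 := Nat.eq_zero_of_zero_dvd (hm0 ▸ hN)
    have h2 := h.2.2
    rw [h1] at h2
    rw [hm0]
    exact h2
  · have h1 : ordCompl[l] (modulus a b) ∣ N := (Nat.ordCompl_dvd _ _).trans hN
    have h2 : ¬ l ∣ ordCompl[l] (modulus a b) := Nat.not_dvd_ordCompl hl hm0
    rw [ht.mod hl h1 h2]
    refine Nat.mod_eq_of_lt ?_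
    have h8 : 8 ∣ ordCompl[l] (modulus a b) := dvd_oc hl eight (nd_eight hl h5)
    have := Nat.le_of_dvd (Nat.ordCompl_pos l hm0) h8
    omega

/-- the primes of all the curves -/
theorem pr_of (h : Thin.Good a b l l') (hN : modulus a b ∣ N) (hp : Function.Injective p)
    (hk : ∀ i, (i ∈ u → Kind N l (p i)) ∧ (i ∉ u → Kind N l' (p i))) : Pr a b l l' u p :=
  ⟨hp, fun i => ⟨fun hi => ((hk i).1 hi).thin h.prime h.five hN,
    fun hi => ((hk i).2 hi).thin h.prime' h.five' hN⟩⟩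

theorem good_twist (h : Thin.Good a b l l') {d : ℤ} (hd : ¬ (l : ℤ) ∣ d) (hd' : ¬ (l' : ℤ) ∣ d) :
    Thin.Good (a * d) (b * d ^ 2) l l' := by
  have : Fact l.Prime := ⟨h.prime⟩
  have : Fact l'.Prime := ⟨h.prime'⟩
  have hd0 : d ≠ 0 := fun h0 => hd (by rw [h0]; exact dvd_zero _)
  have key : ∀ {m : ℕ} [Fact m.Prime], ¬ (m : ℤ) ∣ d → padicValInt m (d ^ 2) = 0 := by
    intro m _ hm
    rw [pow_two, padicValInt.mul hd0 hd0, padicValInt.eq_zero_of_not_dvd hm]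
  refine ⟨h.prime, h.prime', h.five, h.five', fun h1 => ?_, fun h1 => ?_, ?_, ?_⟩
  · exact (Int.Prime.dvd_mul' h.prime h1).elim h.nd hd
  · exact (Int.Prime.dvd_mul' h.prime' h1).elim h.nd' hd'
  · rw [padicValInt.mul h.b0 (pow_ne_zero 2 hd0), key hd, add_zero]
    exact h.odd
  · have e : (a * d) ^ 2 - 4 * (b * d ^ 2) = (a ^ 2 - 4 * b) * d ^ 2 := by ring
    rw [e, padicValInt.mul h.d0 (pow_ne_zero 2 hd0), key hd', add_zero]
    exact h.odd'

theorem fam_ne {S : Set ℕ} {D : ℕ} (hD : Family S N l l' u D) : D ≠ 0 := by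
  obtain ⟨p, -, hp, rfl⟩ := hD
  refine Finset.prod_ne_zero_iff.2 fun i _ => ?_
  by_cases hi : i ∈ u
  · exact ((hp i).2.1 hi).1.ne_zero
  · exact ((hp i).2.2 hi).1.ne_zero

/-- the law of an arbitrary property of the Selmer ranks of all the curves -/
theorem law_all {k : ℕ} {A B : Fin (k + 1) → ℤ} (h : ∀ i, Thin.Good (A i) (B i) l l')
    (hN : ∀ i, modulus (A i) (B i) ∣ N) (hu : Even u.card) (hu' : Even uᶜ.card) (hn : 1 ≤ n)
    {S : Set ℕ} (hS : Dense S N l) (hS' : Dense S N l') :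
    (∃ (c C : ℝ) (X₀ : ℕ), 0 < c ∧ 0 < C ∧ ∀ X : ℕ, X₀ ≤ X →
      c * (X * Real.log (Real.log X) ^ (n - 1) / Real.log X) ≤
        (count (Family S N l l' u) X : ℝ) ∧
      (count (Family S N l l' u) X : ℝ) ≤
        C * (X * Real.log (Real.log X) ^ (n - 1) / Real.log X)) ∧
    ∀ P : (Fin (k + 1) → ℤ) → Prop, Proportion (Family S N l l' u)
      (fun D => P fun i => selmerRank (A i) (B i) D)
      ((Nat.card {M : Matrix (uᶜ : Finset (Fin n)) u (ZMod 2) //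
        P fun i => selmerRank (A i) (B i) 1 + (u.card + uᶜ.card - 2 * M.rank)} : ℝ) /
          2 ^ (uᶜ.card * u.card)) := by
  have h0 := h 0
  have hE : Equivalence fun x y : ℕ => (Kind N l x ↔ Kind N l y) ∧
      (Kind N l' x ↔ Kind N l' y) :=
    ⟨fun _ => ⟨Iff.rfl, Iff.rfl⟩, fun h => ⟨h.1.symm, h.2.symm⟩,
      fun h h' => ⟨h.1.trans h'.1, h.2.trans h'.2⟩⟩
  have hdisj : ∀ x, Kind N l x → ¬ Kind N l' x := fun x h1 h2 =>
    (h1.thin h0.prime h0.five (hN 0)).ty.disj h0.prime h0.prime' h0.ne h0.lm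
      (h2.thin h0.prime' h0.five' (hN 0)).ty
  have hex : ∀ {m : ℕ}, Dense S N m → ∃ x, x ∈ S ∧ Kind N m x := by
    rintro m ⟨δ, Y₀, hδ, h1⟩
    by_contra hcon
    push Not at hcon
    have h2 := h1 (max Y₀ 3) (le_max_left _ _)
    have : IsEmpty {p : ℕ // p ≤ max Y₀ 3 ∧ p ∈ S ∧ Kind N m p} :=
      ⟨fun x => hcon x.1 x.2.2.1 x.2.2.2⟩
    rw [Nat.card_of_isEmpty, Nat.cast_zero] at h2
    have h3 : (3 : ℝ) ≤ ((max Y₀ 3 : ℕ) : ℝ) := by exact_mod_cast le_max_right _ _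
    have h4 : 0 < Real.log ((max Y₀ 3 : ℕ) : ℝ) := Real.log_pos (by linarith)
    have h5 : 0 < ((max Y₀ 3 : ℕ) : ℝ) / Real.log ((max Y₀ 3 : ℕ) : ℝ) :=
      div_pos (by linarith) h4
    have h6 := mul_pos hδ h5
    linarith
  obtain ⟨x, -, hx⟩ := hex hS
  obtain ⟨y, -, hy⟩ := hex hS'
  obtain ⟨r, hr⟩ : ∃ r : Fin n → ℕ, r = fun i => if i ∈ u then x else y := ⟨_, rfl⟩
  have hru : ∀ i, i ∈ u → r i = x := fun i hi => by rw [hr]; exact if_pos hi
  have hrv : ∀ i, i ∉ u → r i = y := fun i hi => by rw [hr]; exact if_neg hi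
  have hk : ∀ i z, ((Kind N l z ↔ Kind N l (r i)) ∧ (Kind N l' z ↔ Kind N l' (r i))) ↔
      ((i ∈ u → Kind N l z) ∧ (i ∉ u → Kind N l' z)) := by
    intro i z
    by_cases hi : i ∈ u
    · rw [hru i hi]
      constructor
      · exact fun h1 => ⟨fun _ => h1.1.2 hx, fun h2 => absurd hi h2⟩
      · intro h1
        exact ⟨⟨fun _ => hx, fun _ => h1.1 hi⟩, ⟨fun h2 => absurd h2 (hdisj z (h1.1 hi)),
          fun h2 => absurd h2 (hdisj x hx)⟩⟩
    · rw [hrv i hi]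
      constructor
      · exact fun h1 => ⟨fun h2 => absurd h2 hi, fun _ => h1.2.2 hy⟩
      · intro h1
        exact ⟨⟨fun h2 => absurd (h1.2 hi) (hdisj z h2), fun h2 => absurd hy (hdisj y h2)⟩,
          ⟨fun _ => hy, fun _ => h1.2 hi⟩⟩
  have hkp : ∀ i z, ((i ∈ u → Kind N l z) ∧ (i ∉ u → Kind N l' z)) → z.Prime ∧ z % 4 = 1 := by
    intro i z h1
    by_cases hi : i ∈ u
    · have h2 := ((h1.1 hi).thin h0.prime h0.five (hN 0)).ty.m8 h0.prime h0.five eight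
      exact ⟨(h1.1 hi).1, by omega⟩
    · have h2 := ((h1.2 hi).thin h0.prime' h0.five' (hN 0)).ty.m8 h0.prime' h0.five' eight
      exact ⟨(h1.2 hi).1, by omega⟩
  have hF : Family S N l l' u = PrdE S (fun x y : ℕ => (Kind N l x ↔ Kind N l y) ∧
      (Kind N l' x ↔ Kind N l' y)) r := by
    funext D
    refine propext (exists_congr fun p => and_congr_right fun _ => and_congr_left fun _ =>
      forall_congr' fun i => ?_)
    exact ⟨fun h1 => ⟨(hkp i (p i) h1.2).1, h1.1, (hk i (p i)).2 h1.2⟩,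
      fun h1 => ⟨h1.2.1, (hk i (p i)).1 h1.2.2⟩⟩
  have h2 : ∀ i x, x.Prime → ((Kind N l x ↔ Kind N l (r i)) ∧
      (Kind N l' x ↔ Kind N l' (r i))) → x ≠ 2 ∧ Run7.h268.FN.e4 x = 0 := by
    intro i z _ h1
    have h3 := (hkp i z ((hk i z).1 h1)).2
    refine ⟨by omega, ?_⟩
    unfold Run7.h268.FN.e4
    rw [if_pos h3]
  have hDn : ∀ i, Pool.Agent.V11291.FK.Dn fun p => p.Prime ∧ p ∈ S ∧
      ((Kind N l p ↔ Kind N l (r i)) ∧ (Kind N l' p ↔ Kind N l' (r i))) := by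
    intro i
    by_cases hi : i ∈ u
    · obtain ⟨δ, Y₀, hδ, h1⟩ := hS
      refine Run7.h268.FN.dn_of (Q := fun p => p ∈ S ∧ Kind N l p) hδ h1 fun p hp => ?_
      exact ⟨hp.2.1, hp.1, (hk i p).2 ⟨fun _ => hp.2, fun h3 => absurd hi h3⟩⟩
    · obtain ⟨δ, Y₀, hδ, h1⟩ := hS'
      refine Run7.h268.FN.dn_of (Q := fun p => p ∈ S ∧ Kind N l' p) hδ h1 fun p hp => ?_
      exact ⟨hp.2.1, hp.1, (hk i p).2 ⟨fun h3 => absurd h3 hi, fun _ => hp.2⟩⟩
  have hmain := fun P : (Fin (k + 1) → ℤ) → Prop => law_fun (S := S) (E := fun x y : ℕ =>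
      (Kind N l x ↔ Kind N l y) ∧ (Kind N l' x ↔ Kind N l' y)) hE (r := r)
    (e := fun _ => 0) (w := fun D => P fun i => selmerRank (A i) (B i) D)
    (Φ := fun R => P fun i =>
      selmerRank (A i) (B i) 1 + (u.card + uᶜ.card - 2 * (Mx u uᶜ R).rank)) h2 hn hDn (by
      intro p hp h1
      have m1 : (Mx u uᶜ fun v w => Pool.Agent.Y703.CQ.nr (p v) (p w)) = Mt u p := by
        funext v w
        rfl
      have h3 : (fun i => selmerRank (A i) (B i) (∏ j, p j)) = fun i =>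
          selmerRank (A i) (B i) 1 + (u.card + uᶜ.card - 2 * (Mt u p).rank) := by
        funext i
        exact Thin.sel_rank' (h i) (pr_of (h i) (hN i) hp fun j => (hk j (p j)).1 (h1 j).2.2)
          hu hu'
      rw [m1, h3])
  rw [hF]
  refine ⟨(hmain fun _ => True).1, fun P => ?_⟩
  have h3 := (hmain P).2
  rw [frc_block u uᶜ (fun _ => 0) (fun i h1 h2 => Finset.mem_compl.1 h2 h1)
    (fun v _ w _ => mul_zero _)
    fun M => P fun i => selmerRank (A i) (B i) 1 + (u.card + uᶜ.card - 2 * M.rank)] at h3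
  exact h3

/-- **The primes of a kind have positive density.** -/
theorem dense_kind (hl : l.Prime) (h5 : 5 ≤ l) (hm0 : N ≠ 0) (h8' : 8 ∣ N) :
    Dense Set.univ N l := by
  have : Fact l.Prime := ⟨hl⟩
  have hco : Nat.Coprime (ordCompl[l] N) l := (Nat.coprime_ordCompl hl hm0).symm
  have h8 : 8 ∣ ordCompl[l] N := dvd_oc hl h8' (nd_eight hl h5)
  have hQ0 : ordCompl[l] N ≠ 0 := (Nat.ordCompl_pos l hm0).ne'
  obtain ⟨g, hg⟩ : ∃ g : ZMod l, ¬ IsSquare g :=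
    FiniteField.exists_nonsquare (by rw [ZMod.ringChar_zmod_n]; omega)
  have hg0 : g ≠ 0 := by
    rintro rfl
    exact hg ⟨0, by simp⟩
  generalize hQ : ordCompl[l] N = Q at hco h8 hQ0
  obtain ⟨k, hk1, hk2⟩ := Nat.chineseRemainder hco 1 g.val
  have hkg : (k : ZMod l) = g := by
    rw [(ZMod.natCast_eq_natCast_iff _ _ _).2 hk2, ZMod.natCast_zmod_val]
  have hkQ : Nat.Coprime k Q := by
    have h1 : Nat.gcd k Q = Nat.gcd 1 Q := hk1.gcd_eq
    rw [Nat.Coprime, h1, Nat.gcd_one_left]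
  have hkl : Nat.Coprime k l := by
    rw [Nat.coprime_comm, Nat.Prime.coprime_iff_not_dvd hl, ← ZMod.natCast_eq_zero_iff, hkg]
    exact hg0
  have hQ1 : 1 < Q := by
    have := Nat.le_of_dvd (Nat.pos_of_ne_zero hQ0) h8
    omega
  have hpos : 1 ≤ Q * l := Nat.mul_pos (by omega) hl.pos
  obtain ⟨δ, Y₀, hδ, h0⟩ := Pool.Agent.V11291.FK.Cb.pai_low' (Q * l) hpos k
    (Nat.Coprime.mul_right hkQ hkl)
  refine ⟨δ, Y₀, hδ, fun Y hY => (h0 Y hY).trans ?_⟩
  have e : Nat.card {p : ℕ // p ≤ Y ∧ p ∈ (Set.univ : Set ℕ) ∧ Kind N l p} =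
      ((Finset.range (Y + 1)).filter (Kind N l)).card := by
    refine Nat.subtype_card _ fun p => ?_
    simp only [Finset.mem_filter, Finset.mem_range, Nat.lt_succ_iff, Set.mem_univ, true_and]
  rw [e]
  refine Nat.cast_le.2 (Finset.card_le_card fun p hp => ?_)
  simp only [Finset.mem_filter, Finset.mem_range] at hp ⊢
  obtain ⟨h1, h2, h3⟩ := hp
  have h4 : p ≡ k [MOD Q * l] := h3
  refine ⟨h1, h2, ?_, ?_⟩
  · have h6 : p ≡ k [MOD l] := h4.of_dvd (dvd_mul_left _ _)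
    rw [(ZMod.natCast_eq_natCast_iff p k l).2 h6, hkg]
    exact hg
  · rw [hQ]
    have h6 : p ≡ 1 [MOD Q] := (h4.of_dvd (dvd_mul_right _ _)).trans hk1
    have h7 : p % Q = 1 % Q := h6
    rw [h7, Nat.mod_eq_of_lt hQ1]

end Run7.h268.U.Sim
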