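import Pool.Agent.Run7.h268.U.Defs

/-!
# The definitions for several curves at the same time
-/

set_option autoImplicit false

namespace Run7.h268.U.Sim

/-- the primes which are not a square modulo `l` and `1` modulo the part of `N` prime to `l` -/
def Kind (N l p : ℕ) : Prop :=
  p.Prime ∧ ¬ IsSquare (p : ZMod l) ∧ p % ordCompl[l] N = 1

/-- `D` is the product of `n` different primes `p i` in `S`, of the first kind (`l`) for the `i ∈ u` and of
the second kind (`l'`) for the other `i` -/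
def Family (S : Set ℕ) (N l l' : ℕ) {n : ℕ} (u : Finset (Fin n)) (D : ℕ) : Prop :=
  ∃ p : Fin n → ℕ, Function.Injective p ∧
    (∀ i, p i ∈ S ∧ (i ∈ u → Kind N l (p i)) ∧ (i ∉ u → Kind N l' (p i))) ∧ D = ∏ i, p i

/-- at least a positive proportion of the primes up to `Y` is in `S` and of the kind `l`, for all
large `Y` -/
def Dense (S : Set ℕ) (N l : ℕ) : Prop :=
  ∃ (δ : ℝ) (Y₀ : ℕ), 0 < δ ∧ ∀ Y : ℕ, Y₀ ≤ Y →
    δ * (Y / Real.log Y) ≤ (Nat.card {p : ℕ // p ≤ Y ∧ p ∈ S ∧ Kind N l p} : ℝ)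

end Run7.h268.U.Sim
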