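import Mathlib

/-!
# The torsion of the twists `y² = x³ + a D x² + b D² x` is the two-torsion for all but finitely many `D`
-/

set_option autoImplicit false

namespace Run7.h268.U.Tor

/-! ### heights of rational numbers -/

/-- the height -/
def ht (x : ℚ) : ℕ := max x.num.natAbs x.den

theorem finite_ht (K : ℕ) : {x : ℚ | ht x ≤ K}.Finite := by
  have h : {x : ℚ | ht x ≤ K} ⊆ (fun z : ℤ × ℕ => (z.1 : ℚ) / z.2) ''
      (Set.Icc (-(K : ℤ)) K ×ˢ Set.Icc 0 K) := by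
    intro x hx
    have h1 : ht x ≤ K := hx
    unfold ht at h1
    refine ⟨(x.num, x.den), ⟨⟨?_, ?_⟩, Nat.zero_le _, ?_⟩, Rat.num_div_den x⟩
    · have := le_max_left x.num.natAbs x.den
      simp only
      omega
    · have := le_max_left x.num.natAbs x.den
      simp only
      omega
    · exact (le_max_right _ _).trans h1
  exact (Set.Finite.image _ ((Set.finite_Icc _ _).prod (Set.finite_Icc _ _))).subset h

variable {a b : ℤ}

/-- the numerator of the duplication map -/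
def F0 (b X Z : ℤ) : ℤ := (X ^ 2 - b * Z ^ 2) ^ 2

/-- the denominator -/
def F1 (a b X Z : ℤ) : ℤ := 4 * X * Z * (X ^ 2 + a * X * Z + b * Z ^ 2)

theorem cert_Z (a b X Z : ℤ) :
    4 * Z * (-3 * X ^ 2 - 2 * a * X * Z + (a ^ 2 - 4 * b) * Z ^ 2) * F0 b X Z +
      (3 * X ^ 3 - a * X ^ 2 * Z - 5 * b * X * Z ^ 2 + 2 * a * b * Z ^ 3) * F1 a b X Z =
      4 * (a ^ 2 - 4 * b) * b ^ 2 * Z ^ 7 := by
  unfold F0 F1
  ring

theorem cert_X (a b X Z : ℤ) :
    4 * X * (-3 * b ^ 2 * Z ^ 2 - 2 * a * b * X * Z + (a ^ 2 - 4 * b) * X ^ 2) * F0 b X Z +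
      (3 * b ^ 3 * Z ^ 3 - a * b ^ 2 * X * Z ^ 2 - 5 * b ^ 2 * X ^ 2 * Z + 2 * a * b * X ^ 3) *
        F1 a b X Z = 4 * (a ^ 2 - 4 * b) * X ^ 7 := by
  unfold F0 F1
  ring

/-- the bound for the cubic forms -/
theorem cubic_le {H : ℤ} {c0 c1 c2 c3 X Z : ℤ} (hX : |X| ≤ H) (hZ : |Z| ≤ H) :
    |c0 * X ^ 3 + c1 * X ^ 2 * Z + c2 * X * Z ^ 2 + c3 * Z ^ 3| ≤
      (|c0| + |c1| + |c2| + |c3|) * H ^ 3 := by
  have hH : 0 ≤ H := (abs_nonneg X).trans hX
  have h1 : |X| * |X| ≤ H * H := mul_le_mul hX hX (abs_nonneg _) hH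
  have h2 : |Z| * |Z| ≤ H * H := mul_le_mul hZ hZ (abs_nonneg _) hH
  have t0 : |c0 * X ^ 3| ≤ |c0| * H ^ 3 := by
    rw [abs_mul, abs_pow]
    exact mul_le_mul_of_nonneg_left (pow_le_pow_left₀ (abs_nonneg _) hX 3) (abs_nonneg _)
  have t1 : |c1 * X ^ 2 * Z| ≤ |c1| * H ^ 3 := by
    rw [mul_assoc, abs_mul, abs_mul, abs_pow, pow_succ H 2]
    exact mul_le_mul_of_nonneg_left (mul_le_mul (pow_le_pow_left₀ (abs_nonneg _) hX 2) hZ
      (abs_nonneg _) (by positivity)) (abs_nonneg _)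
  have t2 : |c2 * X * Z ^ 2| ≤ |c2| * H ^ 3 := by
    rw [mul_assoc, abs_mul, abs_mul, abs_pow, pow_succ' H 2]
    exact mul_le_mul_of_nonneg_left (mul_le_mul hX (pow_le_pow_left₀ (abs_nonneg _) hZ 2)
      (by positivity) hH) (abs_nonneg _)
  have t3 : |c3 * Z ^ 3| ≤ |c3| * H ^ 3 := by
    rw [abs_mul, abs_pow]
    exact mul_le_mul_of_nonneg_left (pow_le_pow_left₀ (abs_nonneg _) hZ 3) (abs_nonneg _)
  calc |c0 * X ^ 3 + c1 * X ^ 2 * Z + c2 * X * Z ^ 2 + c3 * Z ^ 3|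
      ≤ |c0 * X ^ 3 + c1 * X ^ 2 * Z + c2 * X * Z ^ 2| + |c3 * Z ^ 3| := abs_add_le _ _
    _ ≤ |c0 * X ^ 3 + c1 * X ^ 2 * Z| + |c2 * X * Z ^ 2| + |c3 * Z ^ 3| := by
        have := abs_add_le (c0 * X ^ 3 + c1 * X ^ 2 * Z) (c2 * X * Z ^ 2)
        linarith
    _ ≤ |c0 * X ^ 3| + |c1 * X ^ 2 * Z| + |c2 * X * Z ^ 2| + |c3 * Z ^ 3| := by
        have := abs_add_le (c0 * X ^ 3) (c1 * X ^ 2 * Z)
        linarith
    _ ≤ _ := by linarith

/-- the constant of the forms -/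
def C0 (a b : ℤ) : ℤ :=
  (12 + |8 * a| + |4 * (a ^ 2 - 4 * b)|) + (3 + |a| + |5 * b| + |2 * a * b|) +
    ((12 * b ^ 2 + |8 * a * b| + |4 * (a ^ 2 - 4 * b)|) +
      (|3 * b ^ 3| + |a * b ^ 2| + 5 * b ^ 2 + |2 * a * b|))

/-- **the height of the image is at least a constant times the fourth power of the height** -/
theorem ht_dup (hb : b ≠ 0) (hD : a ^ 2 - 4 * b ≠ 0) : ∃ K : ℕ, 1 ≤ K ∧ ∀ x y : ℚ,
    4 * x * (x ^ 2 + a * x + b) ≠ 0 → y * (4 * x * (x ^ 2 + a * x + b)) = (x ^ 2 - b) ^ 2 →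
      ht x ^ 4 ≤ K * ht y := by
  set R : ℤ := 4 * (a ^ 2 - 4 * b) * b ^ 2 with hR
  have hR0 : R ≠ 0 := mul_ne_zero (mul_ne_zero (by norm_num) hD) (pow_ne_zero 2 hb)
  refine ⟨(2 * C0 a b * |R|).natAbs + 1, by omega, fun x y hx hxy => ?_⟩
  obtain ⟨X, hXd⟩ : ∃ X : ℤ, X = x.num := ⟨_, rfl⟩
  obtain ⟨Z, hZd⟩ : ∃ Z : ℤ, Z = ((x.den : ℕ) : ℤ) := ⟨_, rfl⟩
  have hZ0 : Z ≠ 0 := by
    rw [hZd]
    exact_mod_cast x.den_nz
  have hZQ : (Z : ℚ) ≠ 0 := by exact_mod_cast hZ0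
  have hxe : x = X / Z := by
    rw [hXd, hZd, Int.cast_natCast]
    exact (Rat.num_div_den x).symm
  obtain ⟨N, hNd⟩ : ∃ N : ℤ, N = y.num := ⟨_, rfl⟩
  obtain ⟨d, hdd⟩ : ∃ d : ℤ, d = ((y.den : ℕ) : ℤ) := ⟨_, rfl⟩
  have hd0 : d ≠ 0 := by
    rw [hdd]
    exact_mod_cast y.den_nz
  have hdQ : (d : ℚ) ≠ 0 := by exact_mod_cast hd0
  have hye : y = N / d := by
    rw [hNd, hdd, Int.cast_natCast]
    exact (Rat.num_div_den y).symm
  -- the integral equation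
  have q1 : 4 * x * (x ^ 2 + a * x + b) = ((F1 a b X Z : ℤ) : ℚ) / (Z : ℚ) ^ 4 := by
    unfold F1
    push_cast
    rw [hxe]
    field_simp
  have q0 : (x ^ 2 - b) ^ 2 = ((F0 b X Z : ℤ) : ℚ) / (Z : ℚ) ^ 4 := by
    unfold F0
    push_cast
    rw [hxe]
    field_simp
  have hF1 : F1 a b X Z ≠ 0 := by
    intro h0
    apply hx
    rw [q1, h0]
    simp
  have heq : N * F1 a b X Z = d * F0 b X Z := by
    have h1 : (N : ℚ) * (F1 a b X Z : ℤ) = d * (F0 b X Z : ℤ) := by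
      rw [q1, q0, hye, div_mul_div_comm, div_eq_div_iff (mul_ne_zero hdQ (pow_ne_zero 4 hZQ))
        (pow_ne_zero 4 hZQ)] at hxy
      have h3 : (Z : ℚ) ^ 4 ≠ 0 := pow_ne_zero 4 hZQ
      refine mul_right_cancel₀ h3 ?_
      linear_combination hxy
    exact_mod_cast h1
  have hcop : IsCoprime N d := by
    rw [hNd, hdd, Int.isCoprime_iff_gcd_eq_one]
    have := y.reduced
    rw [Int.gcd_eq_natAbs]
    simpa using this
  obtain ⟨g, hg⟩ : d ∣ F1 a b X Z := by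
    refine hcop.symm.dvd_of_dvd_mul_left ?_
    exact ⟨F0 b X Z, heq⟩
  have hg0 : g ≠ 0 := by
    rintro rfl
    rw [mul_zero] at hg
    exact hF1 hg
  have hF0g : F0 b X Z = N * g := by
    rw [hg] at heq
    have h1 : d * (F0 b X Z - N * g) = 0 := by linear_combination -heq
    rcases mul_eq_zero.1 h1 with h2 | h2
    · exact absurd h2 hd0
    · linear_combination h2
  -- the greatest common divisor
  have hcopX : IsCoprime (X ^ 7) (Z ^ 7) := by
    refine IsCoprime.pow ?_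
    rw [hXd, hZd, Int.isCoprime_iff_gcd_eq_one, Int.gcd_eq_natAbs]
    simpa using x.reduced
  have hgR : g ∣ R := by
    have h1 : g ∣ R * Z ^ 7 := by
      rw [hR, ← cert_Z a b X Z, hF0g, hg]
      exact ⟨4 * Z * (-3 * X ^ 2 - 2 * a * X * Z + (a ^ 2 - 4 * b) * Z ^ 2) * N +
        (3 * X ^ 3 - a * X ^ 2 * Z - 5 * b * X * Z ^ 2 + 2 * a * b * Z ^ 3) * d, by ring⟩
    have h2 : g ∣ R * X ^ 7 := by
      have e : R * X ^ 7 = b ^ 2 * (4 * (a ^ 2 - 4 * b) * X ^ 7) := by rw [hR]; ring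
      rw [e, ← cert_X a b X Z, hF0g, hg]
      exact ⟨b ^ 2 * (4 * X * (-3 * b ^ 2 * Z ^ 2 - 2 * a * b * X * Z + (a ^ 2 - 4 * b) * X ^ 2) *
        N + (3 * b ^ 3 * Z ^ 3 - a * b ^ 2 * X * Z ^ 2 - 5 * b ^ 2 * X ^ 2 * Z +
          2 * a * b * X ^ 3) * d), by ring⟩
    obtain ⟨s, t, hst⟩ := hcopX
    have e : R = s * (R * X ^ 7) + t * (R * Z ^ 7) := by
      linear_combination (-R) * hst
    rw [e]
    exact dvd_add (h2.mul_left _) (h1.mul_left _)
  have hgle : |g| ≤ |R| := Int.le_of_dvd (abs_pos.2 hR0) (by rwa [abs_dvd_abs])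
  -- the size
  obtain ⟨H, hHd⟩ : ∃ H : ℤ, H = ((ht x : ℕ) : ℤ) := ⟨_, rfl⟩
  have hmx : ∀ z : ℚ, z.num.natAbs ≤ ht z ∧ z.den ≤ ht z := fun z =>
    ⟨le_max_left _ _, le_max_right _ _⟩
  have hXH : |X| ≤ H := by
    rw [hHd, hXd, Int.abs_eq_natAbs]
    exact_mod_cast (hmx x).1
  have hZH : |Z| ≤ H := by
    rw [hHd, hZd, Int.abs_eq_natAbs, Int.natAbs_natCast]
    exact_mod_cast (hmx x).2
  have hHy : |N| ≤ ht y ∧ |d| ≤ ht y := by
    constructor
    · rw [hNd, Int.abs_eq_natAbs]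
      exact_mod_cast (hmx y).1
    · rw [hdd, Int.abs_eq_natAbs, Int.natAbs_natCast]
      exact_mod_cast (hmx y).2
  have hM0 : |F0 b X Z| ≤ |R| * ht y := by
    rw [hF0g, abs_mul, mul_comm |R|]
    exact mul_le_mul hHy.1 hgle (abs_nonneg _) (by positivity)
  have hM1 : |F1 a b X Z| ≤ |R| * ht y := by
    rw [hg, abs_mul, mul_comm |R|]
    exact mul_le_mul hHy.2 hgle (abs_nonneg _) (by positivity)
  have hM : 0 ≤ |R| * (ht y : ℤ) := by positivity
  have hH0 : 0 ≤ H := by rw [hHd]; positivity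
  have hR1 : 1 ≤ |4 * (a ^ 2 - 4 * b)| := Int.one_le_abs (mul_ne_zero (by norm_num) hD)
  have hb1 : 1 ≤ b ^ 2 := by
    have := Int.one_le_abs hb
    nlinarith [abs_nonneg b, sq_abs b]
  have key : ∀ {A B V : ℤ} {cA cB : ℤ}, A * F0 b X Z + B * F1 a b X Z = V → |A| ≤ cA * H ^ 3 →
      |B| ≤ cB * H ^ 3 → |V| ≤ (cA + cB) * H ^ 3 * (|R| * ht y) := by
    intro A B V cA cB h hA hB
    rw [← h]
    calc |A * F0 b X Z + B * F1 a b X Z| ≤ |A * F0 b X Z| + |B * F1 a b X Z| := abs_add_le _ _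
      _ = |A| * |F0 b X Z| + |B| * |F1 a b X Z| := by rw [abs_mul, abs_mul]
      _ ≤ cA * H ^ 3 * (|R| * ht y) + cB * H ^ 3 * (|R| * ht y) :=
          add_le_add (mul_le_mul hA hM0 (abs_nonneg _) ((abs_nonneg _).trans hA))
            (mul_le_mul hB hM1 (abs_nonneg _) ((abs_nonneg _).trans hB))
      _ = _ := by ring
  have hC : ∀ V : ℤ, (V = Z ∨ V = X) → |V| ^ 7 ≤ C0 a b * H ^ 3 * (|R| * ht y) := by
    rintro V (hV | hV)
    · rw [hV]
      have h1 := key (cert_Z a b X Z) (cA := |(0 : ℤ)| + |(-12 : ℤ)| + |-(8 * a)| +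
          |4 * (a ^ 2 - 4 * b)|) (cB := |(3 : ℤ)| + |-a| + |-(5 * b)| + |2 * a * b|) (by
        refine le_trans (le_of_eq ?_) (cubic_le hXH hZH)
        congr 1
        ring) (by
        refine le_trans (le_of_eq ?_) (cubic_le hXH hZH)
        congr 1
        ring)
      have h2 : |4 * (a ^ 2 - 4 * b) * b ^ 2 * Z ^ 7| = |4 * (a ^ 2 - 4 * b)| * b ^ 2 * |Z| ^ 7 := by
        rw [abs_mul, abs_mul, abs_pow b, abs_pow Z, sq_abs]
      rw [h2] at h1
      have h3 : |Z| ^ 7 ≤ |4 * (a ^ 2 - 4 * b)| * b ^ 2 * |Z| ^ 7 := by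
        have h4 : 1 ≤ |4 * (a ^ 2 - 4 * b)| * b ^ 2 := one_le_mul_of_one_le_of_one_le hR1 hb1
        have h5 : 0 ≤ |Z| ^ 7 := by positivity
        nlinarith
      refine (h3.trans h1).trans (mul_le_mul_of_nonneg_right (mul_le_mul_of_nonneg_right ?_
        (by positivity)) hM)
      unfold C0
      simp only [abs_neg]
      have e1 : |(0 : ℤ)| = 0 := abs_zero
      have e2 : |(12 : ℤ)| = 12 := rfl
      have e3 : |(3 : ℤ)| = 3 := rfl
      rw [e1, e2, e3]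
      have p1 := abs_nonneg (8 * a * b)
      have p2 := abs_nonneg (4 * (a ^ 2 - 4 * b))
      have p3 := abs_nonneg (3 * b ^ 3)
      have p4 := abs_nonneg (a * b ^ 2)
      have p5 := abs_nonneg (2 * a * b)
      nlinarith
    · rw [hV]
      have h1 := key (cert_X a b X Z) (cA := |4 * (a ^ 2 - 4 * b)| + |-(8 * a * b)| +
          |-12 * b ^ 2| + |(0 : ℤ)|) (cB := |2 * a * b| + |-(5 * b ^ 2)| + |-(a * b ^ 2)| +
          |3 * b ^ 3|) (by
        refine le_trans (le_of_eq ?_) (cubic_le hXH hZH)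
        congr 1
        ring) (by
        refine le_trans (le_of_eq ?_) (cubic_le hXH hZH)
        congr 1
        ring)
      have h2 : |4 * (a ^ 2 - 4 * b) * X ^ 7| = |4 * (a ^ 2 - 4 * b)| * |X| ^ 7 := by
        rw [abs_mul, abs_pow]
      rw [h2] at h1
      have h3 : |X| ^ 7 ≤ |4 * (a ^ 2 - 4 * b)| * |X| ^ 7 := by
        have h5 : 0 ≤ |X| ^ 7 := by positivity
        nlinarith
      refine (h3.trans h1).trans (mul_le_mul_of_nonneg_right (mul_le_mul_of_nonneg_right ?_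
        (by positivity)) hM)
      unfold C0
      have e1 : |(0 : ℤ)| = 0 := abs_zero
      have e2 : |-12 * b ^ 2| = 12 * b ^ 2 := by
        rw [abs_mul, abs_of_nonneg (sq_nonneg b)]
        rfl
      rw [e2]
      simp only [abs_neg]
      have e3 : |5 * b ^ 2| = 5 * b ^ 2 := abs_of_nonneg (by positivity)
      rw [e1, e3]
      have p1 := abs_nonneg (8 * a)
      have p2 := abs_nonneg (4 * (a ^ 2 - 4 * b))
      have p3 := abs_nonneg a
      have p4 := abs_nonneg (5 * b)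
      have p5 := abs_nonneg (2 * a * b)
      linarith
  have hfin : H ^ 7 ≤ C0 a b * H ^ 3 * (|R| * ht y) := by
    have h1 : H = |X| ∨ H = |Z| := by
      rw [hHd, hZd, hXd, Int.abs_eq_natAbs, Int.abs_eq_natAbs, Int.natAbs_natCast]
      rcases max_choice x.num.natAbs x.den with h | h
      · left
        have h' : ht x = x.num.natAbs := h
        exact_mod_cast h'
      · right
        have h' : ht x = x.den := h
        exact_mod_cast h'
    rcases h1 with h1 | h1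
    · have := hC X (Or.inr rfl)
      rw [← h1] at this
      exact this
    · have := hC Z (Or.inl rfl)
      rw [← h1] at this
      exact this
  have hHpos : 0 < H := by
    rw [hHd]
    have : 0 < ht x := lt_of_lt_of_le x.den_pos (le_max_right _ _)
    exact_mod_cast this
  have hfin2 : H ^ 4 ≤ C0 a b * |R| * ht y := by
    have h1 : H ^ 3 * H ^ 4 ≤ H ^ 3 * (C0 a b * |R| * ht y) := by
      calc H ^ 3 * H ^ 4 = H ^ 7 := by ring
        _ ≤ _ := hfin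
        _ = _ := by ring
    exact le_of_mul_le_mul_left h1 (by positivity)
  have hC0 : 0 ≤ C0 a b := by
    unfold C0
    positivity
  have hfin3 : ((ht x ^ 4 : ℕ) : ℤ) ≤ (((2 * C0 a b * |R|).natAbs + 1) * ht y : ℕ) := by
    push_cast
    rw [← hHd]
    rw [abs_of_nonneg (by positivity : (0 : ℤ) ≤ 2 * C0 a b * |R|)]
    refine hfin2.trans (mul_le_mul_of_nonneg_right ?_ (by positivity))
    have : 0 ≤ C0 a b * |R| := by positivity
    linarith
  exact_mod_cast hfin3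

end Run7.h268.U.Tor
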