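import Pool.Agent.Run7.h268.U.Loc

/-!
# The groups of the descent depend only on the classes, the types and the symbols of the primes
-/

set_option autoImplicit false

namespace Run7.h268.U

open Finset
open Pool.Agent.Y703.CQ (nr)

/-- all the local conditions -/
def LcAll (a b d : ℤ) : Prop := Lc ℝ (a : ℝ) (b : ℝ) (d : ℝ) ∧
  ∀ (p : ℕ) [Fact p.Prime], Lc ℚ_[p] (a : ℚ_[p]) (b : ℚ_[p]) (d : ℚ_[p])

/-- the primes of good reduction -/
theorem lc_good {p : ℕ} [Fact p.Prime] (h2 : p ≠ 2) {a b d : ℤ} (hb0 : b ≠ 0)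
    (hab0 : a ^ 2 - 4 * b ≠ 0) (hd0 : d ≠ 0) (hb : ¬ (p : ℤ) ∣ b)
    (hab : ¬ (p : ℤ) ∣ a ^ 2 - 4 * b) (hd : ¬ (p : ℤ) ∣ d) :
    Lc ℚ_[p] (a : ℚ_[p]) (b : ℚ_[p]) (d : ℚ_[p]) := by
  have hpp : p.Prime := Fact.out
  have e : (-2 * a) ^ 2 - 4 * (a ^ 2 - 4 * b) = 2 ^ 4 * b := by ring
  obtain ⟨X, Y, r, h1, h3, h4⟩ := Run7.h843.Conv.good_p (a := -2 * a) (b := a ^ 2 - 4 * b) (d := d)
    hab0 (by rw [e]; exact mul_ne_zero (by norm_num) hb0) hd0 p h2 hab (by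
      rw [e]
      intro h
      rcases Int.Prime.dvd_mul' hpp h with h | h
      · have h5 : (p : ℤ) ∣ 2 := Int.Prime.dvd_pow' hpp h
        have h6 : p ∣ 2 := by exact_mod_cast h5
        exact h2 ((Nat.prime_dvd_prime_iff_eq hpp Nat.prime_two).1 h6)
      · exact hb h) hd
  refine Or.inr (Or.inr ⟨X / 4, Y / 8, r / 2, div_ne_zero h1 (by norm_num), ?_, ?_⟩)
  · rw [div_pow, h3]
    push_cast
    ring
  · rw [h4]
    ring

/-! ### the symbols -/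

theorem js_sq {p : ℕ} (hp : p.Prime) {x : ℤ} (h : ¬ (p : ℤ) ∣ x) :
    IsSquare (x : ZMod p) ↔ jacobiSym x p = 1 := by
  have : Fact p.Prime := ⟨hp⟩
  have h0 : (x : ZMod p) ≠ 0 := fun h1 => h ((ZMod.intCast_zmod_eq_zero_iff_dvd x p).1 h1)
  rw [← jacobiSym.legendreSym.to_jacobiSym, legendreSym.eq_one_iff p h0]

theorem js_ns {p : ℕ} (hp : p.Prime) {x : ℤ} :
    ¬ IsSquare (x : ZMod p) ↔ jacobiSym x p = -1 := by
  have : Fact p.Prime := ⟨hp⟩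
  rw [← jacobiSym.legendreSym.to_jacobiSym, legendreSym.eq_neg_one_iff p]

theorem js_pm {p : ℕ} (hp : p.Prime) {x : ℤ} (h : ¬ (p : ℤ) ∣ x) :
    jacobiSym x p = 1 ∨ jacobiSym x p = -1 := by
  by_cases h1 : IsSquare (x : ZMod p)
  · exact Or.inl ((js_sq hp h).1 h1)
  · exact Or.inr ((js_ns hp).1 h1)

theorem js_prod {ι : Type} [DecidableEq ι] (T : Finset ι) (f : ι → ℤ) (p : ℕ) :
    jacobiSym (∏ i ∈ T, f i) p = ∏ i ∈ T, jacobiSym (f i) p := by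
  induction T using Finset.induction_on with
  | empty => simp
  | insert a T ha ih => rw [prod_insert ha, prod_insert ha, jacobiSym.mul_left, ih]

theorem nd_prime {p q : ℕ} (hp : p.Prime) (hq : q.Prime) (h : q ≠ p) : ¬ (p : ℤ) ∣ (q : ℤ) := by
  intro h1
  have h2 : p ∣ q := by exact_mod_cast h1
  exact h ((Nat.prime_dvd_prime_iff_eq hp hq).1 h2).symm

theorem js_of_nr {p q p' q' : ℕ} (hp : p.Prime) (hp' : p'.Prime) (hq : q.Prime) (hq' : q'.Prime)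
    (h : q ≠ p) (h' : q' ≠ p') (e : nr p q = nr p' q') :
    jacobiSym (q : ℤ) p = jacobiSym (q' : ℤ) p' := by
  have h1 := js_sq hp (nd_prime hp hq h)
  have h2 := js_sq hp' (nd_prime hp' hq' h')
  have h3 := js_ns hp (x := (q : ℤ))
  have h4 := js_ns hp' (x := (q' : ℤ))
  rw [Int.cast_natCast] at h1 h2 h3 h4
  unfold nr at e
  by_cases h5 : IsSquare (q : ZMod p)
  · rw [if_pos h5] at e
    by_cases h6 : IsSquare (q' : ZMod p')
    · rw [h1.1 h5, h2.1 h6]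
    · rw [if_neg h6] at e
      exact absurd e (by decide)
  · rw [if_neg h5] at e
    by_cases h6 : IsSquare (q' : ZMod p')
    · rw [if_pos h6] at e
      exact absurd e (by decide)
    · rw [h3.1 h5, h4.1 h6]

theorem js_class {p p' q : ℕ} {c : ℤ} (hc : 4 * c ∣ (q : ℤ)) (h : p % q = p' % q)
    (hp : p % 2 = 1) (hp' : p' % 2 = 1) : jacobiSym c p = jacobiSym c p' := by
  have h1 : 4 * c.natAbs ∣ q := by
    have h2 := Int.natAbs_dvd_natAbs.2 hc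
    rw [Int.natAbs_mul, Int.natAbs_natCast] at h2
    exact h2
  rw [jacobiSym.mod_right c (Nat.odd_iff.2 hp), jacobiSym.mod_right c (Nat.odd_iff.2 hp')]
  have h3 : p % (4 * c.natAbs) = p' % (4 * c.natAbs) := by
    rw [← Nat.mod_mod_of_dvd p h1, h, Nat.mod_mod_of_dvd _ h1]
  rw [h3]

/-! ### the data -/

/-- a square root of the quadratic polynomial -/
def SqRoot (A B : ℤ) (p : ℕ) : Prop := ∃ a : ℤ, (p : ℤ) ∣ a ^ 2 + A * a + B ∧ IsSquare (a : ZMod p)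

/-- a nonsquare root of the quadratic polynomial -/
def NsRoot (A B : ℤ) (p : ℕ) : Prop := ∃ a : ℤ, (p : ℤ) ∣ a ^ 2 + A * a + B ∧ ¬ IsSquare (a : ZMod p)

/-- the modulus -/
structure Mdl (A B : ℤ) (q : ℕ) : Prop where
  eight : 8 ∣ q
  four : 4 * B ∣ (q : ℤ)
  bad : ∀ l : ℕ, l.Prime → (l : ℤ) ∣ 2 * B * (A ^ 2 - 4 * B) → l ∣ q
  ne : B ≠ 0
  ne' : A ^ 2 - 4 * B ≠ 0

/-- the primes -/
structure Prs (q : ℕ) {n : ℕ} (p : Fin n → ℕ) : Prop where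
  inj : Function.Injective p
  prime : ∀ i, (p i).Prime
  nd : ∀ i, ¬ p i ∣ q

variable {A B : ℤ} {q n : ℕ} {p p' : Fin n → ℕ}

theorem Mdl.two (h : Mdl A B q) : 2 ∣ q := (by norm_num : 2 ∣ 8).trans h.eight

theorem Prs.ndB (hp : Prs q p) (h : Mdl A B q) (i : Fin n) : ¬ (p i : ℤ) ∣ B := fun h1 =>
  hp.nd i (h.bad (p i) (hp.prime i) ((h1.mul_left 2).mul_right _))

theorem Prs.ndD (hp : Prs q p) (h : Mdl A B q) (i : Fin n) : ¬ (p i : ℤ) ∣ A ^ 2 - 4 * B := fun h1 =>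
  hp.nd i (h.bad (p i) (hp.prime i) (h1.mul_left _))

theorem Prs.ne2 (hp : Prs q p) (h : Mdl A B q) (i : Fin n) : p i ≠ 2 := fun h1 =>
  hp.nd i (by rw [h1]; exact h.two)

theorem Prs.odd (hp : Prs q p) (h : Mdl A B q) (i : Fin n) : p i % 2 = 1 :=
  (hp.prime i).eq_two_or_odd.resolve_left (hp.ne2 h i)

theorem Prs.ndp (hp : Prs q p) {i j : Fin n} (hij : i ≠ j) : ¬ (p j : ℤ) ∣ (p i : ℤ) :=
  nd_prime (hp.prime j) (hp.prime i) fun h => hij (hp.inj h)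

theorem nd_prod {r : ℕ} (hr : r.Prime) {ι : Type} {T : Finset ι} {f : ι → ℤ}
    (h : ∀ i ∈ T, ¬ (r : ℤ) ∣ f i) : ¬ (r : ℤ) ∣ ∏ i ∈ T, f i := by
  intro h1
  obtain ⟨i, hi, h2⟩ := (Prime.dvd_finset_prod_iff (Nat.prime_iff_prime_int.1 hr) f).1 h1
  exact h i hi h2

theorem nd_mul {r : ℕ} (hr : r.Prime) {x y : ℤ} (hx : ¬ (r : ℤ) ∣ x) (hy : ¬ (r : ℤ) ∣ y) :
    ¬ (r : ℤ) ∣ x * y := fun h => (Int.Prime.dvd_mul' hr h).elim hx hy

theorem Prs.ndc (hp : Prs q p) (h : Mdl A B q) {c : ℤ} (hc : c ∣ B) (i : Fin n) :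
    ¬ (p i : ℤ) ∣ c := fun h1 => hp.ndB h i (h1.trans hc)

/-- the condition at a prime of the twist -/
def Cd (A B : ℤ) (p : Fin n → ℕ) (c : ℤ) (T : Finset (Fin n)) (j : Fin n) : Prop :=
  (j ∉ T ∧ (jacobiSym (c * ∏ i ∈ T, (p i : ℤ)) (p j) = 1 ∨
    jacobiSym (c * ∏ i ∈ T, (p i : ℤ)) (p j) * jacobiSym B (p j) = 1)) ∨
  (j ∈ T ∧ ((jacobiSym (c * ∏ i ∈ T.erase j, (p i : ℤ)) (p j) *
      jacobiSym (∏ i ∈ univ.erase j, (p i : ℤ)) (p j) = 1 ∧ SqRoot A B (p j)) ∨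
    (jacobiSym (c * ∏ i ∈ T.erase j, (p i : ℤ)) (p j) *
      jacobiSym (∏ i ∈ univ.erase j, (p i : ℤ)) (p j) = -1 ∧ NsRoot A B (p j))))

theorem loc_at (hq : Mdl A B q) (hp : Prs q p) {c : ℤ} (hc : c ∣ B) (T : Finset (Fin n)) (j : Fin n)
    [Fact (p j).Prime] :
    Lc ℚ_[p j] ((A * ∏ i, (p i : ℤ) : ℤ) : ℚ_[p j]) ((B * (∏ i, (p i : ℤ)) ^ 2 : ℤ) : ℚ_[p j])
      ((c * ∏ i ∈ T, (p i : ℤ) : ℤ) : ℚ_[p j]) ↔ Cd A B p c T j := by
  have hpj := hp.prime j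
  have h2 := hp.ne2 hq j
  have hB := hp.ndB hq j
  have hD := hp.ndD hq j
  have hcj := hp.ndc hq hc j
  have hprod : ∏ i, (p i : ℤ) = (p j : ℤ) * ∏ i ∈ univ.erase j, (p i : ℤ) :=
    (mul_prod_erase univ (fun i => (p i : ℤ)) (mem_univ j)).symm
  have hD₁ : ¬ (p j : ℤ) ∣ ∏ i ∈ univ.erase j, (p i : ℤ) :=
    nd_prod hpj fun i hi => hp.ndp (ne_of_mem_erase hi)
  have hc0 : c ≠ 0 := fun h => hcj (by rw [h]; exact dvd_zero _)
  have hd0 : c * ∏ i ∈ T, (p i : ℤ) ≠ 0 := mul_ne_zero hc0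
    (prod_ne_zero_iff.2 fun i _ => by exact_mod_cast (hp.prime i).ne_zero)
  have hd0' : ((c * ∏ i ∈ T, (p i : ℤ) : ℤ) : ℚ_[p j]) ≠ 0 := by exact_mod_cast hd0
  have key := crit_dvd h2 hB hD hD₁ hd0'
  rw [← hprod] at key
  have e1 : ((A * ∏ i, (p i : ℤ) : ℤ) : ℚ_[p j]) = (A : ℚ_[p j]) * ((∏ i, (p i : ℤ) : ℤ) : ℚ_[p j]) :=
    Int.cast_mul _ _
  have e2 : ((B * (∏ i, (p i : ℤ)) ^ 2 : ℤ) : ℚ_[p j]) =
      (B : ℚ_[p j]) * ((∏ i, (p i : ℤ) : ℤ) : ℚ_[p j]) ^ 2 := by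
    rw [Int.cast_mul, Int.cast_pow]
  rw [e1, e2, key]
  have hroot : ∀ a : ℤ, (p j : ℤ) ∣ a ^ 2 + A * a + B → ¬ (p j : ℤ) ∣ a := by
    intro a ha h3
    refine hB ?_
    have e : B = (a ^ 2 + A * a + B) - a * (a + A) := by ring
    rw [e]
    exact dvd_sub ha (h3.mul_right _)
  by_cases hj : j ∈ T
  · -- the prime divides the class
    obtain ⟨d₁, hd₁⟩ : ∃ d₁, d₁ = c * ∏ i ∈ T.erase j, (p i : ℤ) := ⟨_, rfl⟩
    obtain ⟨D₁, hD₁'⟩ : ∃ D₁, D₁ = ∏ i ∈ univ.erase j, (p i : ℤ) := ⟨_, rfl⟩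
    have hd : c * ∏ i ∈ T, (p i : ℤ) = p j * d₁ := by
      rw [hd₁, ← mul_prod_erase T (fun i => (p i : ℤ)) hj]
      ring
    have hnd : ¬ (p j : ℤ) ∣ d₁ := by
      rw [hd₁]
      exact nd_mul hpj hcj (nd_prod hpj fun i hi => hp.ndp (ne_of_mem_erase hi))
    rw [← hD₁'] at hD₁ hprod
    have n1 : ¬ IsSquare ((c * ∏ i ∈ T, (p i : ℤ) : ℤ) : ℚ_[p j]) := by
      rw [hd]
      exact not_sq_odd hnd
    have n2 : ¬ IsSquare (((c * ∏ i ∈ T, (p i : ℤ) : ℤ) : ℚ_[p j]) * B) := by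
      rw [hd, ← Int.cast_mul, mul_assoc]
      exact not_sq_odd (nd_mul hpj hnd hB)
    have n3 : ∀ a : ℤ, (p j : ℤ) ∣ a ^ 2 + A * a + B →
        (IsSquare (((c * ∏ i ∈ T, (p i : ℤ) : ℤ) : ℚ_[p j]) * ((∏ i, (p i : ℤ) : ℤ) : ℚ_[p j]) * a) ↔
          jacobiSym d₁ (p j) * jacobiSym D₁ (p j) * jacobiSym a (p j) = 1) := by
      intro a ha
      have hpne : ((p j : ℕ) : ℚ_[p j]) ≠ 0 := by exact_mod_cast hpj.ne_zero
      have e3 : ((c * ∏ i ∈ T, (p i : ℤ) : ℤ) : ℚ_[p j]) * ((∏ i, (p i : ℤ) : ℤ) : ℚ_[p j]) * a =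
          ((d₁ * D₁ * a : ℤ) : ℚ_[p j]) * (p j : ℚ_[p j]) ^ 2 := by
        rw [hd, hprod]
        push_cast
        ring
      rw [e3, isSquare_mul_sq hpne, sq_unit h2 (nd_mul hpj (nd_mul hpj hnd hD₁) (hroot a ha)),
        js_sq hpj (nd_mul hpj (nd_mul hpj hnd hD₁) (hroot a ha)), jacobiSym.mul_left,
        jacobiSym.mul_left]
    unfold Cd
    rw [← hd₁, ← hD₁']
    constructor
    · rintro (h | h | ⟨a, ha, h⟩)
      · exact absurd h n1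
      · exact absurd h n2
      · refine Or.inr ⟨hj, ?_⟩
        have h3 := (n3 a ha).1 h
        rcases js_pm hpj (hroot a ha) with h4 | h4
        · rw [h4, mul_one] at h3
          exact Or.inl ⟨h3, a, ha, (js_sq hpj (hroot a ha)).2 h4⟩
        · rw [h4, mul_neg_one] at h3
          exact Or.inr ⟨by rw [← h3, neg_neg], a, ha, (js_ns hpj).2 h4⟩
    · rintro (⟨h, -⟩ | ⟨-, ⟨h, a, ha, h3⟩ | ⟨h, a, ha, h3⟩⟩)
      · exact absurd hj h
      · refine Or.inr (Or.inr ⟨a, ha, (n3 a ha).2 ?_⟩)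
        rw [h, (js_sq hpj (hroot a ha)).1 h3, one_mul]
      · refine Or.inr (Or.inr ⟨a, ha, (n3 a ha).2 ?_⟩)
        rw [h, (js_ns hpj).1 h3]
        norm_num
  · -- the prime does not divide the class
    have hnd : ¬ (p j : ℤ) ∣ c * ∏ i ∈ T, (p i : ℤ) :=
      nd_mul hpj hcj (nd_prod hpj fun i hi => hp.ndp fun h => hj (by rw [← h]; exact hi))
    unfold Cd
    constructor
    · rintro (h | h | ⟨a, ha, h⟩)
      · exact Or.inl ⟨hj, Or.inl ((js_sq hpj hnd).1 ((sq_unit h2 hnd).1 h))⟩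
      · rw [← Int.cast_mul, sq_unit h2 (nd_mul hpj hnd hB), js_sq hpj (nd_mul hpj hnd hB),
          jacobiSym.mul_left] at h
        exact Or.inl ⟨hj, Or.inr h⟩
      · exfalso
        have e3 : ((c * ∏ i ∈ T, (p i : ℤ) : ℤ) : ℚ_[p j]) * ((∏ i, (p i : ℤ) : ℤ) : ℚ_[p j]) * a =
            ((p j * (c * (∏ i ∈ T, (p i : ℤ)) * (∏ i ∈ univ.erase j, (p i : ℤ)) * a) : ℤ) :
              ℚ_[p j]) := by
          rw [hprod]
          push_cast
          ring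
        rw [e3] at h
        exact not_sq_odd (nd_mul hpj (nd_mul hpj hnd hD₁) (hroot a ha)) h
    · rintro (⟨-, h | h⟩ | ⟨h, -⟩)
      · exact Or.inl ((sq_unit h2 hnd).2 ((js_sq hpj hnd).2 h))
      · refine Or.inr (Or.inl ?_)
        rw [← Int.cast_mul, sq_unit h2 (nd_mul hpj hnd hB), js_sq hpj (nd_mul hpj hnd hB),
          jacobiSym.mul_left]
        exact h
      · exact absurd h hj

/-- the primes have the same classes and types -/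
structure Sm (A B : ℤ) (q x y : ℕ) : Prop where
  mod : x % q = y % q
  sq : SqRoot A B x ↔ SqRoot A B y
  ns : NsRoot A B x ↔ NsRoot A B y

theorem cd_congr (hq : Mdl A B q) (hp : Prs q p) (hp' : Prs q p') (hs : ∀ i, Sm A B q (p i) (p' i))
    (hnr : ∀ i j, i ≠ j → nr (p j) (p i) = nr (p' j) (p' i)) {c : ℤ} (hc : c ∣ B)
    (T : Finset (Fin n)) (j : Fin n) : Cd A B p c T j ↔ Cd A B p' c T j := by
  have hjs : ∀ i, i ≠ j → jacobiSym (p i : ℤ) (p j) = jacobiSym (p' i : ℤ) (p' j) := fun i hij =>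
    js_of_nr (hp.prime j) (hp'.prime j) (hp.prime i) (hp'.prime i) (fun h => hij (hp.inj h))
      (fun h => hij (hp'.inj h)) (hnr i j hij)
  have hpr : ∀ U : Finset (Fin n), j ∉ U →
      jacobiSym (∏ i ∈ U, (p i : ℤ)) (p j) = jacobiSym (∏ i ∈ U, (p' i : ℤ)) (p' j) := by
    intro U hU
    rw [js_prod, js_prod]
    exact prod_congr rfl fun i hi => hjs i fun h => hU (by rw [← h]; exact hi)
  have hcc : ∀ e : ℤ, e ∣ B → jacobiSym e (p j) = jacobiSym e (p' j) := fun e he =>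
    js_class ((mul_dvd_mul_left 4 he).trans hq.four) (hs j).mod (hp.odd hq j) (hp'.odd hq j)
  have h1 : ∀ U : Finset (Fin n), j ∉ U → jacobiSym (c * ∏ i ∈ U, (p i : ℤ)) (p j) =
      jacobiSym (c * ∏ i ∈ U, (p' i : ℤ)) (p' j) := by
    intro U hU
    rw [jacobiSym.mul_left, jacobiSym.mul_left, hcc c hc, hpr U hU]
  unfold Cd
  rw [h1 (T.erase j) (notMem_erase j T), hpr (univ.erase j) (notMem_erase j univ),
    hcc B dvd_rfl, (hs j).sq, (hs j).ns]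
  refine or_congr (and_congr_right fun hj => ?_) Iff.rfl
  rw [h1 T hj]

/-- the quotient of two primes of the same class is a square at the bad places -/
theorem sq_ratio {l : ℕ} [hl : Fact l.Prime] (h8 : 8 ∣ q) (hlq : l ∣ q) {x y : ℕ} (hx : x.Prime)
    (hxq : ¬ x ∣ q) (h : x % q = y % q) : ∃ u : ℚ_[l], u ≠ 0 ∧ (y : ℚ_[l]) = (x : ℚ_[l]) * u ^ 2 := by
  have hlx : l ≠ x := fun h1 => hxq (by rw [← h1]; exact hlq)
  have hnx : ¬ (l : ℤ) ∣ (x : ℤ) := nd_prime hl.out hx hlx.symm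
  have hxy : (x : ℤ) ≡ y [ZMOD q] := by
    exact (Int.natCast_modEq_iff).2 h
  have hxyl : (x : ℤ) ≡ y [ZMOD l] := hxy.of_dvd (Int.natCast_dvd_natCast.2 hlq)
  have hny : ¬ (l : ℤ) ∣ (y : ℤ) := fun h1 => hnx (hxyl.dvd_iff.2 h1)
  have hx0 : (x : ℚ_[l]) ≠ 0 := by exact_mod_cast hx.ne_zero
  have hy0 : (y : ℚ_[l]) ≠ 0 := by
    have : y ≠ 0 := by
      rintro rfl
      exact hny (dvd_zero _)
    exact_mod_cast this
  obtain ⟨r, hr⟩ : IsSquare (((x * y : ℤ)) : ℚ_[l]) := by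
    by_cases hl2 : l = 2
    · subst hl2
      refine Pool.Agent.Y971.SG.Lq.padic_sq2 ?_
      have h3 : (x : ℤ) ≡ y [ZMOD 8] := hxy.of_dvd (by exact_mod_cast h8)
      have h4 : (x * y : ℤ) ≡ y * y [ZMOD 8] := h3.mul_right _
      have h5 : (y : ℤ) % 2 = 1 := by omega
      have h6 : (y * y : ℤ) % 8 = 1 := by
        obtain ⟨k, hk⟩ : ∃ k, (y : ℤ) = 2 * k + 1 := ⟨y / 2, by omega⟩
        rw [hk]
        have h7 : (k * (k + 1)) % 2 = 0 := by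
          rcases Int.emod_two_eq_zero_or_one k with h8 | h8
          · rw [Int.mul_emod, h8]; norm_num
          · rw [Int.mul_emod, Int.add_emod, h8]; norm_num
        have e : (2 * k + 1) * (2 * k + 1) = 4 * (k * (k + 1)) + 1 := by ring
        rw [e]
        omega
      rw [← h6]
      exact h4
    · refine Pool.Agent.Y971.SG.Lq.padic_sq hl2 (nd_mul hl.out hnx hny) ?_
      have h3 : ((x : ℤ) : ZMod l) = ((y : ℤ) : ZMod l) := (ZMod.intCast_eq_intCast_iff _ _ _).2 hxyl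
      rw [Int.cast_mul, h3]
      exact ⟨_, rfl⟩
  refine ⟨r / x, div_ne_zero ?_ hx0, ?_⟩
  · rintro rfl
    push_cast at hr
    rw [mul_zero] at hr
    exact mul_ne_zero hx0 hy0 hr
  · push_cast at hr
    rw [div_pow, pow_two r, ← hr]
    field_simp

theorem prod_ratio {F : Type} [Field F] {T : Finset (Fin n)}
    (h : ∀ i, ∃ u : F, u ≠ 0 ∧ (p' i : F) = (p i : F) * u ^ 2) :
    ∃ u : F, u ≠ 0 ∧ ∏ i ∈ T, (p' i : F) = (∏ i ∈ T, (p i : F)) * u ^ 2 := by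
  choose u hu h2 using h
  refine ⟨∏ i ∈ T, u i, prod_ne_zero_iff.2 fun i _ => hu i, ?_⟩
  rw [← prod_pow, ← prod_mul_distrib]
  exact prod_congr rfl fun i _ => h2 i

theorem lc_ratio {F : Type} [Field F] {c : ℤ} {T : Finset (Fin n)}
    (h : ∀ i, ∃ u : F, u ≠ 0 ∧ (p' i : F) = (p i : F) * u ^ 2)
    (hl : Lc F ((A * ∏ i, (p i : ℤ) : ℤ) : F) ((B * (∏ i, (p i : ℤ)) ^ 2 : ℤ) : F)
      ((c * ∏ i ∈ T, (p i : ℤ) : ℤ) : F)) :
    Lc F ((A * ∏ i, (p' i : ℤ) : ℤ) : F) ((B * (∏ i, (p' i : ℤ)) ^ 2 : ℤ) : F)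
      ((c * ∏ i ∈ T, (p' i : ℤ) : ℤ) : F) := by
  obtain ⟨u, hu, hu2⟩ := prod_ratio (T := univ) h
  obtain ⟨w, hw, hw2⟩ := prod_ratio (T := T) h
  push_cast at hl ⊢
  refine lc_scale hu hw hu2 ?_ hl
  rw [hw2]
  ring

/-- **The transfer of the local conditions.** -/
theorem lcAll_of (hq : Mdl A B q) (hp : Prs q p) (hp' : Prs q p')
    (hs : ∀ i, Sm A B q (p i) (p' i)) (hnr : ∀ i j, i ≠ j → nr (p j) (p i) = nr (p' j) (p' i))
    {c : ℤ} (hc : c ∣ B) (T : Finset (Fin n))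
    (h : LcAll (A * ∏ i, (p i : ℤ)) (B * (∏ i, (p i : ℤ)) ^ 2) (c * ∏ i ∈ T, (p i : ℤ))) :
    LcAll (A * ∏ i, (p' i : ℤ)) (B * (∏ i, (p' i : ℤ)) ^ 2) (c * ∏ i ∈ T, (p' i : ℤ)) := by
  obtain ⟨hR, hL⟩ := h
  refine ⟨lc_ratio (fun i => ?_) hR, fun l hl => ?_⟩
  · have h1 : (0 : ℝ) < p i := by exact_mod_cast (hp.prime i).pos
    have h2 : (0 : ℝ) < p' i := by exact_mod_cast (hp'.prime i).pos
    refine ⟨Real.sqrt (p' i / p i), (Real.sqrt_pos.2 (div_pos h2 h1)).ne', ?_⟩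
    rw [Real.sq_sqrt (div_pos h2 h1).le]
    field_simp
  by_cases hlq : l ∣ q
  · exact lc_ratio (fun i => sq_ratio hq.eight hlq (hp.prime i) (hp.nd i) (hs i).mod) (hL l)
  by_cases hj : ∃ j, l = p' j
  · obtain ⟨j, rfl⟩ := hj
    have : Fact (p j).Prime := ⟨hp.prime j⟩
    rw [loc_at hq hp' hc T j, ← cd_congr hq hp hp' hs hnr hc T j, ← loc_at hq hp hc T j]
    exact hL (p j)
  · have hB : ¬ (l : ℤ) ∣ B := fun h1 => hlq (hq.bad l hl.out ((h1.mul_left 2).mul_right _))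
    have hD : ¬ (l : ℤ) ∣ A ^ 2 - 4 * B := fun h1 => hlq (hq.bad l hl.out (h1.mul_left _))
    have hl2 : l ≠ 2 := fun h1 => hlq (by rw [h1]; exact hq.two)
    have hpr : ∀ U : Finset (Fin n), ¬ (l : ℤ) ∣ ∏ i ∈ U, (p' i : ℤ) := fun U =>
      nd_prod hl.out fun i _ => nd_prime hl.out (hp'.prime i) fun h1 => hj ⟨i, h1.symm⟩
    have hsq : ¬ (l : ℤ) ∣ (∏ i, (p' i : ℤ)) ^ 2 := fun h1 => hpr univ (Int.Prime.dvd_pow' hl.out h1)
    have e : (A * ∏ i, (p' i : ℤ)) ^ 2 - 4 * (B * (∏ i, (p' i : ℤ)) ^ 2) =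
        (A ^ 2 - 4 * B) * (∏ i, (p' i : ℤ)) ^ 2 := by ring
    have hne : ∀ U : Finset (Fin n), ∏ i ∈ U, (p' i : ℤ) ≠ 0 := fun U =>
      prod_ne_zero_iff.2 fun i _ => by exact_mod_cast (hp'.prime i).ne_zero
    have hc0 : c ≠ 0 := fun h => hq.ne (by rw [h] at hc; exact zero_dvd_iff.1 hc)
    refine lc_good hl2 (mul_ne_zero hq.ne (pow_ne_zero 2 (hne univ))) ?_
      (mul_ne_zero hc0 (hne T)) (nd_mul hl.out hB hsq) ?_ (nd_mul hl.out (fun h1 => hB (h1.trans hc))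
        (hpr T))
    · rw [e]
      exact mul_ne_zero hq.ne' (pow_ne_zero 2 (hne univ))
    · rw [e]
      exact nd_mul hl.out hD hsq

theorem Sm.symm {x y : ℕ} (h : Sm A B q x y) : Sm A B q y x := ⟨h.mod.symm, h.sq.symm, h.ns.symm⟩

/-! ### the groups -/

open Run7.h268.FN.T17 (SelQ)

/-- the group of the problem in terms of the local conditions -/
theorem selQ_eq {a b : ℤ} (hb : b ≠ 0) :
    SelQ a b = {d | Squarefree d ∧ d ∣ b ∧ LcAll a b d} := by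
  ext d
  constructor
  · rintro ⟨h1, h2, h3, h4⟩
    exact ⟨h1, h2, (quartic_iff h1.ne_zero hb h2).1 h3, fun p _ =>
      (quartic_iff h1.ne_zero hb h2).1 (h4 p)⟩
  · rintro ⟨h1, h2, h3, h4⟩
    exact ⟨h1, h2, (quartic_iff h1.ne_zero hb h2).2 h3, fun p _ =>
      (quartic_iff h1.ne_zero hb h2).2 (h4 p)⟩

/-- the parameters -/
def Md (A B : ℤ) (p : Fin n → ℕ) : Set (ℤ × Finset (Fin n)) :=
  {x | Squarefree x.1 ∧ x.1 ∣ B ∧
    LcAll (A * ∏ i, (p i : ℤ)) (B * (∏ i, (p i : ℤ)) ^ 2) (x.1 * ∏ i ∈ x.2, (p i : ℤ))}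

theorem md_eq (hq : Mdl A B q) (hp : Prs q p) (hp' : Prs q p') (hs : ∀ i, Sm A B q (p i) (p' i))
    (hnr : ∀ i j, i ≠ j → nr (p j) (p i) = nr (p' j) (p' i)) : Md A B p = Md A B p' := by
  ext ⟨c, T⟩
  constructor
  · rintro ⟨h1, h2, h3⟩
    exact ⟨h1, h2, lcAll_of hq hp hp' hs hnr h2 T h3⟩
  · rintro ⟨h1, h2, h3⟩
    exact ⟨h1, h2, lcAll_of hq hp' hp (fun i => (hs i).symm) (fun i j h => (hnr i j h).symm) h2 T h3⟩

theorem sel_image (hq : Mdl A B q) (hp : Prs q p) :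
    SelQ (A * ∏ i, (p i : ℤ)) (B * (∏ i, (p i : ℤ)) ^ 2) =
      (fun x : ℤ × Finset (Fin n) => x.1 * ∏ i ∈ x.2, (p i : ℤ)) '' Md A B p := by
  have hne : ∀ U : Finset (Fin n), ∏ i ∈ U, (p i : ℤ) ≠ 0 := fun U =>
    prod_ne_zero_iff.2 fun i _ => by exact_mod_cast (hp.prime i).ne_zero
  have hpi : ∀ i, Prime (p i : ℤ) := fun i => Nat.prime_iff_prime_int.1 (hp.prime i)
  have hcop : ∀ i j, i ≠ j → IsCoprime (p i : ℤ) (p j : ℤ) := fun i j h =>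
    (Int.isCoprime_iff_gcd_eq_one.2 (by
      rw [Int.gcd_natCast_natCast]
      exact (Nat.coprime_primes (hp.prime i) (hp.prime j)).2 fun h1 => h (hp.inj h1)))
  have hsqp : ∀ U : Finset (Fin n), Squarefree (∏ i ∈ U, (p i : ℤ)) := by
    intro U
    refine Finset.squarefree_prod_of_pairwise_isCoprime (fun i _ j _ h => ?_) fun i _ => (hpi i).squarefree
    exact (hcop i j h).isRelPrime
  rw [selQ_eq (mul_ne_zero hq.ne (pow_ne_zero 2 (hne univ)))]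
  ext d
  constructor
  · rintro ⟨h1, h2, h3⟩
    classical
    obtain ⟨T, hT⟩ : ∃ T : Finset (Fin n), T = univ.filter fun i => (p i : ℤ) ∣ d := ⟨_, rfl⟩
    have hTd : ∏ i ∈ T, (p i : ℤ) ∣ d := by
      refine Finset.prod_dvd_of_coprime (fun i _ j _ h => hcop i j h) fun i hi => ?_
      rw [hT, mem_filter] at hi
      exact hi.2
    obtain ⟨c, hc⟩ := hTd
    have hcd : d = c * ∏ i ∈ T, (p i : ℤ) := by rw [hc]; ring
    have hcs : Squarefree c := h1.squarefree_of_dvd ⟨_, hcd⟩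
    have hcB : c ∣ B := by
      have h4 : IsCoprime c ((∏ i, (p i : ℤ)) ^ 2) := by
        refine IsCoprime.pow_right (IsCoprime.prod_right fun i _ => ?_)
        refine ((hpi i).coprime_iff_not_dvd.2 fun h5 => ?_).symm
        have hi : i ∈ T := by
          rw [hT, mem_filter]
          exact ⟨mem_univ i, by rw [hcd]; exact h5.mul_right _⟩
        have h6 : (p i : ℤ) * p i ∣ d := by
          rw [hcd]
          exact mul_dvd_mul h5 (Finset.dvd_prod_of_mem _ hi)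
        exact (hpi i).not_unit (h1 _ h6)
      have h5 : c ∣ B * (∏ i, (p i : ℤ)) ^ 2 := (Dvd.intro _ hcd.symm).trans h2
      exact h4.dvd_of_dvd_mul_right h5
    refine ⟨(c, T), ⟨hcs, hcB, ?_⟩, hcd.symm⟩
    rw [← hcd]
    exact h3
  · rintro ⟨⟨c, T⟩, ⟨h1, h2, h3⟩, rfl⟩
    have hcT : IsCoprime c (∏ i ∈ T, (p i : ℤ)) := by
      refine IsCoprime.prod_right fun i _ => ?_
      exact ((hpi i).coprime_iff_not_dvd.2 (hp.ndc hq h2 i)).symm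
    refine ⟨?_, ?_, h3⟩
    · exact (squarefree_mul_iff.2 ⟨hcT.isRelPrime, h1, hsqp T⟩)
    · refine mul_dvd_mul h2 ?_
      exact (Finset.prod_dvd_prod_of_subset T univ _ (subset_univ T)).trans (dvd_pow_self _ two_ne_zero)

theorem ncard_eq (hq : Mdl A B q) (hp : Prs q p) :
    (SelQ (A * ∏ i, (p i : ℤ)) (B * (∏ i, (p i : ℤ)) ^ 2)).ncard = (Md A B p).ncard := by
  rw [sel_image hq hp]
  refine Set.ncard_image_of_injOn ?_
  have hpi : ∀ i, Prime (p i : ℤ) := fun i => Nat.prime_iff_prime_int.1 (hp.prime i)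
  have key : ∀ x ∈ Md A B p, ∀ i, i ∈ x.2 ↔ (p i : ℤ) ∣ x.1 * ∏ i ∈ x.2, (p i : ℤ) := by
    rintro ⟨c, T⟩ ⟨h1, h2, h3⟩ i
    constructor
    · intro hi
      exact (Finset.dvd_prod_of_mem _ hi).mul_left _
    · intro h
      by_contra hi
      exact nd_mul (hp.prime i) (hp.ndc hq h2 i) (nd_prod (hp.prime i) fun j hj =>
        hp.ndp fun h4 => hi (by rw [← h4]; exact hj)) h
  intro x hx y hy hxy
  have hT : x.2 = y.2 := by
    ext i
    rw [key x hx i, key y hy i]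
    simp only at hxy
    rw [hxy]
  have hne : ∏ i ∈ y.2, (p i : ℤ) ≠ 0 :=
    prod_ne_zero_iff.2 fun i _ => by exact_mod_cast (hp.prime i).ne_zero
  refine Prod.ext ?_ hT
  simp only at hxy
  rw [hT] at hxy
  exact mul_right_cancel₀ hne hxy

/-- **The order of the group depends only on the classes, the types and the symbols.** -/
theorem ncard_congr (hq : Mdl A B q) (hp : Prs q p) (hp' : Prs q p')
    (hs : ∀ i, Sm A B q (p i) (p' i)) (hnr : ∀ i j, i ≠ j → nr (p j) (p i) = nr (p' j) (p' i)) :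
    (SelQ (A * ∏ i, (p i : ℤ)) (B * (∏ i, (p i : ℤ)) ^ 2)).ncard =
      (SelQ (A * ∏ i, (p' i : ℤ)) (B * (∏ i, (p' i : ℤ)) ^ 2)).ncard := by
  rw [ncard_eq hq hp, ncard_eq hq hp', md_eq hq hp hp' hs hnr]

end Run7.h268.U
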